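import Pool.Agent.ARL.Stmts

/-!
# MP_5c2e18_nt, second theorem: module CH1 (squarefree levels)
-/

set_option autoImplicit false

namespace Pool.Agent.ARL

open Polynomial Filter Topology NumberField IsDedekindDomain
open Pool.Agent.Arb (iter level ht cnt crit D)

namespace CH1_

lemma D_one (a b : ℤ) : D a b 1 = 1 := by simp [D]

lemma D_mod (p : ℕ) (a b : ℤ) (h : (a : ZMod p) = -2 * (b : ZMod p)) (k : ℕ) :
    ((D a b (k + 2) : ℤ) : ZMod p) = -(b : ZMod p) ^ (2 ^ (k + 1) - 1) := by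
  induction k with
  | zero =>
    have h1 : D a b (0 + 2) = a * (D a b 1) ^ 2 + b ^ (2 ^ 1 - 1) := rfl
    rw [h1, D_one]
    push_cast
    rw [h]
    norm_num
    ring
  | succ k ih =>
    have h1 : D a b (k + 1 + 2) = a * (D a b (k + 2)) ^ 2 + b ^ (2 ^ (k + 2) - 1) := rfl
    rw [h1]
    push_cast
    rw [ih, h]
    have h2 : (b : ZMod p) ^ (2 ^ (k + 2) - 1) =
        (b : ZMod p) * ((b : ZMod p) ^ (2 ^ (k + 1) - 1)) ^ 2 := by
      rw [← pow_mul, ← pow_succ']
      congr 1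
      have h3 := Nat.one_le_two_pow (n := k + 1)
      have h4 : 2 ^ (k + 2) = 2 * 2 ^ (k + 1) := by ring
      omega
    have h5 : k + 1 + 1 = k + 2 := rfl
    rw [h5, h2]
    ring

lemma D_mod' (p : ℕ) (a b : ℤ) (h : (a : ZMod p) = -2 * (b : ZMod p)) {u : ℕ} (hu : 2 ≤ u) :
    ((D a b (1 * u) : ℤ) : ZMod p) = -(b : ZMod p) * ((b : ZMod p) ^ (2 ^ (u - 2) - 1)) ^ 2 := by
  obtain ⟨k, rfl⟩ : ∃ k, u = k + 2 := ⟨u - 2, by omega⟩
  rw [one_mul, D_mod p a b h k, Nat.add_sub_cancel, neg_mul, ← pow_mul, ← pow_succ']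
  congr 2
  have h3 := Nat.one_le_two_pow (n := k)
  have h4 : 2 ^ (k + 1) = 2 * 2 ^ k := by ring
  omega

lemma even_card_divisors {R : ℕ} (hR : Squarefree R) (h1 : 1 < R) : Even R.divisors.card := by
  have hp := Nat.minFac_prime (n := R) (by omega)
  obtain ⟨k, hk⟩ := R.minFac_dvd
  set p := R.minFac
  have hc : Nat.Coprime p k := by
    have := hk ▸ hR
    exact Nat.coprime_of_squarefree_mul this
  rw [hk, hc.card_divisors_mul, hp.divisors, Finset.card_pair hp.one_lt.ne]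
  exact even_two.mul_right _

end CH1_

open CH1_ in
theorem ch1_proof : Stmt_CH1 := by
  intro p _ a b s hb ha hns k hk hk1 hsq
  have hmem : 1 ∈ k.divisors := Nat.one_mem_divisors.2 (by omega)
  set W : ZMod p := ∏ u ∈ k.divisors.erase 1, (b : ZMod p) ^ (2 ^ (u - 2) - 1) with hW
  have hW0 : W ≠ 0 := Finset.prod_ne_zero_iff.2 fun u _ => pow_ne_zero _ hb
  have hprod : ((∏ u ∈ k.divisors, D a b (1 * u) : ℤ) : ZMod p) =
      (-(b : ZMod p)) ^ (k.divisors.erase 1).card * W ^ 2 := by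
    rw [Int.cast_prod, ← Finset.mul_prod_erase _ _ hmem]
    have h1 : ((D a b (1 * 1) : ℤ) : ZMod p) = 1 := by
      rw [one_mul, D_one]; simp
    rw [h1, one_mul, hW, ← Finset.prod_pow, ← Finset.prod_const, ← Finset.prod_mul_distrib]
    refine Finset.prod_congr rfl fun u hu => ?_
    have hu1 : u ≠ 1 := (Finset.mem_erase.1 hu).1
    have hu0 : u ≠ 0 := by
      rintro rfl
      have := (Finset.mem_erase.1 hu).2
      simp at this
    exact D_mod' p a b ha (by omega)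
  obtain ⟨t, ht⟩ : ∃ t, (k.divisors.erase 1).card = 2 * t + 1 := by
    obtain ⟨j, hj⟩ := even_card_divisors hk hk1
    have h3 := Finset.card_erase_add_one hmem
    exact ⟨j - 1, by omega⟩
  obtain ⟨y, hy⟩ := hsq
  have h5 : ((s * ∏ u ∈ k.divisors, D a b (1 * u) : ℤ) : ZMod p) = (y : ZMod p) * y := by
    rw [hy]; push_cast; ring
  rw [Int.cast_mul, hprod, ht] at h5
  apply hns
  set V : ZMod p := (-(b : ZMod p)) ^ t * W with hV
  have hV0 : V ≠ 0 := mul_ne_zero (pow_ne_zero _ (neg_ne_zero.2 hb)) hW0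
  refine ⟨(y : ZMod p) / V, ?_⟩
  rw [div_mul_div_comm, eq_div_iff (mul_ne_zero hV0 hV0), ← h5, hV]
  ring

end Pool.Agent.ARL
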