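import Pool.Agent.ARL.Stmts

/-!
Module CHE: primes at which a nonsquare in a number field is a nonsquare, in terms of polynomials.
-/

set_option autoImplicit false

namespace Pool.Agent.ARL

open Polynomial Filter Topology NumberField IsDedekindDomain
open Pool.Agent.Arb (iter level ht cnt crit D)

namespace CHE_

theorem aeval_hom {R S : Type} [CommRing R] [CommRing S] (ψ : R →+* S) (x : R) (P : ℤ[X]) :
    aeval (ψ x) P = ψ (aeval x P) := by
  have h := Polynomial.aeval_algHom_apply ψ.toIntAlgHom x P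
  exact h

theorem bad {K : Type} [Field K] [NumberField K] (P : HeightOneSpectrum (𝓞 K)) (p : ℕ)
    (hp : p.Prime) (hN : Ideal.absNorm P.asIdeal = p) (M h : ℤ[X]) (θ : 𝓞 K)
    (hM : aeval θ M = 0) (hns : ¬ IsSquare (Ideal.Quotient.mk P.asIdeal (aeval θ h))) :
    ∃ x : ZMod p, aeval x M = 0 ∧ ¬ IsSquare (aeval x h) := by
  have h1 : Nat.card (𝓞 K ⧸ P.asIdeal) = p := by
    rw [← hN]
    exact (Submodule.cardQuot_apply P.asIdeal).symm
  have hfin : Finite (𝓞 K ⧸ P.asIdeal) := Nat.finite_of_card_ne_zero (by rw [h1]; exact hp.ne_zero)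
  let : Fintype (𝓞 K ⧸ P.asIdeal) := Fintype.ofFinite _
  have h2 : Fintype.card (𝓞 K ⧸ P.asIdeal) = p := by rw [← Nat.card_eq_fintype_card, h1]
  let e : ZMod p ≃+* (𝓞 K ⧸ P.asIdeal) := ZMod.ringEquivOfPrime _ hp h2
  refine ⟨e.symm (Ideal.Quotient.mk P.asIdeal θ), ?_, ?_⟩
  · have h3 := aeval_hom ((e.symm : (𝓞 K ⧸ P.asIdeal) →+* ZMod p).comp
      (Ideal.Quotient.mk P.asIdeal)) θ M
    rw [hM, map_zero] at h3
    exact h3
  · have h3 := aeval_hom ((e.symm : (𝓞 K ⧸ P.asIdeal) →+* ZMod p).comp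
      (Ideal.Quotient.mk P.asIdeal)) θ h
    intro hs
    apply hns
    have h4 : IsSquare (e.symm (Ideal.Quotient.mk P.asIdeal (aeval θ h))) := by
      have h5 : aeval (e.symm (Ideal.Quotient.mk P.asIdeal θ)) h =
        e.symm (Ideal.Quotient.mk P.asIdeal (aeval θ h)) := h3
      rw [← h5]
      exact hs
    have h6 := h4.map e
    simpa using h6

end CHE_

open CHE_ in
theorem che_proof (hFIB : Stmt_FIB) (hCMP : Stmt_CMP) : Stmt_CHE := by
  classical
  intro M h hM hirr hns hsum
  have : Fact (Irreducible (M.map (Int.castRingHom ℚ))) := ⟨hirr⟩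
  let K : Type := AdjoinRoot (M.map (Int.castRingHom ℚ))
  have : CharZero K := charZero_of_injective_algebraMap (algebraMap ℚ K).injective
  have : FiniteDimensional ℚ K := (AdjoinRoot.powerBasis hirr.ne_zero).finite
  have : NumberField K := ⟨⟩
  let t : K := AdjoinRoot.root (M.map (Int.castRingHom ℚ))
  have hev : ∀ Q : ℤ[X], aeval t Q = AdjoinRoot.mk (M.map (Int.castRingHom ℚ))
      (Q.map (Int.castRingHom ℚ)) := by
    intro Q
    have h1 : aeval t (Q.map (Int.castRingHom ℚ)) = aeval t Q :=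
      Polynomial.aeval_map_algebraMap ℚ t Q
    rw [← h1]
    exact AdjoinRoot.aeval_eq _
  have ht0 : aeval t M = 0 := by
    rw [hev, AdjoinRoot.mk_self]
  have hint : IsIntegral ℤ t := ⟨M, hM, ht0⟩
  let θ : 𝓞 K := ⟨t, hint⟩
  have hcoe : ∀ Q : ℤ[X], ((aeval θ Q : 𝓞 K) : K) = aeval t Q := by
    intro Q
    exact (aeval_hom (algebraMap (𝓞 K) K) θ Q).symm
  have hθ : aeval θ M = 0 := by
    apply NumberField.RingOfIntegers.coe_injective
    refine (hcoe M).trans ?_
    rw [ht0]
    exact (map_zero _).symm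
  have hβ : ¬ IsSquare ((aeval θ h : 𝓞 K) : K) := by
    rw [hcoe, hev]
    rintro ⟨w, hw⟩
    obtain ⟨g, rfl⟩ := AdjoinRoot.mk_surjective w
    refine hns g ?_
    rw [← AdjoinRoot.mk_eq_zero, map_sub, map_pow, hw]
    ring
  refine hCMP K (aeval θ h) hβ ?_
  set f : ℕ → ℝ := fun p =>
    if p.Prime ∧ ∃ x : ZMod p, aeval x M = 0 ∧ ¬ IsSquare (aeval x h) then (1 : ℝ) / p else 0 with hf
  have hf0 : ∀ n, 0 ≤ f n := by
    intro n
    rw [hf]
    dsimp only
    split_ifs
    · positivity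
    · exact le_rfl
  have hg : Summable fun n : ℕ => f n + 1 / (n : ℝ) ^ 2 :=
    hsum.add (Real.summable_one_div_nat_pow.2 (by norm_num))
  have hg2 := (hFIB K).2 (fun n => f n + 1 / (n : ℝ) ^ 2)
    (fun n => add_nonneg (hf0 n) (by positivity)) hg
  refine Summable.of_nonneg_of_le (fun P => ?_) (fun P => ?_) hg2
  · split_ifs
    · exact le_rfl
    · positivity
  · split_ifs with hsq
    · exact add_nonneg (hf0 _) (by positivity)
    · obtain ⟨hp, hcase⟩ := (hFIB K).1 P
      rcases hcase with hcase | hcase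
      · have hb := bad P _ hp hcase M h θ hθ hsq
        have h1 : f (Ideal.absNorm P.asIdeal).minFac = 1 / ((Ideal.absNorm P.asIdeal).minFac : ℝ) :=
          if_pos ⟨hp, hb⟩
        rw [h1, ← hcase, one_div]
        exact le_add_of_nonneg_right (by positivity)
      · have h1 : ((Ideal.absNorm P.asIdeal : ℕ) : ℝ)⁻¹ ≤
            1 / ((Ideal.absNorm P.asIdeal).minFac : ℝ) ^ 2 := by
          rw [one_div]
          refine inv_anti₀ ?_ ?_
          · have := hp.pos
            positivity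
          · exact_mod_cast hcase
        exact h1.trans (le_add_of_nonneg_left (hf0 _))

end Pool.Agent.ARL
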