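import Pool.Agent.ARL.Stmts
import Pool.Agent.Arb.Val

/-!
# MP_5c2e18_nt, second theorem: module CHI (the critical orbit contains no squares)
-/

set_option autoImplicit false

namespace Pool.Agent.ARL

open Polynomial Filter Topology NumberField IsDedekindDomain
open Pool.Agent.Arb (iter level ht cnt crit D)

namespace CHI_

lemma D_mod (p : ℕ) (a b : ℤ) (h : (a : ZMod p) = -2 * (b : ZMod p)) (k : ℕ) :
    ((D a b (k + 2) : ℤ) : ZMod p) = -(b : ZMod p) ^ (2 ^ (k + 1) - 1) := by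
  induction k with
  | zero =>
    have h1 : D a b (0 + 2) = a * (D a b 1) ^ 2 + b ^ (2 ^ 1 - 1) := rfl
    rw [h1, Pool.Agent.Arb.ValAux.D_one]
    push_cast
    rw [h]
    norm_num
    ring
  | succ k ih =>
    have h1 : D a b (k + 1 + 2) = a * (D a b (k + 2)) ^ 2 + b ^ (2 ^ (k + 2) - 1) := rfl
    rw [h1]
    push_cast
    rw [ih, h]
    have h2 : (b : ZMod p) ^ (2 ^ (k + 2) - 1) =
        (b : ZMod p) * ((b : ZMod p) ^ (2 ^ (k + 1) - 1)) ^ 2 := by
      rw [← pow_mul, ← pow_succ']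
      congr 1
      have h3 := Nat.one_le_two_pow (n := k + 1)
      have h4 : 2 ^ (k + 2) = 2 * 2 ^ (k + 1) := by ring
      omega
    have h5 : k + 1 + 1 = k + 2 := rfl
    rw [h5, h2]
    ring

/-- a rational square which is an integer is the square of an integer -/
lemma sq_int {z : ℤ} (h : IsSquare (z : ℚ)) : IsSquare z := Rat.isSquare_intCast_iff.mp h

end CHI_

theorem chi_proof : Stmt_CHI := by
  intro c hc m hm hsq
  obtain ⟨p, hp, hb, ha, h2⟩ := hc
  have : Fact p.Prime := ⟨hp⟩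
  have hbQ : (c.den : ℚ) ≠ 0 := by exact_mod_cast c.den_ne_zero
  obtain ⟨k, rfl⟩ : ∃ k, m = k + 1 := ⟨m - 1, by omega⟩
  rcases Nat.eq_zero_or_pos k with hk | hk
  · -- m = 1
    subst hk
    simp only [zero_add, crit, if_true] at hsq
    obtain ⟨r, hr⟩ := hsq
    have h3 : IsSquare (((-(c.num * c.den) : ℤ)) : ℚ) := by
      refine ⟨r * c.den, ?_⟩
      have h4 : c * c.den = c.num := Rat.mul_den_eq_num c
      push_cast
      calc -((c.num : ℚ) * c.den) = -c * (c.den * c.den) := by rw [← h4]; ring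
        _ = r * c.den * (r * c.den) := by rw [hr]; ring
    obtain ⟨t, ht⟩ := CHI_.sq_int h3
    have h5 : ((-(c.num * c.den) : ℤ) : ZMod p) = (t : ZMod p) * t := by
      rw [ht]; push_cast; ring
    push_cast at h5
    push_cast at hb ha
    rw [ha] at h5
    apply h2
    refine ⟨(t : ZMod p) / (c.den : ZMod p), ?_⟩
    field_simp
    linear_combination h5
  · obtain ⟨j, rfl⟩ : ∃ j, k = j + 1 := ⟨k - 1, by omega⟩
    have hne : j + 1 + 1 ≠ 1 := by omega
    simp only [crit, if_neg hne] at hsq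
    rw [Pool.Agent.Arb.ValAux.orbit_eq] at hsq
    obtain ⟨r, hr⟩ := hsq
    have hpow : (c.den : ℚ) ^ (2 ^ (j + 1)) = (c.den : ℚ) ^ (2 ^ j) * (c.den : ℚ) ^ (2 ^ j) := by
      rw [← pow_add]; congr 1; ring
    have h3 : IsSquare (((c.num * D c.num c.den (j + 1 + 1) : ℤ)) : ℚ) := by
      refine ⟨r * (c.den : ℚ) ^ (2 ^ j), ?_⟩
      have h4 : (c.den : ℚ) ^ (2 ^ (j + 1)) ≠ 0 := pow_ne_zero _ hbQ
      rw [div_eq_iff h4] at hr
      push_cast
      rw [hr, hpow]
      ring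
    obtain ⟨t, ht⟩ := CHI_.sq_int h3
    have h5 : ((c.num * D c.num c.den (j + 1 + 1) : ℤ) : ZMod p) = (t : ZMod p) * t := by
      rw [ht]; push_cast; ring
    rw [Int.cast_mul, CHI_.D_mod p c.num c.den ha j, ha] at h5
    apply h2
    have hbj : (((c.den : ℤ) : ZMod p)) ^ (2 ^ j) ≠ 0 := pow_ne_zero _ hb
    have h6 : (((c.den : ℤ) : ZMod p)) * (((c.den : ℤ) : ZMod p)) ^ (2 ^ (j + 1) - 1) =
        (((c.den : ℤ) : ZMod p)) ^ (2 ^ j) * (((c.den : ℤ) : ZMod p)) ^ (2 ^ j) := by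
      rw [← pow_succ', ← pow_add]
      congr 1
      have h7 := Nat.one_le_two_pow (n := j + 1)
      have h8 : 2 ^ (j + 1) = 2 ^ j + 2 ^ j := by ring
      omega
    refine ⟨(t : ZMod p) / (((c.den : ℤ) : ZMod p)) ^ (2 ^ j), ?_⟩
    rw [div_mul_div_comm, eq_div_iff (mul_ne_zero hbj hbj), ← h6]
    linear_combination h5

end Pool.Agent.ARL
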