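import Pool.Agent.ARL.Stmts
import Pool.Agent.Arb.Basic

/-!
# Squad ARL, module CHR
-/

set_option autoImplicit false

namespace Pool.Agent.ARL

open Polynomial Filter Topology NumberField IsDedekindDomain
open Pool.Agent.Arb (iter level ht cnt crit D)

namespace CHR_

variable {p : ℕ}

lemma d_succ (x : ZMod p) (m : ℕ) :
    aeval x (Dp (m + 1)) = x * (aeval x (Dp m)) ^ 2 + 1 := by
  simp [Dp]

lemma D_cast {a b : ℤ} {x : ZMod p} (h : (a : ZMod p) = x * (b : ZMod p)) (m : ℕ) :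
    ((D a b (m + 1) : ℤ) : ZMod p) = (b : ZMod p) ^ (2 ^ m - 1) * aeval x (Dp (m + 1)) := by
  induction m with
  | zero =>
      rw [d_succ]
      simp [Dp]
  | succ m ih =>
      rw [Pool.Agent.Arb.D_succ, d_succ]
      push_cast
      rw [ih, h]
      have h1 : 2 ^ (m + 1) - 1 = 2 * (2 ^ m - 1) + 1 := by
        have := Nat.one_le_two_pow (n := m)
        rw [pow_succ]
        omega
      have h2 : (b : ZMod p) ^ (2 * (2 ^ m - 1) + 1) = ((b : ZMod p) ^ (2 ^ m - 1)) ^ 2 * b := by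
        rw [pow_succ, mul_comm 2 (2 ^ m - 1), pow_mul]
      rw [h1, h2]
      ring

/-- one factor -/
lemma D_factor {a b : ℤ} {x : ZMod p} (h : (a : ZMod p) = x * (b : ZMod p)) (m : ℕ)
    (hm : 2 ≤ m) : ((D a b m : ℤ) : ZMod p) =
      (b : ZMod p) * ((b : ZMod p) ^ (2 ^ (m - 2) - 1)) ^ 2 * aeval x (Dp m) := by
  obtain ⟨j, rfl⟩ : ∃ j, m = j + 2 := ⟨m - 2, by omega⟩
  rw [D_cast h (j + 1)]
  have h1 : 2 ^ (j + 1) - 1 = 2 * (2 ^ j - 1) + 1 := by
    have := Nat.one_le_two_pow (n := j)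
    rw [pow_succ]
    omega
  have h2 : (b : ZMod p) ^ (2 * (2 ^ j - 1) + 1) = ((b : ZMod p) ^ (2 ^ j - 1)) ^ 2 * b := by
    rw [pow_succ, mul_comm 2 (2 ^ j - 1), pow_mul]
  rw [h1, h2]
  simp only [Nat.add_sub_cancel]
  ring

end CHR_

open CHR_ in
theorem chr_proof : Stmt_CHR := by
  intro p _ a b s r x hr hb ha hN hns k hk hk1 hsq
  set d : ℕ → ZMod p := fun m => aeval x (Dp m) with hd
  have hds : ∀ m, d (m + 1) = x * d m ^ 2 + 1 := fun m => d_succ x m
  have h2 : d (r + 2) = -d (r + 1) := by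
    have h : d (r + 1) + d (r + 2) = 0 := by
      have := hN
      rw [Np, map_add] at this
      exact this
    linear_combination h
  have hconst : ∀ j, d (r + 2 + j) = d (r + 2) := by
    intro j
    induction j with
    | zero => rfl
    | succ j ih =>
        have h3 : d (r + 2 + (j + 1)) = x * d (r + 2 + j) ^ 2 + 1 := hds (r + 2 + j)
        rw [h3, ih]
        have h4 : d (r + 2) = x * d (r + 1) ^ 2 + 1 := hds (r + 1)
        have h5 : d (r + 1) ^ 2 = d (r + 2) ^ 2 := by rw [h2]; ring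
        rw [← h5, ← h4]
  have hδ : d (r + 2) ≠ 0 := by
    intro h0
    have h1 := hconst 1
    have h3 : d (r + 2 + 1) = x * d (r + 2) ^ 2 + 1 := hds (r + 2)
    rw [h1, h0] at h3
    simp at h3
  -- the product
  have hfac : ∀ u ∈ k.divisors, ((D a b (r * u) : ℤ) : ZMod p) =
      (b : ZMod p) * ((b : ZMod p) ^ (2 ^ (r * u - 2) - 1)) ^ 2 * d (r * u) := by
    intro u hu
    have hu1 : 1 ≤ u := Nat.pos_of_mem_divisors hu
    exact D_factor ha (r * u) (by nlinarith)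
  have h1mem : 1 ∈ k.divisors := Nat.one_mem_divisors.2 (by omega)
  have hprod : ∏ u ∈ k.divisors, d (r * u) = d r * d (r + 2) ^ (k.divisors.card - 1) := by
    rw [← Finset.mul_prod_erase _ _ h1mem, mul_one]
    congr 1
    rw [Finset.prod_congr rfl (g := fun _ => d (r + 2)), Finset.prod_const,
      Finset.card_erase_of_mem h1mem]
    intro u hu
    rw [Finset.mem_erase] at hu
    have hu1 : 1 ≤ u := Nat.pos_of_mem_divisors hu.2
    have hu2 : 2 ≤ u := by
      rcases hu with ⟨h, -⟩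
      omega
    obtain ⟨j, hj⟩ : ∃ j, r * u = r + 2 + j := ⟨r * u - (r + 2), by
      have : r + 2 ≤ r * u := by nlinarith
      omega⟩
    rw [hj, hconst j]
  obtain ⟨h, hh⟩ := Pool.Agent.Arb.even_card_divisors hk hk1
  have hcard : 1 ≤ k.divisors.card := Finset.card_pos.2 ⟨1, h1mem⟩
  have hh1 : 1 ≤ h := by omega
  set E : ZMod p := ∏ u ∈ k.divisors, (b : ZMod p) ^ (2 ^ (r * u - 2) - 1) with hE
  have hE0 : E ≠ 0 := Finset.prod_ne_zero_iff.2 fun u _ => pow_ne_zero _ hb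
  have hP : ((∏ u ∈ k.divisors, D a b (r * u) : ℤ) : ZMod p) =
      ((b : ZMod p) ^ h * E * d (r + 2) ^ (h - 1)) ^ 2 * (d r * d (r + 2)) := by
    rw [Int.cast_prod, Finset.prod_congr rfl hfac, Finset.prod_mul_distrib,
      Finset.prod_mul_distrib, Finset.prod_const, hprod, Finset.prod_pow, hh]
    have h6 : h + h - 1 = 2 * (h - 1) + 1 := by omega
    rw [h6, ← hE]
    ring
  obtain ⟨y, hy⟩ := hsq
  have hy' : (-(s : ZMod p)) * (((b : ZMod p) ^ h * E * d (r + 2) ^ (h - 1)) ^ 2 *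
      (d r * d (r + 2))) = (y : ZMod p) * (y : ZMod p) := by
    rw [← hP]
    exact_mod_cast congrArg (fun z : ℤ => (z : ZMod p)) hy
  set S : ZMod p := (b : ZMod p) ^ h * E * d (r + 2) ^ (h - 1) with hS
  have hS0 : S ≠ 0 := mul_ne_zero (mul_ne_zero (pow_ne_zero _ hb) hE0) (pow_ne_zero _ hδ)
  apply hns
  refine ⟨(y : ZMod p) / S, ?_⟩
  have h7 : aeval x (C s * Dp r * Dp (r + 1)) = (s : ZMod p) * d r * d (r + 1) := by
    simp [hd]
  rw [h7, div_mul_div_comm, ← hy', eq_div_iff (mul_ne_zero hS0 hS0), h2]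
  ring

end Pool.Agent.ARL
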