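import Pool.Agent.ARL.Stmts

/-!
# Squad ARL (MP_5c2e18_nt), module CMP: infinitely many primes modulo which an element is a
nonsquare, in the strong form `∑ 1 / N P = ∞`
-/

set_option autoImplicit false

namespace Pool.Agent.ARL

open Polynomial Filter Topology NumberField IsDedekindDomain
open Pool.Agent.Arb (iter level ht cnt crit D)

namespace CMP_

section elem

theorem inv_one_sub_le {x : ℝ} (h0 : 0 ≤ x) (h1 : x ≤ 1 / 2) : (1 - x)⁻¹ ≤ Real.exp (2 * x) := by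
  have h2 : (0 : ℝ) < 1 - x := by linarith
  have h3 : (1 - x)⁻¹ ≤ 1 + 2 * x := by
    rw [inv_le_iff_one_le_mul₀ h2]
    nlinarith
  have h4 := Real.add_one_le_exp (2 * x)
  linarith

theorem good_bound {x : ℝ} (h0 : 0 ≤ x) (h1 : x ≤ 1 / 2) :
    ((1 - x)⁻¹) ^ 2 ≤ (1 + x) ^ 2 * Real.exp (4 * x ^ 2) := by
  have hx2 : x ^ 2 ≤ 1 / 2 := by nlinarith
  have h2 : (0 : ℝ) < 1 - x := by linarith
  have h3 : (0 : ℝ) < 1 - x ^ 2 := by nlinarith
  have h4 : (1 - x)⁻¹ = (1 + x) * (1 - x ^ 2)⁻¹ := by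
    have h5 : 1 - x ^ 2 = (1 - x) * (1 + x) := by ring
    rw [h5, mul_inv]
    have h6 : (1 + x) ≠ 0 := by linarith
    field_simp
  have h7 := inv_one_sub_le (sq_nonneg x) hx2
  rw [h4, mul_pow]
  have h8 : ((1 - x ^ 2)⁻¹) ^ 2 ≤ Real.exp (4 * x ^ 2) := by
    calc ((1 - x ^ 2)⁻¹) ^ 2 ≤ (Real.exp (2 * x ^ 2)) ^ 2 :=
          pow_le_pow_left₀ (inv_nonneg.2 h3.le) h7 2
      _ = Real.exp (4 * x ^ 2) := by
          rw [← Real.exp_nat_mul]
          congr 1
          push_cast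
          ring
  exact mul_le_mul_of_nonneg_left h8 (sq_nonneg _)

theorem bad_bound {x : ℝ} (h0 : 0 ≤ x) (h1 : x ≤ 1 / 2) :
    ((1 - x)⁻¹) ^ 2 ≤ Real.exp (4 * x) := by
  have h2 : (0 : ℝ) < 1 - x := by linarith
  calc ((1 - x)⁻¹) ^ 2 ≤ (Real.exp (2 * x)) ^ 2 :=
        pow_le_pow_left₀ (inv_nonneg.2 h2.le) (inv_one_sub_le h0 h1) 2
    _ = Real.exp (4 * x) := by
        rw [← Real.exp_nat_mul]
        congr 1
        push_cast
        ring

end elem

section field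

variable {K : Type} [Field K] [NumberField K]

/-- `N P ^ (-s)` -/
noncomputable def xx (s : ℝ) (P : HeightOneSpectrum (𝓞 K)) : ℝ :=
  (Ideal.absNorm P.asIdeal : ℝ) ^ (-s)

theorem two_le (P : HeightOneSpectrum (𝓞 K)) : (2 : ℝ) ≤ (Ideal.absNorm P.asIdeal : ℝ) := by
  have h := NumberField.HeightOneSpectrum.one_lt_absNorm P
  exact_mod_cast h

theorem xx_nonneg (s : ℝ) (P : HeightOneSpectrum (𝓞 K)) : 0 ≤ xx s P :=
  Real.rpow_nonneg (Nat.cast_nonneg _) _

theorem xx_mono {s t : ℝ} (h : t ≤ s) (P : HeightOneSpectrum (𝓞 K)) : xx s P ≤ xx t P := by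
  refine Real.rpow_le_rpow_of_exponent_le ?_ (neg_le_neg h)
  linarith [two_le P]

theorem xx_one (P : HeightOneSpectrum (𝓞 K)) : xx 1 P = (Ideal.absNorm P.asIdeal : ℝ)⁻¹ := by
  rw [xx, Real.rpow_neg_one]

theorem xx_one_le (P : HeightOneSpectrum (𝓞 K)) : xx 1 P ≤ 1 / 2 := by
  rw [xx_one, one_div]
  exact inv_anti₀ (by norm_num) (two_le P)

theorem xx_sq_le {s : ℝ} (h : 1 < s) (P : HeightOneSpectrum (𝓞 K)) : xx s P ^ 2 ≤ xx 2 P := by
  have h1 : xx s P ^ 2 ≤ xx 1 P ^ 2 := pow_le_pow_left₀ (xx_nonneg s P) (xx_mono h.le P) 2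
  refine h1.trans (le_of_eq ?_)
  rw [xx_one, xx]
  have h2 : (-2 : ℝ) = ((-2 : ℤ) : ℝ) := by norm_num
  rw [h2, Real.rpow_intCast, zpow_neg, inv_pow]
  norm_num

/-- the product bound -/
theorem prod_bound (A B : ℝ) (u : HeightOneSpectrum (𝓞 K) → ℝ) (T : HeightOneSpectrum (𝓞 K) → Prop)
    [DecidablePred T] (hu0 : ∀ P, 0 ≤ u P) (hu : ∀ P, ¬ T P → xx 1 P ≤ u P)
    (hA : ∀ S : Finset (HeightOneSpectrum (𝓞 K)), ∑ P ∈ S, u P ≤ A)
    (hB : ∀ S : Finset (HeightOneSpectrum (𝓞 K)), ∑ P ∈ S, xx 2 P ≤ B)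
    {s : ℝ} (hs : 1 < s) (S : Finset (HeightOneSpectrum (𝓞 K))) :
    (∏ P ∈ S, (1 - xx s P)⁻¹) ^ 2 ≤
      (∏ P ∈ S.filter T, (1 + xx s P) ^ 2) * Real.exp (4 * B + 4 * A) := by
  have hpt : ∀ P ∈ S, ((1 - xx s P)⁻¹) ^ 2 ≤
      (if T P then (1 + xx s P) ^ 2 else 1) * Real.exp (4 * xx 2 P + 4 * u P) := by
    intro P _
    have h0 := xx_nonneg s P
    have h1 : xx s P ≤ 1 / 2 := (xx_mono hs.le P).trans (xx_one_le P)
    by_cases hT : T P
    · rw [if_pos hT]
      refine (good_bound h0 h1).trans (mul_le_mul_of_nonneg_left ?_ (sq_nonneg _))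
      refine Real.exp_le_exp.2 ?_
      have := xx_sq_le hs P
      have := hu0 P
      linarith
    · rw [if_neg hT, one_mul]
      refine (bad_bound h0 h1).trans (Real.exp_le_exp.2 ?_)
      have h2 := hu P hT
      have h3 := xx_mono hs.le P
      have h4 := xx_nonneg 2 P
      linarith
  rw [← Finset.prod_pow]
  calc ∏ P ∈ S, ((1 - xx s P)⁻¹) ^ 2
      ≤ ∏ P ∈ S, ((if T P then (1 + xx s P) ^ 2 else 1) * Real.exp (4 * xx 2 P + 4 * u P)) :=
        Finset.prod_le_prod (fun P _ => sq_nonneg _) hpt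
    _ = (∏ P ∈ S.filter T, (1 + xx s P) ^ 2) *
          Real.exp (∑ P ∈ S, (4 * xx 2 P + 4 * u P)) := by
        rw [Finset.prod_mul_distrib, Finset.prod_filter, Real.exp_sum]
    _ ≤ (∏ P ∈ S.filter T, (1 + xx s P) ^ 2) * Real.exp (4 * B + 4 * A) := by
        refine mul_le_mul_of_nonneg_left (Real.exp_le_exp.2 ?_)
          (Finset.prod_nonneg fun P _ => sq_nonneg _)
        rw [Finset.sum_add_distrib, ← Finset.mul_sum, ← Finset.mul_sum]
        have := hA S
        have := hB S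
        linarith

/-- the ideal of a prime, as a nonzero ideal -/
def inc (P : HeightOneSpectrum (𝓞 K)) : {I : Ideal (𝓞 K) // I ≠ ⊥} := ⟨P.asIdeal, P.ne_bot⟩

omit [NumberField K] in
theorem inc_inj : Function.Injective (inc (K := K)) := by
  intro P Q hPQ
  exact HeightOneSpectrum.ext (congrArg Subtype.val hPQ)

theorem summable_primes (hZSU : Stmt_ZSU) :
    Summable (fun P : HeightOneSpectrum (𝓞 K) => xx 2 P) := by
  have h := (hZSU K).1 2 (by norm_num)
  have h2 := h.comp_injective (inc_inj (K := K))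
  refine h2.congr ?_
  intro P
  rfl

end field

end CMP_

open scoped Classical in
theorem cmp_proof (hZSU : Stmt_ZSU) (hEUP : Stmt_EUP) (hEUL : Stmt_EUL) (hSPL : Stmt_SPL) :
    Stmt_CMP := by
  intro K _ _ β hβ hsum
  obtain ⟨L, _, _, q, hq1, hq2⟩ := hSPL K β hβ
  have hβ0 : β ≠ 0 := by
    rintro rfl
    exact hβ ⟨0, by simp⟩
  have h2β : (2 * β : 𝓞 K) ≠ 0 := mul_ne_zero two_ne_zero hβ0
  -- the set of bad primes
  set T : HeightOneSpectrum (𝓞 K) → Prop := fun P =>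
    2 * β ∉ P.asIdeal ∧ IsSquare (Ideal.Quotient.mk P.asIdeal β) with hT
  set f : HeightOneSpectrum (𝓞 K) → ℝ := fun P =>
    if IsSquare (Ideal.Quotient.mk P.asIdeal β) then (0 : ℝ)
    else (Ideal.absNorm P.asIdeal : ℝ)⁻¹ with hf
  set g : HeightOneSpectrum (𝓞 K) → ℝ := fun P => if 2 * β ∈ P.asIdeal then (1 : ℝ) else 0 with hg
  have hf0 : ∀ P, 0 ≤ f P := by
    intro P
    simp only [hf]
    split_ifs
    · exact le_rfl
    · positivity
  have hg0 : ∀ P, 0 ≤ g P := by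
    intro P
    simp only [hg]
    split_ifs <;> norm_num
  have hfin : {P : HeightOneSpectrum (𝓞 K) | 2 * β ∈ P.asIdeal}.Finite := by
    have h := Ideal.finite_factors (R := 𝓞 K) (I := Ideal.span {2 * β}) (by
      rw [Ne, Ideal.zero_eq_bot, Ideal.span_singleton_eq_bot]
      exact h2β)
    refine h.subset ?_
    intro P hP
    exact Ideal.dvd_span_singleton.2 hP
  have hgs : Summable g := by
    refine summable_of_ne_finset_zero (s := hfin.toFinset) ?_
    intro P hP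
    rw [Set.Finite.mem_toFinset] at hP
    exact if_neg hP
  have hus : Summable (fun P => f P + g P) := hsum.add hgs
  have hu0 : ∀ P, 0 ≤ f P + g P := fun P => add_nonneg (hf0 P) (hg0 P)
  have hu : ∀ P, ¬ T P → CMP_.xx 1 P ≤ f P + g P := by
    intro P hP
    by_cases h1 : 2 * β ∈ P.asIdeal
    · have h2 : g P = 1 := if_pos h1
      have h3 := CMP_.xx_one_le P
      have h4 := hf0 P
      linarith
    · have h2 : ¬ IsSquare (Ideal.Quotient.mk P.asIdeal β) := fun h => hP ⟨h1, h⟩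
      have h3 : f P = (Ideal.absNorm P.asIdeal : ℝ)⁻¹ := if_neg h2
      rw [h3, CMP_.xx_one]
      have := hg0 P
      linarith
  have hxs := CMP_.summable_primes (K := K) hZSU
  set A : ℝ := ∑' P, (f P + g P) with hA
  set B : ℝ := ∑' P, CMP_.xx (K := K) 2 P with hB
  have hA' : ∀ S : Finset (HeightOneSpectrum (𝓞 K)), ∑ P ∈ S, (f P + g P) ≤ A := fun S =>
    hus.sum_le_tsum S fun P _ => hu0 P
  have hB' : ∀ S : Finset (HeightOneSpectrum (𝓞 K)), ∑ P ∈ S, CMP_.xx 2 P ≤ B := fun S =>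
    hxs.sum_le_tsum S fun P _ => CMP_.xx_nonneg 2 P
  set C0 : ℝ := Real.exp (4 * B + 4 * A) with hC0
  have hC0pos : 0 < C0 := Real.exp_pos _
  -- the main inequality
  have hLone : ∀ s : ℝ, 1 < s → 1 ≤ zs L s := by
    intro s hs
    have h := hEUP L s hs ∅
    simpa using h
  have key : ∀ s : ℝ, 1 < s → (zs K s) ^ 2 ≤ C0 * zs L s := by
    intro s hs
    have hprod : ∀ S : Finset (HeightOneSpectrum (𝓞 K)),
        (∏ P ∈ S, (1 - CMP_.xx s P)⁻¹) ^ 2 ≤ C0 * zs L s := by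
      intro S
      refine (CMP_.prod_bound A B (fun P => f P + g P) T hu0 hu hA' hB' hs S).trans ?_
      rw [mul_comm]
      refine mul_le_mul_of_nonneg_left ?_ hC0pos.le
      have h1 := hEUP L s hs (((S.filter T) ×ˢ (Finset.univ : Finset Bool)).image
        fun x => q x.1 x.2)
      refine le_trans (le_of_eq ?_) h1
      rw [Finset.prod_image]
      · rw [Finset.prod_product]
        refine Finset.prod_congr rfl fun P hP => ?_
        have hP' := (Finset.mem_filter.1 hP).2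
        rw [Fintype.prod_bool]
        simp only [hq1 P hP'.1 hP'.2]
        rw [sq]
        rfl
      · rintro ⟨P, i⟩ hP ⟨P', i'⟩ hP' h
        have h2 := (Finset.mem_filter.1 (Finset.mem_product.1 hP).1).2
        have h3 := (Finset.mem_filter.1 (Finset.mem_product.1 hP').1).2
        obtain ⟨h4, h5⟩ := hq2 P P' i i' h2.1 h2.2 h3.1 h3.2 h
        rw [h4, h5]
    have hnn : 0 ≤ C0 * zs L s := mul_nonneg hC0pos.le (zero_le_one.trans (hLone s hs))
    have h2 := hEUL K s (Real.sqrt (C0 * zs L s)) hs (fun S => Real.le_sqrt_of_sq_le (hprod S))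
    have h3 : 0 ≤ zs K s := by
      have h := hEUP K s hs ∅
      simp only [Finset.prod_empty] at h
      linarith
    calc (zs K s) ^ 2 ≤ (Real.sqrt (C0 * zs L s)) ^ 2 := pow_le_pow_left₀ h3 h2 2
      _ = C0 * zs L s := Real.sq_sqrt hnn
  -- the limit
  have hK := (hZSU K).2
  have hL := (hZSU L).2
  have h1 : Tendsto (fun s : ℝ => ((s - 1) * zs K s) ^ 2) (𝓝[>] 1)
      (𝓝 ((dedekindZeta_residue K) ^ 2)) := hK.pow 2
  have h2 : Tendsto (fun s : ℝ => C0 * ((s - 1) * ((s - 1) * zs L s))) (𝓝[>] 1)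
      (𝓝 (C0 * (0 * dedekindZeta_residue L))) := by
    refine (Tendsto.mul ?_ hL).const_mul C0
    have h3 : Tendsto (fun s : ℝ => s - 1) (𝓝 1) (𝓝 (1 - 1)) := tendsto_id.sub_const 1
    rw [sub_self] at h3
    exact h3.mono_left nhdsWithin_le_nhds
  have h3 : (dedekindZeta_residue K) ^ 2 ≤ C0 * (0 * dedekindZeta_residue L) := by
    refine le_of_tendsto_of_tendsto h1 h2 ?_
    filter_upwards [self_mem_nhdsWithin] with s hs
    have hs' : 1 < s := hs
    have h4 := key s hs'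
    have h5 : 0 ≤ (s - 1) ^ 2 := sq_nonneg _
    calc ((s - 1) * zs K s) ^ 2 = (s - 1) ^ 2 * (zs K s) ^ 2 := by ring
      _ ≤ (s - 1) ^ 2 * (C0 * zs L s) := mul_le_mul_of_nonneg_left h4 h5
      _ = C0 * ((s - 1) * ((s - 1) * zs L s)) := by ring
  have h4 := dedekindZeta_residue_pos K
  rw [zero_mul, mul_zero] at h3
  have h5 : 0 < (dedekindZeta_residue K) ^ 2 := by positivity
  linarith

end Pool.Agent.ARL
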