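import Pool.Agent.ARL.Stmts

/-!
# Squad ARL, module COR
-/

set_option autoImplicit false

namespace Pool.Agent.ARL

open Polynomial Filter Topology NumberField IsDedekindDomain
open Pool.Agent.Arb (iter level ht cnt crit D)

namespace COR_

lemma iter_ne (c : ℚ) (n : ℕ) : (iter c n).Monic ∧ 0 < (iter c n).natDegree := by
  induction n with
  | zero => exact ⟨monic_X, by simp [iter]⟩
  | succ n ih =>
      have h1 : ((iter c n) ^ 2).Monic := ih.1.pow 2
      have h2 : 0 < ((iter c n) ^ 2).natDegree := by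
        rw [ih.1.natDegree_pow]
        omega
      have h3 : (C c : ℚ[X]).degree < ((iter c n) ^ 2).degree := by
        refine lt_of_le_of_lt degree_C_le ?_
        exact natDegree_pos_iff_degree_pos.1 h2
      refine ⟨?_, ?_⟩
      · exact h1.add_of_left h3
      · show 0 < ((iter c n) ^ 2 + C c).natDegree
        rw [natDegree_add_C]
        exact h2

lemma finite_level (c : ℚ) (n : ℕ) : (level c n).Finite := by
  have h := ((iter c n).rootSet (AlgebraicClosure ℚ)).toFinite
  refine h.subset fun x hx => ?_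
  rw [mem_rootSet]
  exact ⟨(iter_ne c n).1.ne_zero, hx⟩

lemma finrank_pos (c : ℚ) (n : ℕ) : 0 < Module.finrank ℚ (KK c n) := by
  have : Finite (level c n) := (finite_level c n).to_subtype
  have : FiniteDimensional ℚ (KK c n) :=
    IntermediateField.finiteDimensional_adjoin fun x hx =>
      ⟨iter c n, (iter_ne c n).1, hx⟩
  exact Module.finrank_pos

lemma tower (c : ℚ) (m : ℕ) (j : ℕ) (h : ∀ i, m < i → i ≤ m + j → MaxLevel c i) :
    Module.finrank ℚ (KK c (m + j)) = 2 ^ (2 ^ (m + j) - 2 ^ m) * Module.finrank ℚ (KK c m) := by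
  induction j with
  | zero => simp
  | succ j ih =>
      have h1 := h (m + (j + 1)) (by omega) le_rfl
      have h2 := ih fun i hi hi' => h i hi (by omega)
      unfold MaxLevel at h1
      have h3 : m + (j + 1) - 1 = m + j := by omega
      rw [h3] at h1
      have h4 : 2 ^ m ≤ 2 ^ (m + j) := Nat.pow_le_pow_right (by norm_num) (by omega)
      have h5 : 2 ^ (m + (j + 1)) = 2 ^ (m + j) + 2 ^ (m + j) := by
        rw [← add_assoc, pow_succ]
        ring
      have h6 : 2 ^ (m + (j + 1)) - 2 ^ m = 2 ^ (m + j) + (2 ^ (m + j) - 2 ^ m) := by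
        rw [h5]
        exact Nat.add_sub_assoc h4 _
      rw [h1, h2, ← mul_assoc, ← pow_add, h6]

end COR_

open COR_ in
theorem cor_proof (hRAD : Stmt_RAD) : Stmt_COR := by
  intro ε hε
  rcases le_or_gt 1 ε with h1 | h1
  · refine ⟨0, fun c _ X => ?_⟩
    have h2 : (1 - ε) * (X : ℝ) ≤ 0 :=
      mul_nonpos_of_nonpos_of_nonneg (by linarith) (Nat.cast_nonneg X)
    exact h2.trans (Nat.cast_nonneg _)
  obtain ⟨L0, hL0⟩ := exists_pow_lt_of_lt_one hε (by norm_num : (1 / 2 : ℝ) < 1)
  set L := L0 + 1 with hL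
  have hL1 : (0 : ℝ) < L := by rw [hL]; positivity
  have hLε : (1 / 2 : ℝ) ^ L ≤ ε := by
    rw [hL, pow_succ]
    have : (0 : ℝ) ≤ (1 / 2) ^ L0 := by positivity
    linarith
  obtain ⟨R, hR⟩ := hRAD (ε / L) (by positivity)
  refine ⟨R, fun c hc X => ?_⟩
  classical
  set Bd := (Finset.Icc 1 X).filter (fun n => R * rad n < n) with hBd
  set G := (Finset.Icc 1 X).filter (fun N : ℕ =>
      (2 : ℝ) ^ ((1 - ε) * (2 ^ N - 1)) ≤ (Module.finrank ℚ (KK c N) : ℝ)) with hG
  have hgood : ∀ N ∈ Finset.Icc 1 X, (∀ i, N - L < i → i ≤ N → i ∉ Bd) → N ∈ G := by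
    intro N hN hi
    rw [Finset.mem_Icc] at hN
    rw [hG, Finset.mem_filter, Finset.mem_Icc]
    refine ⟨hN, ?_⟩
    have hml : ∀ i, N - L < i → i ≤ N - L + (N - (N - L)) → MaxLevel c i := by
      intro i h2 h3
      have h4 : i ≤ N := by omega
      have h5 := hi i h2 h4
      rw [hBd, Finset.mem_filter, Finset.mem_Icc] at h5
      apply hc i (by omega)
      by_contra h6
      exact h5 ⟨⟨by omega, by omega⟩, by omega⟩
    have ht := tower c (N - L) (N - (N - L)) hml
    have h7 : N - L + (N - (N - L)) = N := by omega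
    rw [h7] at ht
    have hpos := finrank_pos c (N - L)
    have h8 : (2 : ℝ) ^ ((2 : ℕ) ^ N - 2 ^ (N - L)) ≤ (Module.finrank ℚ (KK c N) : ℝ) := by
      rw [ht, Nat.cast_mul, Nat.cast_pow, Nat.cast_ofNat]
      have h9 : (1 : ℝ) ≤ (Module.finrank ℚ (KK c (N - L)) : ℝ) := by exact_mod_cast hpos
      exact le_mul_of_one_le_right (by positivity) h9
    refine le_trans ?_ h8
    rw [← Real.rpow_natCast (2 : ℝ) ((2 : ℕ) ^ N - 2 ^ (N - L))]
    refine Real.rpow_le_rpow_of_exponent_le (by norm_num) ?_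
    have h10 : (2 : ℕ) ^ (N - L) ≤ 2 ^ N := Nat.pow_le_pow_right (by norm_num) (by omega)
    rw [Nat.cast_sub h10]
    push_cast
    have h11 : (1 : ℝ) ≤ 2 ^ N := one_le_pow₀ (by norm_num)
    rcases le_or_gt L N with h12 | h12
    · have h13 : (2 : ℝ) ^ (N - L) = 2 ^ N * (1 / 2) ^ L := by
        obtain ⟨j, rfl⟩ := Nat.exists_eq_add_of_le h12
        rw [Nat.add_sub_cancel_left, pow_add]
        have : (2 : ℝ) ^ L * (1 / 2) ^ L = 1 := by rw [← mul_pow]; norm_num
        calc (2 : ℝ) ^ j = 2 ^ j * (2 ^ L * (1 / 2) ^ L) := by rw [this, mul_one]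
          _ = 2 ^ L * 2 ^ j * (1 / 2) ^ L := by ring
      rw [h13]
      have h14 : (2 : ℝ) ^ N * (1 / 2) ^ L ≤ 2 ^ N * ε :=
        mul_le_mul_of_nonneg_left hLε (by positivity)
      nlinarith
    · have h13 : N - L = 0 := by omega
      rw [h13, pow_zero]
      nlinarith
  -- counting
  have hsub : (Finset.Icc 1 X) \ G ⊆ Bd.biUnion (fun i => Finset.Ico i (i + L)) := by
    intro N hN
    rw [Finset.mem_sdiff] at hN
    by_contra h2
    apply hN.2
    apply hgood N hN.1
    intro i h3 h4 h5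
    apply h2
    rw [Finset.mem_biUnion]
    exact ⟨i, h5, by rw [Finset.mem_Ico]; omega⟩
  have hcard : ((Finset.Icc 1 X) \ G).card ≤ Bd.card * L := by
    refine (Finset.card_le_card hsub).trans (Finset.card_biUnion_le_card_mul _ _ _ ?_)
    intro i _
    rw [Nat.card_Ico]
    omega
  have hXG : X ≤ ((Finset.Icc 1 X) \ G).card + G.card := by
    have h2 : (Finset.Icc 1 X).card ≤ ((Finset.Icc 1 X) \ G).card + G.card := by
      exact Finset.card_le_card_sdiff_add_card (t := G) (s := Finset.Icc 1 X)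
    rw [Nat.card_Icc] at h2
    omega
  have h3 : (X : ℝ) ≤ (((Finset.Icc 1 X) \ G).card : ℝ) + (G.card : ℝ) := by exact_mod_cast hXG
  have h4 : (((Finset.Icc 1 X) \ G).card : ℝ) ≤ (Bd.card : ℝ) * L := by exact_mod_cast hcard
  have h5 : (Bd.card : ℝ) ≤ ε / L * X := hR X
  have h6 : (Bd.card : ℝ) * L ≤ ε * X := by
    calc (Bd.card : ℝ) * L ≤ ε / L * X * L := mul_le_mul_of_nonneg_right h5 hL1.le
      _ = ε * X := by field_simp
  have h7 : (1 - ε) * (X : ℝ) ≤ (G.card : ℝ) := by linarith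
  convert h7

end Pool.Agent.ARL
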