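import Pool.Agent.ARL.Stmts

/-!
# MP_5c2e18_nt, ARL: density of the conditions at primes
-/

set_option autoImplicit false

namespace Pool.Agent.ARL

open Polynomial Filter Topology NumberField IsDedekindDomain
open Pool.Agent.Arb (iter level ht cnt crit D)

namespace DEN_

/-- lower bound for a set of pairs on a line -/
lemma ncard_line {p : ℕ} (hp : p.Prime) (x : ZMod p) (A : Set (ZMod p)) (Ω : Set (ZMod p × ZMod p))
    (h : ∀ b ∈ A, (x * b, b) ∈ Ω) : A.ncard ≤ Ω.ncard := by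
  have : Fact p.Prime := ⟨hp⟩
  apply Set.ncard_le_ncard_of_injOn (fun b => (x * b, b)) h
  · intro a _ b _ hab
    exact (Prod.ext_iff.mp hab).2

lemma ncard_ne_zero {p : ℕ} (hp : p.Prime) : ({b : ZMod p | b ≠ 0}).ncard = p - 1 := by
  have : Fact p.Prime := ⟨hp⟩
  have h1 : ({b : ZMod p | b ≠ 0}) = ((Finset.univ.erase (0 : ZMod p) : Finset (ZMod p)) : Set (ZMod p)) := by
    ext b; simp
  rw [h1, Set.ncard_coe_finset, Finset.card_erase_of_mem (Finset.mem_univ _), Finset.card_univ,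
    ZMod.card]

/-- at least a quarter of all residues -/
lemma ncard_nonsq {p : ℕ} (hp : p.Prime) (hp2 : p ≠ 2) (t : ZMod p) (ht : t ≠ 0) :
    p ≤ 4 * ({b : ZMod p | b ≠ 0 ∧ ¬ IsSquare (t * b)}).ncard := by
  classical
  have : Fact p.Prime := ⟨hp⟩
  obtain ⟨u, hu⟩ : ∃ u : ZMod p, ¬ IsSquare u := by
    have h1 : ringChar (ZMod p) ≠ 2 := by
      rw [ZMod.ringChar_zmod_n]; exact hp2
    exact FiniteField.exists_nonsquare h1
  have hu0 : u ≠ 0 := by
    rintro rfl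
    exact hu ⟨0, by simp⟩
  set N : Set (ZMod p) := {b : ZMod p | b ≠ 0 ∧ ¬ IsSquare (t * b)} with hN
  set S : Set (ZMod p) := {b : ZMod p | b ≠ 0 ∧ IsSquare (t * b)} with hS
  have h1 : S.ncard ≤ N.ncard := by
    apply Set.ncard_le_ncard_of_injOn (fun b => u * b)
    · rintro b ⟨hb, y, hy⟩
      refine ⟨mul_ne_zero hu0 hb, ?_⟩
      rintro ⟨z, hz⟩
      apply hu
      have hy0 : y ≠ 0 := by
        rintro rfl
        rw [mul_zero] at hy
        exact (mul_ne_zero ht hb) hy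
      refine ⟨z / y, ?_⟩
      field_simp
      linear_combination (-u) * hy + hz
    · intro a _ b _ hab
      exact mul_left_cancel₀ hu0 hab
  have h2 : ({b : ZMod p | b ≠ 0}) = N ∪ S := by
    ext b
    simp only [hN, hS, Set.mem_ofPred_eq, Set.mem_union]
    tauto
  have h3 : p - 1 ≤ N.ncard + S.ncard := by
    rw [← ncard_ne_zero hp, h2]
    exact Set.ncard_union_le _ _
  have := hp.two_le
  omega

lemma not_summable_odd :
    ¬ Summable (fun p : ℕ => @ite ℝ (p.Prime ∧ p ≠ 2) (Classical.propDecidable _) ((1 : ℝ) / p) 0) := by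
  intro h
  apply not_summable_one_div_on_primes
  have h2 : Summable (fun p : ℕ => if p = 2 then (1 : ℝ) / 2 else 0) :=
    summable_of_ne_finset_zero (s := {2}) (by intro b hb; simp at hb; simp [hb])
  refine (h.add h2).congr ?_
  intro p
  by_cases hp : p.Prime
  · by_cases hp2 : p = 2
    · subst hp2
      simp [Set.indicator, hp]
    · simp [Set.indicator, hp, hp2]
  · have : p ≠ 2 := by rintro rfl; exact hp Nat.prime_two
    simp [Set.indicator, hp, this]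

lemma condI (hCHE : Stmt_CHE) (hSIE : Stmt_SIE) (hINT : Stmt_INT) : DensityOne CondI := by
  classical
  have h1 := hCHE (X + C 2) (C 2) (monic_X_add_C 2)
    (by
      rw [Polynomial.map_add, map_X, map_C]
      exact irreducible_of_degree_eq_one (degree_X_add_C _))
    (by
      intro g hg
      rw [Polynomial.map_add, map_X, map_C] at hg
      obtain ⟨q, hq⟩ := hg
      have h2 := congrArg (eval (-2 : ℚ)) hq
      simp only [eval_sub, eval_C, eval_pow, eval_mul, eval_add, eval_X, eq_intCast,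
        Int.cast_ofNat, neg_add_cancel, zero_mul] at h2
      have h3 : IsSquare (2 : ℚ) := ⟨eval (-2) g, by linear_combination h2⟩
      have h4 : IsSquare (2 : ℤ) := by
        rw [← Rat.isSquare_intCast_iff]
        exact_mod_cast h3
      obtain ⟨z, hz⟩ := h4
      have h5 : z ≤ 1 := by nlinarith
      have h6 : -1 ≤ z := by nlinarith
      interval_cases z <;> omega)
  have h2 := hSIE (fun p => p.Prime ∧ ∃ x : ZMod p, aeval x (X + C (2 : ℤ)) = 0 ∧
      ¬ IsSquare (aeval x (C (2 : ℤ) : ℤ[X])))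
    (fun p => {w | w.2 ≠ 0 ∧ w.1 = -2 * w.2}) (by
      rintro p ⟨hp, -⟩
      refine ⟨hp, ?_⟩
      have h3 := ncard_line hp (-2) {b | b ≠ 0} {w | w.2 ≠ 0 ∧ w.1 = -2 * w.2}
        (fun b hb => ⟨hb, rfl⟩)
      rw [ncard_ne_zero hp] at h3
      have := hp.two_le
      omega) (by intro h; apply h1; convert h)
  apply hINT.1 _ _ h2
  rintro c ⟨p, ⟨hp, x, -, hx⟩, h3, h4⟩
  refine ⟨p, hp, h3, h4, ?_⟩
  intro h5
  apply hx
  rw [aeval_C]
  simpa using h5

lemma cond1 (hSIE : Stmt_SIE) (hINT : Stmt_INT) (s : ℤ) (hs : Sg s) : DensityOne (Cond1 s) := by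
  classical
  have h2 := hSIE (fun p => p.Prime ∧ p ≠ 2)
    (fun p => {w | w.2 ≠ 0 ∧ w.1 = -2 * w.2 ∧ ¬ IsSquare (-(s : ZMod p) * w.2)}) (by
      rintro p ⟨hp, hp2⟩
      refine ⟨hp, ?_⟩
      have : Fact p.Prime := ⟨hp⟩
      have h20 : (2 : ZMod p) ≠ 0 := by
        intro h
        have h' : ((2 : ℕ) : ZMod p) = 0 := by exact_mod_cast h
        rw [ZMod.natCast_eq_zero_iff] at h'
        exact hp2 ((Nat.prime_dvd_prime_iff_eq hp Nat.prime_two).mp h')
      have hs0 : (-(s : ZMod p)) ≠ 0 := by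
        rcases hs with h | h | h | h <;> subst h <;> simp [h20]
      have h3 := ncard_line hp (-2) {b : ZMod p | b ≠ 0 ∧ ¬ IsSquare (-(s : ZMod p) * b)}
        {w | w.2 ≠ 0 ∧ w.1 = -2 * w.2 ∧ ¬ IsSquare (-(s : ZMod p) * w.2)}
        (fun b hb => ⟨hb.1, rfl, hb.2⟩)
      have h4 := ncard_nonsq hp hp2 (-(s : ZMod p)) hs0
      omega) (by convert not_summable_odd)
  apply hINT.1 _ _ h2
  rintro c ⟨p, ⟨hp, hp2⟩, h3, h4, h5⟩
  exact ⟨p, hp, h3, h4, h5⟩

lemma condR (hCHE : Stmt_CHE) (hSIE : Stmt_SIE) (hINT : Stmt_INT) (hEIS : Stmt_EIS)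
    (hNSQ : Stmt_NSQ) (r : ℕ) (hr : 1 ≤ r) (s : ℤ) (hs : Sg s) : DensityOne (CondR r s) := by
  classical
  have h1 := hCHE (Np r) (C s * Dp r * Dp (r + 1)) (hEIS r).1 (hEIS r).2 (hNSQ r s hr hs)
  have h2 := hSIE (fun p => p.Prime ∧ ∃ x : ZMod p, aeval x (Np r) = 0 ∧
      ¬ IsSquare (aeval x (C s * Dp r * Dp (r + 1))))
    (fun p => {w | w.2 ≠ 0 ∧ ∃ x : ZMod p, w.1 = x * w.2 ∧ aeval x (Np r) = 0 ∧
      ¬ IsSquare (aeval x (C s * Dp r * Dp (r + 1)))}) (by
      rintro p ⟨hp, x, hx1, hx2⟩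
      refine ⟨hp, ?_⟩
      have h3 := ncard_line hp x {b | b ≠ 0} {w | w.2 ≠ 0 ∧ ∃ x : ZMod p, w.1 = x * w.2 ∧
        aeval x (Np r) = 0 ∧ ¬ IsSquare (aeval x (C s * Dp r * Dp (r + 1)))}
        (fun b hb => ⟨hb, x, rfl, hx1, hx2⟩)
      rw [ncard_ne_zero hp] at h3
      have := hp.two_le
      omega) (by intro h; apply h1; convert h)
  apply hINT.1 _ _ h2
  rintro c ⟨p, ⟨hp, -⟩, h3, x, h4, h5, h6⟩
  exact ⟨p, hp, h3, x, h4, h5, h6⟩

lemma allSg (hINT : Stmt_INT) (P : ℤ → ℚ → Prop) (h : ∀ s, Sg s → DensityOne (P s)) :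
    DensityOne (fun c => ∀ s, Sg s → P s c) := by
  have h1 := hINT.2 _ _ (hINT.2 _ _ (h 1 (by simp [Sg])) (h (-1) (by simp [Sg])))
    (hINT.2 _ _ (h 2 (by simp [Sg])) (h (-2) (by simp [Sg])))
  apply hINT.1 _ _ h1
  rintro c ⟨⟨h2, h3⟩, h4, h5⟩ s hs
  rcases hs with h | h | h | h <;> subst h <;> assumption

end DEN_

open DEN_ in
theorem den_proof (hCHE : Stmt_CHE) (hSIE : Stmt_SIE) (hINT : Stmt_INT) (hEIS : Stmt_EIS)
    (hNSQ : Stmt_NSQ) : Stmt_DEN := by
  intro R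
  induction R with
  | zero =>
    have h1 := hINT.2 _ _ (condI hCHE hSIE hINT) (allSg hINT _ (cond1 hSIE hINT))
    apply hINT.1 _ _ h1
    rintro c ⟨h2, h3⟩
    exact ⟨h2, h3, fun r hr hr' => by omega⟩
  | succ R ih =>
    have h1 := allSg hINT _ (condR hCHE hSIE hINT hEIS hNSQ (R + 1) (by omega))
    apply hINT.1 _ _ (hINT.2 _ _ ih h1)
    rintro c ⟨⟨h2, h3, h4⟩, h5⟩
    refine ⟨h2, h3, fun r hr hr' s hs => ?_⟩
    rcases Nat.lt_or_ge R r with h | h
    · have : r = R + 1 := by omega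
      subst this
      exact h5 s hs
    · exact h4 r hr h s hs

end Pool.Agent.ARL
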