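import Pool.Agent.ARL.Stmts

/-!
# MP_5c2e18_nt, ARL: the deterministic part
-/

set_option autoImplicit false

namespace Pool.Agent.ARL

open Polynomial Filter Topology NumberField IsDedekindDomain
open Pool.Agent.Arb (iter level ht cnt crit D)

namespace DET_

lemma orb_one (c : ℚ) : orb c 1 = c := by simp [orb]

lemma crit_one (c : ℚ) : crit c 1 = -c := by simp [crit]

lemma crit_of_ne {c : ℚ} {m : ℕ} (hm : m ≠ 1) : crit c m = orb c m := by
  simp [crit, orb, hm]

lemma orb_ne_zero {c : ℚ} (h : ∀ m, 1 ≤ m → ¬ IsSquare (crit c m)) {m : ℕ} (hm : 1 ≤ m) :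
    orb c m ≠ 0 := by
  intro h0
  by_cases h1 : m = 1
  · subst h1
    rw [orb_one] at h0
    apply h 1 le_rfl
    rw [crit_one, h0]
    exact ⟨0, by simp⟩
  · apply h m hm
    rw [crit_of_ne h1, h0]
    exact ⟨0, by simp⟩

lemma level_zero {c : ℚ} {x : AlgebraicClosure ℚ} (hx : x ∈ level c 0) : x = 0 := by
  have : aeval x (iter c 0) = 0 := hx
  simpa [iter] using this

lemma mem_KK_zero {c : ℚ} {w : AlgebraicClosure ℚ} (hw : w ∈ KK c 0) :
    ∃ q : ℚ, algebraMap ℚ (AlgebraicClosure ℚ) q = w := by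
  have h1 : KK c 0 ≤ ⊥ := by
    unfold KK
    rw [IntermediateField.adjoin_le_iff]
    intro x hx
    rw [level_zero hx]
    exact zero_mem _
  exact IntermediateField.mem_bot.mp (h1 hw)

lemma squarefree_rad (n : ℕ) : Squarefree (rad n) := by
  unfold rad
  apply Finset.squarefree_prod_of_pairwise_isCoprime
  · intro p hp q hq hpq
    rw [Function.onFun, Nat.coprime_iff_isRelPrime.symm]
    exact (Nat.coprime_primes (Nat.prime_of_mem_primeFactors hp)
      (Nat.prime_of_mem_primeFactors hq)).mpr hpq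
  · intro p hp
    exact (Nat.prime_of_mem_primeFactors hp).squarefree

lemma rad_dvd (n : ℕ) : rad n ∣ n := Nat.prod_primeFactors_dvd n

lemma prime_dvd_rad {n : ℕ} (hn : n ≠ 0) {p : ℕ} (hp : p.Prime) (h : p ∣ n) : p ∣ rad n := by
  unfold rad
  exact Finset.dvd_prod_of_mem _ (Nat.mem_primeFactors.mpr ⟨hp, h, hn⟩)

end DET_

open DET_ in
theorem det_proof (hCHR : Stmt_CHR) (hCH1 : Stmt_CH1) (hCHI : Stmt_CHI) (hVAL : Stmt_VAL)
    (hRAM : Stmt_RAM) (hTRA : Stmt_TRA) (hMAX : Stmt_MAX) : Stmt_DET := by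
  intro R c hI h1 hR n hn hnR
  have hcrit := hCHI c hI
  obtain ⟨m, rfl⟩ : ∃ m, n = m + 1 := ⟨n - 1, by omega⟩
  apply hMAX c m hcrit (hTRA c hcrit m)
  intro w hw hsq
  rcases Nat.eq_zero_or_pos m with hm | hm
  · subst hm
    obtain ⟨q, rfl⟩ := mem_KK_zero hw
    rw [← map_pow] at hsq
    apply hcrit 1 le_rfl
    rw [← (algebraMap ℚ (AlgebraicClosure ℚ)).injective hsq]
    exact ⟨q, by ring⟩
  · obtain ⟨r, hr⟩ := rad_dvd (m + 1)
    have hk : Squarefree (rad (m + 1)) := squarefree_rad _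
    have hp := fun p (hp : p.Prime) (h : p ∣ m + 1) => prime_dvd_rad (by omega) hp h
    have hk0 : rad (m + 1) ≠ 0 := hk.ne_zero
    have hk1 : 1 < rad (m + 1) := by
      have h2 := Nat.minFac_prime (n := m + 1) (by omega)
      have h3 := hp _ h2 (Nat.minFac_dvd _)
      exact lt_of_lt_of_le h2.one_lt (Nat.le_of_dvd (Nat.pos_of_ne_zero hk0) h3)
    have hr0 : r ≠ 0 := by
      rintro rfl
      omega
    have hrR : r ≤ R := by
      by_contra hcon
      push Not at hcon
      have h4 : R * rad (m + 1) < rad (m + 1) * r := by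
        rw [mul_comm]
        exact Nat.mul_lt_mul_of_pos_left hcon (Nat.pos_of_ne_zero hk0)
      omega
    obtain ⟨q, hq, hq2, hqc, hqm, hqn⟩ := hVAL c (m + 1) r (rad (m + 1)) (by omega) hk hp
      (by rw [mul_comm]; exact hr.symm) (by
        intro s hs
        by_cases hr1 : r = 1
        · subst hr1
          obtain ⟨p, hp, hb, ha, hns⟩ := h1 s hs
          have : Fact p.Prime := ⟨hp⟩
          exact hCH1 p c.num c.den s hb ha hns _ hk hk1
        · have hs' : Sg (-s) := by
            rcases hs with h | h | h | h <;> subst h <;> simp [Sg]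
          obtain ⟨p, hp, hb, x, ha, hx, hns⟩ := hR r (by omega) hrR (-s) hs'
          have : Fact p.Prime := ⟨hp⟩
          have := hCHR p c.num c.den (-s) r x (by omega) hb ha hx hns _ hk hk1
          rwa [neg_neg] at this)
    have hne : ∀ j, 1 ≤ j → orb c j ≠ 0 := fun j hj => orb_ne_zero hcrit hj
    apply hRAM c m q hm hq hq2 hqc (fun j hj hjm => ⟨hne j hj, hqm j hj (by omega)⟩) hqn w hw
    rw [hsq, crit_of_ne (by omega)]

end Pool.Agent.ARL
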