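import Pool.Agent.ARL.Stmts

/-!
# MP_5c2e18_nt (squad ARL), module DIA: a diagonal argument for `DensityOne`
-/

set_option autoImplicit false

namespace Pool.Agent.ARL

open Polynomial Filter Topology NumberField IsDedekindDomain
open Pool.Agent.Arb (iter level ht cnt crit D)

namespace DIA_

theorem fin_ht (B : ℕ) : {c : ℚ | ht c ≤ B}.Finite := by
  have hinj : Function.Injective (fun c : ℚ => (c.num, (c.den : ℤ))) := by
    intro c d h
    simp only [Prod.mk.injEq] at h
    exact Rat.ext h.1 (by exact_mod_cast h.2)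
  refine Set.Finite.of_finite_image (f := fun c : ℚ => (c.num, (c.den : ℤ))) ?_ hinj.injOn
  refine ((Set.finite_Icc (-(B : ℤ)) B).prod (Set.finite_Icc (-(B : ℤ)) B)).subset ?_
  rintro _ ⟨c, hc, rfl⟩
  have hc' : max c.num.natAbs c.den ≤ B := hc
  have h1 : c.num.natAbs ≤ B := (le_max_left _ _).trans hc'
  have h2 : c.den ≤ B := (le_max_right _ _).trans hc'
  simp only [Set.mem_prod, Set.mem_Icc]
  refine ⟨⟨by omega, by omega⟩, ⟨by omega, by omega⟩⟩

theorem fin_P (P : ℚ → Prop) (B : ℕ) : {c : ℚ | ht c ≤ B ∧ P c}.Finite :=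
  (fin_ht B).subset fun _ h => h.1

theorem cnt_le (P Q : ℚ → Prop) (B : ℕ) (h : ∀ c, ht c ≤ B → P c → Q c) : cnt P B ≤ cnt Q B :=
  Set.ncard_le_ncard (fun c hc => ⟨hc.1, h c hc.1 hc.2⟩) (fin_P Q B)

theorem ratio_le (P Q : ℚ → Prop) (B : ℕ) (h : ∀ c, ht c ≤ B → P c → Q c) :
    (cnt P B : ℝ) / (cnt (fun _ => True) B : ℝ) ≤
      (cnt Q B : ℝ) / (cnt (fun _ => True) B : ℝ) :=
  div_le_div_of_nonneg_right (Nat.cast_le.2 (cnt_le P Q B h)) (Nat.cast_nonneg _)

theorem ratio_le_one (P : ℚ → Prop) (B : ℕ) :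
    (cnt P B : ℝ) / (cnt (fun _ => True) B : ℝ) ≤ 1 := by
  refine div_le_one_of_le₀ ?_ (Nat.cast_nonneg _)
  exact Nat.cast_le.2 (cnt_le P (fun _ => True) B (fun _ _ _ => trivial))

end DIA_

open DIA_ in
theorem dia_proof : Stmt_DIA := by
  classical
  intro P hP hdec
  have hmono : ∀ (R k : ℕ) (c : ℚ), P (R + k) c → P R c := by
    intro R k
    induction k with
    | zero => exact fun c h => h
    | succ k ih => exact fun c h => ih c (hdec _ c h)
  have hmono' : ∀ (R R' : ℕ) (c : ℚ), R ≤ R' → P R' c → P R c := by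
    intro R R' c h h2
    obtain ⟨k, rfl⟩ := Nat.exists_eq_add_of_le h
    exact hmono R k c h2
  have hex : ∀ R : ℕ, ∃ b : ℕ, ∀ B, b ≤ B →
      1 - 1 / ((R : ℝ) + 1) ≤ (cnt (P R) B : ℝ) / (cnt (fun _ => True) B : ℝ) := by
    intro R
    have hlt : 1 - 1 / ((R : ℝ) + 1) < 1 := by
      have : (0 : ℝ) < 1 / ((R : ℝ) + 1) := by positivity
      linarith
    have h := (hP R).eventually (lt_mem_nhds hlt)
    obtain ⟨b, hb⟩ := eventually_atTop.1 h
    exact ⟨b, fun B hB => (hb B hB).le⟩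
  choose b hb using hex
  set g : ℕ → ℕ := fun H => Nat.findGreatest (fun R => b R ≤ H) H with hg
  have hgmono : ∀ H H' : ℕ, H ≤ H' → g H ≤ g H' := fun H H' h =>
    Nat.findGreatest_mono (fun R hR => le_trans hR h) h
  have hgtop : Tendsto g atTop atTop := by
    refine tendsto_atTop.2 fun R => ?_
    filter_upwards [eventually_ge_atTop (max R (b R))] with H hH
    exact Nat.le_findGreatest ((le_max_left _ _).trans hH) ((le_max_right _ _).trans hH)
  refine ⟨g, hgtop, ?_⟩
  have hlow : Tendsto (fun B : ℕ => 1 - 1 / ((g B : ℝ) + 1)) atTop (𝓝 1) := by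
    have h1 : Tendsto (fun n : ℕ => 1 - 1 / ((n : ℝ) + 1)) atTop (𝓝 1) := by
      have := tendsto_one_div_add_atTop_nhds_zero_nat (𝕜 := ℝ)
      have h2 := this.const_sub 1
      rw [sub_zero] at h2
      exact h2
    exact h1.comp hgtop
  refine tendsto_of_tendsto_of_tendsto_of_le_of_le' hlow tendsto_const_nhds ?_ ?_
  · filter_upwards [eventually_ge_atTop (b 0)] with B hB
    have hgB : b (g B) ≤ B :=
      Nat.findGreatest_spec (P := fun R => b R ≤ B) (Nat.zero_le B) hB
    refine (hb (g B) B hgB).trans (ratio_le _ _ B fun c hc hPc => ?_)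
    exact hmono' _ _ c (hgmono _ _ hc) hPc
  · exact Eventually.of_forall fun B => ratio_le_one _ B

end Pool.Agent.ARL
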