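import Mathlib
import Pool.Agent.Arb.Defs

/-!
# MP_5c2e18_nt, second theorem: definitions

`iter c n` (the `n`-th iterate of `x ^ 2 + c`), `level c n` (its roots in the algebraic closure),
`ht`, `cnt` (height and counting function) are those of `Pool.Agent.Arb.Defs`.
-/

namespace Pool.Agent.ARL

open Polynomial Filter Topology
open Pool.Agent.Arb (iter level ht cnt crit D)

/-- The field `K_n`: generated over `ℚ` by the roots of the `n`-th iterate of `x ^ 2 + c`. -/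
noncomputable def KK (c : ℚ) (n : ℕ) : IntermediateField ℚ (AlgebraicClosure ℚ) :=
  IntermediateField.adjoin ℚ (level c n)

/-- Level `n ≥ 1` is maximal: `[K_n : ℚ] = 2 ^ (2 ^ (n - 1)) * [K_{n-1} : ℚ]`, that is
`[K_n : K_{n-1}] = 2 ^ (2 ^ (n - 1))`, the order of the kernel of `Aut(T_n) → Aut(T_{n-1})`. -/
def MaxLevel (c : ℚ) (n : ℕ) : Prop :=
  Module.finrank ℚ (KK c n) = 2 ^ 2 ^ (n - 1) * Module.finrank ℚ (KK c (n - 1))

/-- The radical of `n`, the product of its prime divisors. -/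
def rad (n : ℕ) : ℕ := ∏ p ∈ n.primeFactors, p

/-- `100 %` of all rational numbers, ordered by height, have the property `P`. -/
def DensityOne (P : ℚ → Prop) : Prop :=
  Tendsto (fun B : ℕ => (cnt P B : ℝ) / (cnt (fun _ => True) B : ℝ)) atTop (𝓝 1)

/-! ### auxiliary definitions for the proof -/

/-- The critical orbit `orb c m = φ_c^m(0)`. -/
def orb (c : ℚ) (m : ℕ) : ℚ := (fun x : ℚ => x ^ 2 + c)^[m] 0

/-- `Dp m` is the polynomial `φ_c^m(0) / c` in the variable `X = c`. -/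
noncomputable def Dp : ℕ → ℤ[X]
  | 0 => 0
  | m + 1 => X * (Dp m) ^ 2 + 1

/-- `Np r = Dp (r + 1) + Dp (r + 2)`: its roots are the parameters `c ≠ 0` with
`φ_c^{r+2}(0) = - φ_c^{r+1}(0)`. -/
noncomputable def Np (r : ℕ) : ℤ[X] := Dp (r + 1) + Dp (r + 2)

/-- the four signs -/
def Sg (s : ℤ) : Prop := s = 1 ∨ s = -1 ∨ s = 2 ∨ s = -2

/-- Condition at a prime for the irreducibility of all iterates. -/
def CondI (c : ℚ) : Prop := ∃ p : ℕ, p.Prime ∧ ((c.den : ℤ) : ZMod p) ≠ 0 ∧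
  (c.num : ZMod p) = -2 * ((c.den : ℤ) : ZMod p) ∧ ¬ IsSquare (2 : ZMod p)

/-- Condition at a prime for squarefree levels. -/
def Cond1 (s : ℤ) (c : ℚ) : Prop := ∃ p : ℕ, p.Prime ∧ ((c.den : ℤ) : ZMod p) ≠ 0 ∧
  (c.num : ZMod p) = -2 * ((c.den : ℤ) : ZMod p) ∧ ¬ IsSquare (-(s : ZMod p) * ((c.den : ℤ) : ZMod p))

/-- Condition at a prime for the levels `n` with `n / rad n = r`. -/
def CondR (r : ℕ) (s : ℤ) (c : ℚ) : Prop := ∃ p : ℕ, p.Prime ∧ ((c.den : ℤ) : ZMod p) ≠ 0 ∧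
  ∃ x : ZMod p, (c.num : ZMod p) = x * ((c.den : ℤ) : ZMod p) ∧ aeval x (Np r) = 0 ∧
    ¬ IsSquare (aeval x (C s * Dp r * Dp (r + 1)))

end Pool.Agent.ARL
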