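import Pool.Agent.ARL.Stmts

/-!
# MP_5c2e18_nt (squad ARL), module EIS: `Np r` is Eisenstein at `2`
-/

set_option autoImplicit false

namespace Pool.Agent.ARL

open Polynomial Filter Topology NumberField IsDedekindDomain
open Pool.Agent.Arb (iter level ht cnt crit D)

namespace EIS_

theorem Dp_succ (m : ℕ) : Dp (m + 1) = X * (Dp m) ^ 2 + 1 := rfl

theorem Dp_one : Dp 1 = 1 := by
  rw [Dp_succ]
  change X * (0 : ℤ[X]) ^ 2 + 1 = 1
  ring

theorem Dp_mon (m : ℕ) : (Dp (m + 1)).Monic ∧ (Dp (m + 1)).natDegree = 2 ^ m - 1 := by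
  induction m with
  | zero =>
    rw [Dp_one]
    exact ⟨monic_one, by simp⟩
  | succ m ih =>
    obtain ⟨h1, h2⟩ := ih
    have hm : (X * (Dp (m + 1)) ^ 2 : ℤ[X]).Monic := monic_X.mul (h1.pow 2)
    have hd : (X * (Dp (m + 1)) ^ 2 : ℤ[X]).natDegree = 2 ^ (m + 1) - 1 := by
      rw [Monic.natDegree_mul monic_X (h1.pow 2), natDegree_X, h1.natDegree_pow, h2, pow_succ]
      have := Nat.one_le_two_pow (n := m)
      omega
    have hlt : degree (1 : ℤ[X]) < degree (X * (Dp (m + 1)) ^ 2 : ℤ[X]) := by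
      rw [degree_one, degree_eq_natDegree hm.ne_zero, hd]
      have h4 : 2 ≤ 2 ^ (m + 1) := by
        rw [pow_succ]
        have := Nat.one_le_two_pow (n := m)
        omega
      have : 0 < 2 ^ (m + 1) - 1 := by omega
      exact_mod_cast this
    rw [Dp_succ]
    refine ⟨hm.add_of_left hlt, ?_⟩
    rw [natDegree_add_eq_left_of_degree_lt hlt, hd]

theorem Dp_zero (m : ℕ) : (Dp (m + 1)).coeff 0 = 1 := by
  rw [Dp_succ]
  simp

theorem Np_mon (r : ℕ) : (Np r).Monic ∧ (Np r).natDegree = 2 ^ (r + 1) - 1 := by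
  obtain ⟨h1, h2⟩ := Dp_mon r
  obtain ⟨h3, h4⟩ := Dp_mon (r + 1)
  have hlt : degree (Dp (r + 1)) < degree (Dp (r + 2)) := by
    rw [degree_eq_natDegree h1.ne_zero, degree_eq_natDegree h3.ne_zero, h2, h4]
    have h5 : 1 ≤ 2 ^ r := Nat.one_le_two_pow
    have h6 : 2 ^ (r + 1) = 2 * 2 ^ r := by ring
    have : 2 ^ r - 1 < 2 ^ (r + 1) - 1 := by omega
    exact_mod_cast this
  refine ⟨h3.add_of_right hlt, ?_⟩
  rw [Np, natDegree_add_eq_right_of_degree_lt hlt, h4]

theorem Dp_mod (m : ℕ) : (Dp (m + 1) + Dp m).map (Int.castRingHom (ZMod 2)) =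
    X ^ (2 ^ m - 1) := by
  induction m with
  | zero =>
    rw [Dp_one]
    change (1 + (0 : ℤ[X])).map (Int.castRingHom (ZMod 2)) = _
    simp
  | succ m ih =>
    have h2 : (2 : (ZMod 2)[X]) = 0 := by
      have : ((2 : ℕ) : (ZMod 2)[X]) = 0 := CharP.cast_eq_zero _ 2
      simpa using this
    have e : Dp (m + 1 + 1) + Dp (m + 1) =
        X * (Dp (m + 1) + Dp m) ^ 2 + 2 * (1 - X * Dp (m + 1) * Dp m) := by
      rw [Dp_succ (m + 1)]
      nth_rw 2 [Dp_succ m]
      ring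
    rw [e]
    rw [Polynomial.map_add, Polynomial.map_mul, Polynomial.map_pow, ih, Polynomial.map_mul,
      Polynomial.map_ofNat, map_X, h2, zero_mul, add_zero, ← pow_mul, ← pow_succ']
    congr 1
    have h5 : 1 ≤ 2 ^ m := Nat.one_le_two_pow
    have h6 : 2 ^ (m + 1) = 2 * 2 ^ m := by ring
    omega

theorem Np_coeff (r n : ℕ) (hn : n < 2 ^ (r + 1) - 1) : (2 : ℤ) ∣ (Np r).coeff n := by
  have h := Dp_mod (r + 1)
  have h2 : (Np r).map (Int.castRingHom (ZMod 2)) = X ^ (2 ^ (r + 1) - 1) := by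
    rw [← h, Np, add_comm]
  have h3 := congrArg (fun f => f.coeff n) h2
  simp only [coeff_map, coeff_X_pow] at h3
  rw [if_neg hn.ne] at h3
  have h4 : (((Np r).coeff n : ℤ) : ZMod 2) = 0 := h3
  exact_mod_cast (ZMod.intCast_zmod_eq_zero_iff_dvd _ 2).1 h4

theorem Np_zero (r : ℕ) : (Np r).coeff 0 = 2 := by
  rw [Np, coeff_add, Dp_zero, Dp_zero]
  norm_num

end EIS_

open EIS_ in
theorem eis_proof : Stmt_EIS := by
  intro r
  obtain ⟨hm, hd⟩ := Np_mon r
  refine ⟨hm, ?_⟩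
  have hirr : Irreducible (Np r) := by
    have hP : (Ideal.span {(2 : ℤ)}).IsPrime := by
      rw [Ideal.span_singleton_prime (by norm_num)]
      exact Int.prime_two
    refine irreducible_of_eisenstein_criterion hP ?_ ?_ ?_ ?_ hm.isPrimitive
    · rw [hm.leadingCoeff, Ideal.mem_span_singleton]
      decide
    · intro n hn
      rw [degree_eq_natDegree hm.ne_zero, hd] at hn
      rw [Ideal.mem_span_singleton]
      exact Np_coeff r n (by exact_mod_cast hn)
    · rw [degree_eq_natDegree hm.ne_zero, hd]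
      have h5 : 1 ≤ 2 ^ r := Nat.one_le_two_pow
      have h6 : 2 ^ (r + 1) = 2 * 2 ^ r := by ring
      have : 0 < 2 ^ (r + 1) - 1 := by omega
      exact_mod_cast this
    · rw [Np_zero, Ideal.span_singleton_pow, Ideal.mem_span_singleton]
      decide
  have h := (hm.irreducible_iff_irreducible_map_fraction_map (K := ℚ)).1 hirr
  exact h

end Pool.Agent.ARL
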