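import Pool.Agent.ARL.Stmts

set_option autoImplicit false

/-!
# MP_5c2e18_nt, second theorem, module EUL: the zeta function is bounded by the Euler products
-/

namespace Pool.Agent.ARL

open Polynomial Filter Topology NumberField IsDedekindDomain
open Pool.Agent.Arb (iter level ht cnt crit D)

namespace EUL_

variable {K : Type} [Field K] [NumberField K]

/-- multiplicity of `P` in `I` -/
noncomputable def mu (I : Ideal (𝓞 K)) (P : HeightOneSpectrum (𝓞 K)) : ℕ :=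
  (Associates.mk P.asIdeal).count (Associates.mk I).factors

theorem mu_ne_zero {I : Ideal (𝓞 K)} (hI : I ≠ ⊥) (P : HeightOneSpectrum (𝓞 K)) :
    mu I P ≠ 0 ↔ P.asIdeal ∣ I :=
  Associates.count_ne_zero_iff_dvd hI P.irreducible

theorem eq_prod {I : Ideal (𝓞 K)} (hI : I ≠ ⊥) (S : Finset (HeightOneSpectrum (𝓞 K)))
    (hS : ∀ P : HeightOneSpectrum (𝓞 K), P.asIdeal ∣ I → P ∈ S) :
    I = ∏ P ∈ S, P.asIdeal ^ mu I P := by
  have h1 := Ideal.finprod_heightOneSpectrum_factorization (R := 𝓞 K) (I := I) hI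
  nth_rewrite 1 [← h1]
  refine finprod_eq_prod_of_mulSupport_subset _ ?_
  intro P hP
  rw [Function.mem_mulSupport] at hP
  refine hS P ((mu_ne_zero hI P).1 fun h0 => hP ?_)
  show P.asIdeal ^ mu I P = 1
  rw [h0, pow_zero]

theorem norm_pos (P : HeightOneSpectrum (𝓞 K)) : 1 < Ideal.absNorm P.asIdeal := by
  have h0 : Ideal.absNorm P.asIdeal ≠ 0 := by
    rw [Ne, Ideal.absNorm_eq_zero_iff]
    exact P.ne_bot
  have h1 : Ideal.absNorm P.asIdeal ≠ 1 := by
    rw [Ne, Ideal.absNorm_eq_one_iff]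
    exact P.isPrime.ne_top
  omega

/-- `N P ^ (-s)` -/
noncomputable def xx (s : ℝ) (P : HeightOneSpectrum (𝓞 K)) : ℝ :=
  (Ideal.absNorm P.asIdeal : ℝ) ^ (-s)

theorem xx_nonneg (s : ℝ) (P : HeightOneSpectrum (𝓞 K)) : 0 ≤ xx s P :=
  Real.rpow_nonneg (Nat.cast_nonneg _) _

theorem xx_lt {s : ℝ} (hs : 1 < s) (P : HeightOneSpectrum (𝓞 K)) : xx s P < 1 := by
  refine Real.rpow_lt_one_of_one_lt_of_neg ?_ (by linarith)
  exact_mod_cast norm_pos P

theorem norm_rpow {I : Ideal (𝓞 K)} (hI : I ≠ ⊥) (s : ℝ) (S : Finset (HeightOneSpectrum (𝓞 K)))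
    (hS : ∀ P : HeightOneSpectrum (𝓞 K), P.asIdeal ∣ I → P ∈ S) :
    (Ideal.absNorm I : ℝ) ^ (-s) = ∏ P : S, xx s P.1 ^ mu I P.1 := by
  have h1 : (Ideal.absNorm I : ℝ) = ∏ P : S, (Ideal.absNorm P.1.asIdeal : ℝ) ^ mu I P.1 := by
    have h2 := congrArg Ideal.absNorm (eq_prod hI S hS)
    rw [map_prod] at h2
    simp only [map_pow] at h2
    rw [h2]
    push_cast
    exact (Finset.prod_coe_sort S (fun P => (Ideal.absNorm P.asIdeal : ℝ) ^ mu I P)).symm
  rw [h1, ← Real.finsetProd_rpow]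
  · refine Finset.prod_congr rfl fun P _ => ?_
    unfold xx
    rw [← Real.rpow_natCast, ← Real.rpow_mul (Nat.cast_nonneg _), ← Real.rpow_natCast,
      ← Real.rpow_mul (Nat.cast_nonneg _), mul_comm]
  · intro P _
    positivity

end EUL_

open EUL_ in
theorem eul_proof (_hZSU : Stmt_ZSU) : Stmt_EUL := by
  classical
  intro K _ _ s C hs hC
  unfold zs
  refine Real.tsum_le_of_sum_le (fun I => Real.rpow_nonneg (Nat.cast_nonneg _) _) fun F => ?_
  -- the primes
  have hfin : (⋃ I ∈ F, {P : HeightOneSpectrum (𝓞 K) | P.asIdeal ∣ I.1}).Finite :=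
    Set.Finite.biUnion F.finite_toSet fun I _ => Ideal.finite_factors I.2
  set S : Finset (HeightOneSpectrum (𝓞 K)) := hfin.toFinset with hS
  have hSF : ∀ I ∈ F, ∀ P : HeightOneSpectrum (𝓞 K), P.asIdeal ∣ I.1 → P ∈ S := by
    intro I hI P hP
    rw [hS, Set.Finite.mem_toFinset]
    exact Set.mem_biUnion hI hP
  -- a bound for the multiplicities
  obtain ⟨k, hk⟩ : ∃ k, ∀ I ∈ F, ∀ P ∈ S, mu I.1 P < k := by
    refine ⟨(F.sup fun I => S.sup fun P => mu I.1 P) + 1, fun I hI P hP => ?_⟩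
    have h1 : mu I.1 P ≤ S.sup fun P => mu I.1 P := Finset.le_sup (f := fun P => mu I.1 P) hP
    have h2 : (S.sup fun P => mu I.1 P) ≤ F.sup fun I => S.sup fun P => mu I.1 P :=
      Finset.le_sup (f := fun I : {I : Ideal (𝓞 K) // I ≠ ⊥} => S.sup fun P => mu I.1 P) hI
    omega
  -- the map to exponents
  have h1 : ∑ I ∈ F, (Ideal.absNorm I.1 : ℝ) ^ (-s) =
      ∑ I ∈ F, (fun g : (P : S) → ℕ => ∏ P : S, xx s P.1 ^ g P) (fun P : S => mu I.1 P.1) :=
    Finset.sum_congr rfl fun I hI => norm_rpow I.2 s S (hSF I hI)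
  have hinj : Set.InjOn (fun (I : {I : Ideal (𝓞 K) // I ≠ ⊥}) (P : S) => mu I.1 P.1) F := by
    intro I hI J hJ hIJ
    apply Subtype.ext
    rw [eq_prod I.2 S (hSF I hI), eq_prod J.2 S (hSF J hJ)]
    refine Finset.prod_congr rfl fun P hP => ?_
    have := congrFun hIJ ⟨P, hP⟩
    simp only at this
    rw [this]
  rw [h1, ← Finset.sum_image (f := fun g : (P : S) → ℕ => ∏ P : S, xx s P.1 ^ g P) hinj]
  have h2 : Finset.image (fun (I : {I : Ideal (𝓞 K) // I ≠ ⊥}) (P : S) => mu I.1 P.1) F ⊆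
      Fintype.piFinset fun _ : S => Finset.range k := by
    intro g hg
    obtain ⟨I, hI, rfl⟩ := Finset.mem_image.1 hg
    rw [Fintype.mem_piFinset]
    intro P
    exact Finset.mem_range.2 (hk I hI P.1 P.2)
  refine (Finset.sum_le_sum_of_subset_of_nonneg h2 fun g _ _ =>
    Finset.prod_nonneg fun P _ => pow_nonneg (xx_nonneg s P.1) _).trans ?_
  have h3 := Finset.prod_univ_sum (fun _ : S => Finset.range k) (fun (P : S) j => xx s P.1 ^ j)
  rw [← h3]
  refine le_trans ?_ (hC S)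
  rw [← Finset.prod_coe_sort S (fun P => (1 - (Ideal.absNorm P.asIdeal : ℝ) ^ (-s))⁻¹)]
  refine Finset.prod_le_prod (fun P _ => Finset.sum_nonneg fun j _ =>
    pow_nonneg (xx_nonneg s P.1) _) fun P _ => ?_
  have h4 := Summable.sum_le_tsum (Finset.range k) (fun j _ => pow_nonneg (xx_nonneg s P.1) j)
    (summable_geometric_of_lt_one (xx_nonneg s P.1) (xx_lt hs P.1))
  rwa [tsum_geometric_of_lt_one (xx_nonneg s P.1) (xx_lt hs P.1)] at h4

end Pool.Agent.ARL
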