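import Pool.Agent.ARL.Stmts

/-!
# MP_5c2e18_nt, second theorem, module EUP: finite products of `1 + N P ^ (-s)`
-/

set_option autoImplicit false

namespace Pool.Agent.ARL

open Polynomial Filter Topology NumberField IsDedekindDomain

open Pool.Agent.Arb (iter level ht cnt crit D)

namespace EUP_

theorem mem_of_prod {R : Type} [CommRing R] [IsDedekindDomain R] (T : Finset (HeightOneSpectrum R))
    (P : HeightOneSpectrum R) : P.asIdeal ∣ ∏ Q ∈ T, Q.asIdeal ↔ P ∈ T := by
  constructor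
  · intro h
    obtain ⟨Q, hQ, hd⟩ := (P.prime.dvd_finset_prod_iff _).mp h
    have h1 : Q.asIdeal = P.asIdeal :=
      (Associated.eq_of_normalized (α := Ideal R) ((P.prime.associated_of_dvd Q.prime hd).symm)
        (normalize_eq _) (normalize_eq _))
    have h2 : Q = P := HeightOneSpectrum.ext h1
    rwa [← h2]
  · intro h
    exact Finset.dvd_prod_of_mem (fun Q : HeightOneSpectrum R => Q.asIdeal) h

theorem prod_ne_bot {R : Type} [CommRing R] [IsDedekindDomain R] (T : Finset (HeightOneSpectrum R)) :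
    ∏ Q ∈ T, Q.asIdeal ≠ ⊥ := by
  rw [← Ideal.zero_eq_bot]
  exact Finset.prod_ne_zero_iff.mpr fun Q _ => by
    rw [Ideal.zero_eq_bot]
    exact Q.ne_bot

end EUP_

open EUP_ in
theorem eup_proof (hZSU : Stmt_ZSU) : Stmt_EUP := by
  intro K _ _ s hs S
  classical
  have hsum := (hZSU K).1 s hs
  rw [Finset.prod_one_add]
  have h1 : ∀ T : Finset (HeightOneSpectrum (𝓞 K)), ∏ P ∈ T, (Ideal.absNorm P.asIdeal : ℝ) ^ (-s) =
      (Ideal.absNorm (∏ P ∈ T, P.asIdeal) : ℝ) ^ (-s) := by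
    intro T
    rw [map_prod, Nat.cast_prod, Real.finset_prod_rpow]
    intro P _
    positivity
  set j : Finset (HeightOneSpectrum (𝓞 K)) → {I : Ideal (𝓞 K) // I ≠ ⊥} :=
    fun T => ⟨∏ P ∈ T, P.asIdeal, prod_ne_bot T⟩ with hj
  have hinj : Function.Injective j := by
    intro T T' h
    have h2 : ∏ P ∈ T, P.asIdeal = ∏ P ∈ T', P.asIdeal := congrArg Subtype.val h
    ext P
    rw [← mem_of_prod T P, ← mem_of_prod T' P, h2]
  calc ∑ T ∈ S.powerset, ∏ P ∈ T, (Ideal.absNorm P.asIdeal : ℝ) ^ (-s)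
      = ∑ T ∈ S.powerset, (Ideal.absNorm (j T).1 : ℝ) ^ (-s) := by
        refine Finset.sum_congr rfl fun T _ => ?_
        rw [h1 T]
    _ = ∑ I ∈ S.powerset.image j, (Ideal.absNorm I.1 : ℝ) ^ (-s) := by
        rw [Finset.sum_image (fun T _ T' _ h => hinj h)]
    _ ≤ zs K s := by
        refine hsum.sum_le_tsum _ fun I _ => ?_
        positivity

end Pool.Agent.ARL
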