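import Pool.Agent.ARL.Stmts

/-!
# Squad ARL, module FIB: finitely many primes above each rational prime.
-/

set_option autoImplicit false

namespace Pool.Agent.ARL

open NumberField IsDedekindDomain

namespace FIB_

variable {K : Type} [Field K] [NumberField K]

/-- The residue characteristic of `P` and the norm of `P`. -/
lemma res (P : HeightOneSpectrum (𝓞 K)) :
    (Ideal.absNorm (Ideal.under ℤ P.asIdeal)).Prime ∧
      ∃ f : ℕ, Ideal.absNorm P.asIdeal = (Ideal.absNorm (Ideal.under ℤ P.asIdeal)) ^ (f + 1) := by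
  have := P.isPrime
  have : NeZero P.asIdeal := ⟨P.ne_bot⟩
  have hp : (Ideal.absNorm (Ideal.under ℤ P.asIdeal)).Prime :=
    Nat.absNorm_under_prime P.asIdeal
  refine ⟨hp, ?_⟩
  have h := Ideal.absNorm_eq_pow_inertiaDeg' P.asIdeal hp
  rcases hf : (Ideal.span {((Ideal.absNorm (Ideal.under ℤ P.asIdeal) : ℕ) : ℤ)}).inertiaDeg'
    P.asIdeal with _ | f
  · rw [hf, pow_zero, Ideal.absNorm_eq_one_iff] at h
    exact absurd h P.isPrime.ne_top
  · exact ⟨f, by rw [h, hf]⟩

lemma minFac_eq (P : HeightOneSpectrum (𝓞 K)) :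
    (Ideal.absNorm P.asIdeal).minFac = Ideal.absNorm (Ideal.under ℤ P.asIdeal) := by
  obtain ⟨hp, f, hf⟩ := res P
  rw [hf, hp.pow_minFac (Nat.succ_ne_zero f)]

lemma mem_primes (P : HeightOneSpectrum (𝓞 K)) :
    P.asIdeal ∈ IsDedekindDomain.primesOverFinset
      (Ideal.span {(((Ideal.absNorm P.asIdeal).minFac : ℕ) : ℤ)}) (𝓞 K) := by
  have := P.isPrime
  obtain ⟨hp, -⟩ := res P
  rw [minFac_eq]
  have hp' : Prime ((Ideal.absNorm (Ideal.under ℤ P.asIdeal) : ℕ) : ℤ) :=
    Nat.prime_iff_prime_int.mp hp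
  have h0 : (Ideal.span {((Ideal.absNorm (Ideal.under ℤ P.asIdeal) : ℕ) : ℤ)}) ≠ ⊥ := by
    rw [Ne, Ideal.span_singleton_eq_bot]
    exact_mod_cast hp.ne_zero
  have h1 : (Ideal.span {((Ideal.absNorm (Ideal.under ℤ P.asIdeal) : ℕ) : ℤ)}).IsPrime := by
    rw [Ideal.span_singleton_prime hp'.ne_zero]
    exact hp'
  have h2 : (Ideal.span {((Ideal.absNorm (Ideal.under ℤ P.asIdeal) : ℕ) : ℤ)}).IsMaximal :=
    Ideal.IsPrime.isMaximal inferInstance h0
  rw [IsDedekindDomain.mem_primesOverFinset_iff h0]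
  exact ⟨P.isPrime, inferInstance⟩

set_option linter.deprecated false in
lemma card_le (p : ℕ) (hp : p.Prime) :
    (IsDedekindDomain.primesOverFinset (Ideal.span {((p : ℕ) : ℤ)}) (𝓞 K)).card ≤
      Module.finrank ℚ K := by
  have hp' : Prime (p : ℤ) := Nat.prime_iff_prime_int.mp hp
  have h0 : (Ideal.span {((p : ℕ) : ℤ)}) ≠ ⊥ := by
    rw [Ne, Ideal.span_singleton_eq_bot]
    exact_mod_cast hp.ne_zero
  have : (Ideal.span {((p : ℕ) : ℤ)}).IsPrime := by
    rw [Ideal.span_singleton_prime hp'.ne_zero]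
    exact hp'
  have : (Ideal.span {((p : ℕ) : ℤ)}).IsMaximal := Ideal.IsPrime.isMaximal inferInstance h0
  exact Ideal.card_primesOverFinset_le_finrank (𝓞 K) ℚ K h0

end FIB_

open FIB_ in
theorem fib_proof : Stmt_FIB := by
  classical
  intro K _ _
  refine ⟨?_, ?_⟩
  · intro P
    obtain ⟨hp, f, hf⟩ := res P
    rw [minFac_eq]
    refine ⟨hp, ?_⟩
    rcases Nat.eq_zero_or_pos f with h | h
    · left
      rw [h, zero_add, pow_one] at hf
      exact hf
    · right
      rw [hf]
      exact Nat.pow_le_pow_right hp.pos (by omega)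
  · intro g hg hs
    refine summable_of_sum_le (fun P => hg _) (c := (Module.finrank ℚ K : ℝ) * ∑' n, g n) ?_
    intro S
    have hmap : ∀ P ∈ S, (Ideal.absNorm P.asIdeal).minFac ∈
        S.image (fun P => (Ideal.absNorm P.asIdeal).minFac) :=
      fun P hP => Finset.mem_image_of_mem _ hP
    rw [← Finset.sum_fiberwise_of_maps_to hmap]
    have h1 : ∀ p ∈ S.image (fun P => (Ideal.absNorm P.asIdeal).minFac),
        ∑ P ∈ S.filter (fun P => (Ideal.absNorm P.asIdeal).minFac = p),
          g (Ideal.absNorm P.asIdeal).minFac ≤ (Module.finrank ℚ K : ℝ) * g p := by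
      intro p hp
      obtain ⟨P0, hP0, rfl⟩ := Finset.mem_image.1 hp
      set p := (Ideal.absNorm P0.asIdeal).minFac with hpdef
      have hpp : p.Prime := by
        rw [hpdef, minFac_eq]
        exact (res P0).1
      have h2 : ∑ P ∈ S.filter (fun P => (Ideal.absNorm P.asIdeal).minFac = p),
          g (Ideal.absNorm P.asIdeal).minFac =
          ∑ P ∈ S.filter (fun P => (Ideal.absNorm P.asIdeal).minFac = p), g p :=
        Finset.sum_congr rfl fun P hP => by rw [(Finset.mem_filter.1 hP).2]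
      rw [h2, Finset.sum_const, nsmul_eq_mul]
      refine mul_le_mul_of_nonneg_right ?_ (hg _)
      have h3 : (S.filter (fun P => (Ideal.absNorm P.asIdeal).minFac = p)).card ≤
          (IsDedekindDomain.primesOverFinset (Ideal.span {((p : ℕ) : ℤ)}) (𝓞 K)).card := by
        refine Finset.card_le_card_of_injOn (fun P => P.asIdeal) ?_ ?_
        · intro P hP
          have hP' := (Finset.mem_filter.1 (Finset.mem_coe.1 hP)).2
          have := mem_primes P
          rw [hP'] at this
          exact this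
        · intro P _ Q _ h
          exact HeightOneSpectrum.ext h
      exact_mod_cast h3.trans (card_le p hpp)
    refine (Finset.sum_le_sum h1).trans ?_
    rw [← Finset.mul_sum]
    exact mul_le_mul_of_nonneg_left (hs.sum_le_tsum _ (fun _ _ => hg _)) (Nat.cast_nonneg _)

end Pool.Agent.ARL
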