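import Pool.Agent.ARL.Stmts

/-!
# MP_5c2e18_nt (squad ARL), module INT: monotonicity and intersection for `DensityOne`
-/

set_option autoImplicit false

namespace Pool.Agent.ARL

open Polynomial Filter Topology NumberField IsDedekindDomain
open Pool.Agent.Arb (iter level ht cnt crit D)

namespace INT_

theorem fin_ht (B : ℕ) : {c : ℚ | ht c ≤ B}.Finite := by
  have hinj : Function.Injective (fun c : ℚ => (c.num, (c.den : ℤ))) := by
    intro c d h
    simp only [Prod.mk.injEq] at h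
    exact Rat.ext h.1 (by exact_mod_cast h.2)
  refine Set.Finite.of_finite_image (f := fun c : ℚ => (c.num, (c.den : ℤ))) ?_ hinj.injOn
  refine ((Set.finite_Icc (-(B : ℤ)) B).prod (Set.finite_Icc (-(B : ℤ)) B)).subset ?_
  rintro _ ⟨c, hc, rfl⟩
  have hc' : max c.num.natAbs c.den ≤ B := hc
  have h1 : c.num.natAbs ≤ B := (le_max_left _ _).trans hc'
  have h2 : c.den ≤ B := (le_max_right _ _).trans hc'
  simp only [Set.mem_prod, Set.mem_Icc]
  refine ⟨⟨by omega, by omega⟩, ⟨by omega, by omega⟩⟩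

theorem fin_P (P : ℚ → Prop) (B : ℕ) : {c : ℚ | ht c ≤ B ∧ P c}.Finite :=
  (fin_ht B).subset fun _ h => h.1

theorem cnt_mono (P Q : ℚ → Prop) (h : ∀ c, P c → Q c) (B : ℕ) : cnt P B ≤ cnt Q B :=
  Set.ncard_le_ncard (fun c hc => ⟨hc.1, h c hc.2⟩) (fin_P Q B)

theorem cnt_inter (P Q : ℚ → Prop) (B : ℕ) :
    cnt P B + cnt Q B ≤ cnt (fun c => P c ∧ Q c) B + cnt (fun _ => True) B := by
  have h := Set.ncard_union_add_ncard_inter {c : ℚ | ht c ≤ B ∧ P c} {c : ℚ | ht c ≤ B ∧ Q c}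
    (fin_P P B) (fin_P Q B)
  have h1 : ({c : ℚ | ht c ≤ B ∧ P c} ∪ {c : ℚ | ht c ≤ B ∧ Q c}).ncard ≤
      cnt (fun _ => True) B := by
    refine Set.ncard_le_ncard ?_ (fin_P _ B)
    rintro c (hc | hc)
    · exact ⟨hc.1, trivial⟩
    · exact ⟨hc.1, trivial⟩
  have h2 : ({c : ℚ | ht c ≤ B ∧ P c} ∩ {c : ℚ | ht c ≤ B ∧ Q c}).ncard ≤
      cnt (fun c => P c ∧ Q c) B := by
    refine Set.ncard_le_ncard ?_ (fin_P _ B)
    rintro c ⟨hc, hd⟩
    exact ⟨hc.1, hc.2, hd.2⟩
  have h3 : cnt P B = {c : ℚ | ht c ≤ B ∧ P c}.ncard := rfl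
  have h4 : cnt Q B = {c : ℚ | ht c ≤ B ∧ Q c}.ncard := rfl
  omega

theorem cnt_pos (B : ℕ) (hB : 1 ≤ B) : 0 < cnt (fun _ => True) B := by
  refine (Set.ncard_pos (fin_P _ B)).2 ⟨0, ?_, trivial⟩
  have : ht 0 = 1 := by
    unfold Pool.Agent.Arb.ht
    simp
  rw [this]
  exact hB

theorem ratio_le (P : ℚ → Prop) (B : ℕ) :
    (cnt P B : ℝ) / (cnt (fun _ => True) B : ℝ) ≤ 1 := by
  refine div_le_one_of_le₀ ?_ (Nat.cast_nonneg _)
  exact_mod_cast cnt_mono P (fun _ => True) (fun _ _ => trivial) B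

end INT_

open INT_ in
theorem int_proof : Stmt_INT := by
  refine ⟨?_, ?_⟩
  · intro P Q hP hPQ
    refine tendsto_of_tendsto_of_tendsto_of_le_of_le hP tendsto_const_nhds ?_ ?_
    · intro B
      have h : (cnt P B : ℝ) ≤ (cnt Q B : ℝ) := Nat.cast_le.2 (cnt_mono P Q hPQ B)
      exact div_le_div_of_nonneg_right h (Nat.cast_nonneg _)
    · intro B
      exact ratio_le Q B
  · intro P Q hP hQ
    have hlow : Tendsto (fun B : ℕ => (cnt P B : ℝ) / (cnt (fun _ => True) B : ℝ) +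
        (cnt Q B : ℝ) / (cnt (fun _ => True) B : ℝ) - 1) atTop (𝓝 1) := by
      have := (hP.add hQ).sub_const 1
      have h2 : (1 : ℝ) + 1 - 1 = 1 := by norm_num
      rw [h2] at this
      exact this
    refine tendsto_of_tendsto_of_tendsto_of_le_of_le' hlow tendsto_const_nhds ?_ ?_
    · filter_upwards [eventually_ge_atTop 1] with B hB
      have hpos : (0 : ℝ) < (cnt (fun _ => True) B : ℝ) := by exact_mod_cast cnt_pos B hB
      have hi : (cnt P B : ℝ) + (cnt Q B : ℝ) ≤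
          (cnt (fun c => P c ∧ Q c) B : ℝ) + (cnt (fun _ => True) B : ℝ) := by
        exact_mod_cast cnt_inter P Q B
      rw [← add_div, div_sub_one hpos.ne']
      exact div_le_div_of_nonneg_right (by linarith) hpos.le
    · exact Eventually.of_forall fun B => ratio_le _ B

end Pool.Agent.ARL
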