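import Pool.Agent.ARL.Stmts
import Pool.Agent.Arb.Gal

/-!
# MP_5c2e18_nt, second theorem, module MAX: maximal levels
-/

set_option autoImplicit false

namespace Pool.Agent.ARL

open Polynomial Filter Topology NumberField IsDedekindDomain
open Pool.Agent.Arb (iter level ht cnt crit D)

namespace MAX_

open Pool.Agent.Arb (phi cc GG lev mem_lev mem_level mem_level_succ mem_level_zero phi_orb
  iter_add_eq iter_derivative iter_monic_natDegree aeval_iter rt rt_sq rt_mem phi_rt
  crit_one crit_of_ne NN mem_NN NN_succ NN_conj chi chi_spec chi_conj sg2 sg2_inj sg2_add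
  sg2_map sg2_zero sg2_one sg2_sum level_succ_eq isPGroup_level PP PP_map lemA)

/-- The critical orbit does not meet `0`. -/
def NZ (c : ℚ) : Prop := ∀ m, 1 ≤ m → Arb.orb c m ≠ 0

theorem nz_of {c : ℚ} (h : ∀ m, 1 ≤ m → ¬ IsSquare (crit c m)) : NZ c := by
  intro m hm h0
  by_cases h1 : m = 1
  · subst h1
    apply h 1 le_rfl
    rw [crit_one]
    have : Arb.orb c 1 = c := by rw [Arb.orb_succ]; simp [Arb.orb]
    rw [this] at h0
    rw [h0, neg_zero]
    exact ⟨0, by simp⟩
  · apply h m hm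
    rw [crit_of_ne h1, h0]
    exact ⟨0, by simp⟩

theorem coprime_iter {c : ℚ} (h : NZ c) {i n : ℕ} (hin : i < n) :
    IsCoprime (iter c n) (iter c i) := by
  obtain ⟨k, rfl⟩ := Nat.exists_eq_add_of_lt hin
  obtain ⟨q, hq⟩ := iter_add_eq c i (k + 1)
  have h0 : Arb.orb c (k + 1) ≠ 0 := h _ (by omega)
  refine ⟨C (Arb.orb c (k + 1))⁻¹, - (C (Arb.orb c (k + 1))⁻¹ * q), ?_⟩
  have h1 : i + k + 1 = i + (k + 1) := by ring
  rw [h1, hq]
  have h2 : (C (Arb.orb c (k + 1))⁻¹ : ℚ[X]) * C (Arb.orb c (k + 1)) = 1 := by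
    rw [← C_mul, inv_mul_cancel₀ h0, C_1]
  linear_combination h2

theorem iter_separable {c : ℚ} (h : NZ c) (n : ℕ) : (iter c n).Separable := by
  rw [separable_def, iter_derivative]
  apply IsCoprime.mul_right
  · refine ⟨0, C (2 ^ n)⁻¹, ?_⟩
    rw [← C_mul, inv_mul_cancel₀ (by positivity), C_1]
    simp
  · apply IsCoprime.prod_right
    intro i hi
    exact coprime_iter h (Finset.mem_range.mp hi)

open scoped Classical in
theorem prod_lev {c : ℚ} (h : NZ c) (n : ℕ) (t : AlgebraicClosure ℚ) :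
    ∏ x ∈ lev c n, (t - x) = (phi c)^[n] t := by
  have hs : (((iter c n).map (algebraMap ℚ (AlgebraicClosure ℚ))).roots).Nodup :=
    nodup_roots ((iter_separable h n).map)
  have h1 := (IsAlgClosed.splits
    ((iter c n).map (algebraMap ℚ (AlgebraicClosure ℚ)))).eval_eq_prod_roots_of_monic
    ((iter_monic_natDegree c n).1.map _) t
  rw [← aeval_iter, aeval_def, ← eval_map, h1]
  unfold lev aroots
  rw [Finset.prod, Multiset.toFinset_val, Multiset.dedup_eq_self.mpr hs]

open scoped Classical in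
theorem card_lev {c : ℚ} (h : NZ c) (n : ℕ) : (lev c n).card = 2 ^ n := by
  have hs : (((iter c n).map (algebraMap ℚ (AlgebraicClosure ℚ))).roots).Nodup :=
    nodup_roots ((iter_separable h n).map)
  have h1 := (IsAlgClosed.splits
    ((iter c n).map (algebraMap ℚ (AlgebraicClosure ℚ)))).natDegree_eq_card_roots
  rw [natDegree_map, (iter_monic_natDegree c n).2] at h1
  unfold lev aroots
  rw [Multiset.card_toFinset, Multiset.dedup_eq_self.mpr hs, h1]

theorem prod_level {c : ℚ} (h : NZ c) (n : ℕ) :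
    ∏ x : level c n, ((x : AlgebraicClosure ℚ) - cc c) =
      algebraMap ℚ (AlgebraicClosure ℚ) (crit c (n + 1)) := by
  have h1 : ∏ x : level c n, ((x : AlgebraicClosure ℚ) - cc c) = ∏ x ∈ lev c n, (x - cc c) :=
    (Finset.prod_subtype (lev c n) (fun _ => mem_lev) fun x => x - cc c).symm
  have h2 : ∏ x ∈ lev c n, (x - cc c) = ∏ x ∈ lev c n, ((-1) * (cc c - x)) :=
    Finset.prod_congr rfl fun x _ => by ring
  rw [h1, h2, Finset.prod_mul_distrib, Finset.prod_const, card_lev h, prod_lev h]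
  have h3 : (phi c)^[n] (cc c) = algebraMap ℚ (AlgebraicClosure ℚ) (Arb.orb c (n + 1)) := by
    rw [← phi_orb, Function.iterate_succ_apply]
    congr 1
    simp [phi, cc]
  rw [h3]
  rcases Nat.eq_zero_or_pos n with hn | hn
  · subst hn
    rw [crit_one, Arb.orb_succ]
    simp [Arb.orb]
  · rw [crit_of_ne (by omega)]
    have : Even (2 ^ n) := (Nat.even_pow.mpr ⟨even_two, by omega⟩)
    rw [this.neg_one_pow, one_mul]

theorem rt_ne_zero {c : ℚ} (h : NZ c) {n : ℕ} {x : AlgebraicClosure ℚ} (hx : x ∈ level c n) :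
    rt c x ≠ 0 := by
  intro h0
  have h1 := rt_mem hx
  rw [h0, mem_level, phi_orb] at h1
  exact h _ (Nat.succ_le_succ (Nat.zero_le n))
    ((map_eq_zero (algebraMap ℚ (AlgebraicClosure ℚ))).mp h1)

theorem chi_mul {c : ℚ} (hc : NZ c) {n : ℕ} {σ τ : GG} (hσ : σ ∈ NN c n) (hτ : τ ∈ NN c n) :
    chi c n (σ * τ) = chi c n σ + chi c n τ := by
  funext x
  have h1 := chi_spec ((NN c n).mul_mem hσ hτ) x
  rw [AlgEquiv.mul_apply, chi_spec hτ x, map_mul, sg2_map, chi_spec hσ x] at h1
  apply sg2_inj (rt_ne_zero hc x.2)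
  rw [← h1, Pi.add_apply, sg2_add]; ring

theorem chi_eq_zero_iff {c : ℚ} {n : ℕ} {σ : GG} (hσ : σ ∈ NN c n) :
    chi c n σ = 0 ↔ σ ∈ NN c (n + 1) := by
  rw [NN_succ]
  constructor
  · intro h
    refine ⟨hσ, fun x hx => ?_⟩
    rw [mem_level_succ] at hx
    have h1 := chi_spec hσ ⟨phi c x, hx⟩
    rw [h, Pi.zero_apply, sg2_zero, one_mul] at h1
    rcases level_succ_eq (c := c) (x := x) with h2 | h2
    · rw [h2]; exact h1
    · rw [h2, map_neg]; congr 1
  · rintro ⟨-, h⟩
    funext x
    unfold chi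
    rw [if_pos (h _ (rt_mem x.2))]
    rfl

theorem PP_sq {c : ℚ} (hc : NZ c) (n : ℕ) :
    (PP c n) ^ 2 = algebraMap ℚ (AlgebraicClosure ℚ) (crit c (n + 1)) := by
  unfold PP
  rw [← Finset.prod_pow, ← prod_level hc]
  exact Finset.prod_congr rfl fun x _ => rt_sq c x

/-- every vertex of a level is the image of a vertex of each higher level -/
theorem exists_above (c : ℚ) (m k : ℕ) {x : AlgebraicClosure ℚ} (hx : x ∈ level c m) :
    ∃ y ∈ level c (m + k), (phi c)^[k] y = x := by
  induction k with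
  | zero => exact ⟨x, hx, rfl⟩
  | succ k ih =>
    obtain ⟨y, hy, hyx⟩ := ih
    exact ⟨rt c y, rt_mem hy, by rw [Function.iterate_succ_apply, phi_rt, hyx]⟩

theorem phi_iter_mem (c : ℚ) (F : IntermediateField ℚ (AlgebraicClosure ℚ)) (k : ℕ)
    {y : AlgebraicClosure ℚ} (hy : y ∈ F) : (phi c)^[k] y ∈ F := by
  induction k with
  | zero => exact hy
  | succ k ih =>
    rw [Function.iterate_succ_apply']
    exact add_mem (pow_mem ih 2) (F.algebraMap_mem c)

theorem NN_eq (c : ℚ) (n : ℕ) : NN c n = (KK c n).fixingSubgroup := by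
  ext σ
  rw [IntermediateField.mem_fixingSubgroup_iff, mem_NN]
  constructor
  · intro h x hx
    have h1 : KK c n ≤ IntermediateField.fixedField (Subgroup.zpowers σ) := by
      unfold KK
      rw [IntermediateField.adjoin_le_iff]
      intro y hy
      have h2 : σ y = y := h n le_rfl y hy
      show y ∈ IntermediateField.fixedField (Subgroup.zpowers σ)
      rw [IntermediateField.mem_fixedField_iff]
      intro τ hτ
      have h3 : Subgroup.zpowers σ ≤ MulAction.stabilizer GG y := by
        rw [Subgroup.zpowers_le]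
        exact h2
      exact h3 hτ
    have h4 := h1 hx
    rw [IntermediateField.mem_fixedField_iff] at h4
    exact h4 σ (Subgroup.mem_zpowers σ)
  · intro h m hm x hx
    apply h
    obtain ⟨k, rfl⟩ := Nat.exists_eq_add_of_le hm
    obtain ⟨y, hy, hyx⟩ := exists_above c m k hx
    rw [← hyx]
    apply phi_iter_mem
    exact IntermediateField.subset_adjoin ℚ _ hy

/-- The homomorphism of the sign changes. -/
noncomputable def chiHom {c : ℚ} (hc : NZ c) (n : ℕ) :
    NN c n →* Multiplicative (level c n → ZMod 2) where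
  toFun σ := Multiplicative.ofAdd (chi c n σ)
  map_one' := by
    have h1 : chi c n ((1 : NN c n) : GG) = 0 := by
      exact (chi_eq_zero_iff (1 : NN c n).2).2 (one_mem _)
    rw [h1]
    rfl
  map_mul' σ τ := by
    rw [Subgroup.coe_mul, chi_mul hc σ.2 τ.2]
    rfl

theorem index_eq {c : ℚ} (hc : NZ c) (n : ℕ)
    (hs : ∀ v : level c n → ZMod 2, ∃ σ ∈ NN c n, chi c n σ = v) :
    (NN c (n + 1)).index = 2 ^ 2 ^ n * (NN c n).index := by
  have hle : NN c (n + 1) ≤ NN c n := fun σ hσ => (NN_succ.1 hσ).1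
  rw [← Subgroup.relIndex_mul_index hle]
  congr 1
  have hker : (chiHom hc n).ker = (NN c (n + 1)).subgroupOf (NN c n) := by
    ext σ
    rw [MonoidHom.mem_ker, Subgroup.mem_subgroupOf, ← chi_eq_zero_iff σ.2]
    constructor
    · intro h
      exact Multiplicative.ofAdd.injective h
    · intro h
      show Multiplicative.ofAdd (chi c n σ) = 1
      rw [h]
      rfl
  have hsurj : Function.Surjective (chiHom hc n) := by
    intro v
    obtain ⟨σ, hσ, h⟩ := hs (Multiplicative.toAdd v)
    refine ⟨⟨σ, hσ⟩, ?_⟩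
    show Multiplicative.ofAdd (chi c n σ) = v
    rw [h]
    rfl
  rw [Subgroup.relIndex, ← hker, Subgroup.index_ker, MonoidHom.range_eq_top.2 hsurj]
  rw [Subgroup.card_top]
  have h1 : Nat.card (Multiplicative (level c n → ZMod 2)) = Nat.card (level c n → ZMod 2) :=
    Nat.card_congr Multiplicative.toAdd
  rw [h1, Nat.card_fun, Nat.card_zmod]
  congr 1
  rw [Nat.card_eq_fintype_card]
  have h2 : Fintype.card (level c n) = (lev c n).card := Fintype.card_of_subtype _ fun x => mem_lev
  rw [h2, card_lev hc]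

end MAX_

open MAX_ in
theorem max_proof : Stmt_MAX := by
  intro c n hcrit htr hw
  have hc := nz_of hcrit
  have ht : MulAction.IsPretransitive Arb.GG (level c n) := by
    constructor
    rintro ⟨x, hx⟩ ⟨y, hy⟩
    obtain ⟨σ, hσ⟩ := htr x hx y hy
    exact ⟨σ, Subtype.ext hσ⟩
  have hs : ∀ v : level c n → ZMod 2, ∃ σ ∈ Arb.NN c n, Arb.chi c n σ = v := by
    apply Arb.lemA (Arb.isPGroup_level c n) (Arb.NN c n) (Arb.chi c n)
    · exact fun σ hσ τ hτ => chi_mul hc hσ hτ
    · exact fun g σ hσ => ⟨Arb.NN_conj g hσ, fun x => Arb.chi_conj g x⟩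
    · by_contra hcon
      push Not at hcon
      refine hw (Arb.PP c n) ?_ (PP_sq hc n)
      rw [← InfiniteGalois.fixedField_fixingSubgroup (KK c n), ← NN_eq,
        IntermediateField.mem_fixedField_iff]
      intro σ hσ
      have h1 := Arb.PP_map (c := c) (n := n) (σ := σ) hσ
      rw [h1, hcon σ hσ, Arb.sg2_zero, one_mul]
  show Module.finrank ℚ (KK c (n + 1)) = 2 ^ 2 ^ n * Module.finrank ℚ (KK c n)
  rw [IntermediateField.finrank_eq_fixingSubgroup_index,
    IntermediateField.finrank_eq_fixingSubgroup_index, ← NN_eq, ← NN_eq]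
  exact index_eq hc n hs

end Pool.Agent.ARL
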