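import Pool.Agent.ARL.Stmts

/-!
# MP_5c2e18_nt, ARL: the final theorem from the modules
-/

set_option autoImplicit false

namespace Pool.Agent.ARL

open Polynomial Filter Topology NumberField IsDedekindDomain
open Pool.Agent.Arb (iter level ht cnt crit D)

theorem main_proof (hDET : Stmt_DET) (hDEN : Stmt_DEN) (hINT : Stmt_INT) (hDIA : Stmt_DIA)
    (hCOR : Stmt_COR) : Stmt_Main := by
  have h1 : ∀ R : ℕ, DensityOne (fun c => ∀ n, 1 ≤ n → n ≤ R * rad n → MaxLevel c n) := by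
    intro R
    apply hINT.1 _ _ (hDEN R)
    rintro c ⟨h1, h2, h3⟩
    exact hDET R c h1 h2 h3
  refine ⟨h1, ?_, ?_⟩
  · obtain ⟨g, hg1, hg2⟩ := hDIA (fun R c => ∀ n, 1 ≤ n → n ≤ R * rad n → MaxLevel c n) h1
      (fun R c h n hn hn' => h n hn (hn'.trans (Nat.mul_le_mul_right _ (Nat.le_succ R))))
    exact ⟨g, hg1, hg2⟩
  · intro ε hε
    obtain ⟨R, hR⟩ := hCOR ε hε
    exact hINT.1 _ _ (h1 R) fun c hc => hR c hc

end Pool.Agent.ARL
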