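import Pool.Agent.ARL.Stmts

set_option autoImplicit false

namespace Pool.Agent.ARL

open Polynomial Filter Topology NumberField IsDedekindDomain
open Pool.Agent.Arb (iter level ht cnt crit D)

namespace NSQ_

section gen

variable {W : Type*} [NormedField W] [IsUltrametricDist W]

theorem add_le (x y : W) : ‖x + y‖ ≤ max ‖x‖ ‖y‖ := IsUltrametricDist.norm_add_le_max x y

theorem add_eq {x y : W} (h : ‖y‖ < ‖x‖) : ‖x + y‖ = ‖x‖ := by
  apply le_antisymm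
  · exact (add_le x y).trans (max_le le_rfl h.le)
  · have h1 : ‖x‖ ≤ max ‖x + y‖ ‖y‖ := by
      have := add_le (x + y) (-y)
      simpa using this
    rcases le_max_iff.1 h1 with h2 | h2
    · exact h2
    · exact absurd h (not_lt.2 h2)

theorem int_le (n : ℤ) : ‖(n : W)‖ ≤ 1 := IsUltrametricDist.norm_intCast_le_one W n

theorem odd_eq (h2 : ‖(2 : W)‖ < 1) (n : ℤ) (hn : Odd n) : ‖(n : W)‖ = 1 := by
  obtain ⟨k, rfl⟩ := hn
  have h1 : ‖(2 : W) * (k : W)‖ < ‖(1 : W)‖ := by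
    rw [norm_mul, norm_one]
    calc ‖(2 : W)‖ * ‖(k : W)‖ ≤ ‖(2 : W)‖ * 1 :=
          mul_le_mul_of_nonneg_left (int_le k) (norm_nonneg _)
      _ < 1 := by rw [mul_one]; exact h2
  have h3 := add_eq h1
  push_cast
  rw [add_comm, h3, norm_one]

theorem aeval_le (a : ℤ[X]) (x : W) (hx : ‖x‖ ≤ 1) : ‖aeval x a‖ ≤ 1 := by
  induction a using Polynomial.induction_on' with
  | add p q hp hq =>
    rw [map_add]
    exact (add_le _ _).trans (max_le hp hq)
  | monomial n c =>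
    rw [aeval_monomial, norm_mul, norm_pow]
    have h1 : ‖(algebraMap ℤ W) c‖ ≤ 1 := by
      have := int_le (W := W) c
      simpa using this
    have h3 : ‖x‖ ^ n ≤ 1 := pow_le_one₀ (norm_nonneg _) hx
    calc ‖(algebraMap ℤ W) c‖ * ‖x‖ ^ n ≤ 1 * 1 :=
          mul_le_mul h1 h3 (pow_nonneg (norm_nonneg _) _) zero_le_one
      _ = 1 := one_mul 1

theorem split (a : ℤ[X]) (x : W) : aeval x a = (a.coeff 0 : W) + x * aeval x a.divX := by
  conv_lhs => rw [← X_mul_divX_add a]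
  rw [map_add, map_mul, aeval_X, aeval_C]
  simp
  ring

theorem aeval_odd (h2 : ‖(2 : W)‖ < 1) (a : ℤ[X]) (x : W) (hx : ‖x‖ < 1) (ha : Odd (a.coeff 0)) :
    ‖aeval x a‖ = 1 := by
  have h1 : ‖x * aeval x a.divX‖ < ‖((a.coeff 0 : ℤ) : W)‖ := by
    rw [odd_eq h2 _ ha, norm_mul]
    calc ‖x‖ * ‖aeval x a.divX‖ ≤ ‖x‖ * 1 :=
          mul_le_mul_of_nonneg_left (aeval_le _ _ hx.le) (norm_nonneg _)
      _ < 1 := by rw [mul_one]; exact hx
  rw [split a x, add_eq h1, odd_eq h2 _ ha]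

/-- a polynomial relation `x ^ D = - 2 c(x)` with `c(0)` odd makes the value group of
`ℤ[x]` equal to the powers of `‖x‖` -/
theorem vals (h2 : ‖(2 : W)‖ < 1) (x : W) (hx : ‖x‖ < 1) (m : ℕ) (c : ℤ[X])
    (hc : Odd (c.coeff 0)) (h : x ^ (m + 1) + 2 * aeval x c = 0) (N : ℕ) :
    ∀ a : ℤ[X], ‖x‖ ^ N < ‖aeval x a‖ → ∃ j : ℕ, ‖aeval x a‖ = ‖x‖ ^ j := by
  have hc1 : ‖aeval x c‖ = 1 := aeval_odd h2 c x hx hc
  induction N with
  | zero =>
    intro a ha
    rw [pow_zero] at ha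
    exact absurd ha (not_lt.2 (aeval_le a x hx.le))
  | succ N ih =>
    intro a ha
    rcases Int.even_or_odd (a.coeff 0) with he | ho
    · obtain ⟨b, hb⟩ := he
      have h3 : aeval x c * aeval x a = x * aeval x (a.divX * c - X ^ m * C b) := by
        rw [split a x, hb]
        simp only [map_sub, map_mul, map_pow, aeval_X, aeval_C]
        simp only [algebraMap_int_eq, eq_intCast, Int.cast_add]
        linear_combination (b : W) * h
      have h4 : ‖aeval x a‖ = ‖x‖ * ‖aeval x (a.divX * c - X ^ m * C b)‖ := by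
        rw [← norm_mul, ← h3, norm_mul, hc1, one_mul]
      have hx0 : 0 < ‖x‖ := by
        rcases (norm_nonneg x).lt_or_eq with h5 | h5
        · exact h5
        · rw [h4, ← h5] at ha
          simp at ha
      have h5 : ‖x‖ ^ N < ‖aeval x (a.divX * c - X ^ m * C b)‖ := by
        rw [h4, pow_succ, mul_comm] at ha
        exact lt_of_mul_lt_mul_left ha hx0.le
      obtain ⟨j, hj⟩ := ih _ h5
      exact ⟨j + 1, by rw [h4, hj, pow_succ, mul_comm]⟩
    · exact ⟨0, by rw [aeval_odd h2 a x hx ho, pow_zero]⟩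

end gen

/-- the difference of consecutive denominators -/
theorem Ep (m : ℕ) : ∃ c : ℤ[X], Dp (m + 1) + Dp m = X ^ (2 ^ m - 1) + 2 * c ∧
    (1 ≤ m → Odd (c.coeff 0)) := by
  induction m with
  | zero => exact ⟨0, by simp [Dp], by intro h; omega⟩
  | succ m ih =>
    obtain ⟨c, hc, -⟩ := ih
    refine ⟨2 * X ^ (2 ^ m - 1 + 1) * c + 2 * X * c ^ 2 + 1 - X * (Dp (m + 1) * Dp m), ?_, ?_⟩
    · have h1 : Dp (m + 1 + 1) = X * (Dp (m + 1)) ^ 2 + 1 := rfl
      have h2 : Dp (m + 1) = X * (Dp m) ^ 2 + 1 := rfl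
      have h3 : (2 : ℕ) ^ (m + 1) - 1 = (2 ^ m - 1) + (2 ^ m - 1) + 1 := by
        have : 1 ≤ 2 ^ m := Nat.one_le_two_pow
        rw [pow_succ]; omega
      have h4 : Dp (m + 1 + 1) + Dp (m + 1) = X * (Dp (m + 1) + Dp m) ^ 2 +
          2 * (1 - X * (Dp (m + 1) * Dp m)) := by
        rw [h1]
        generalize Dp (m + 1) = A at h2 ⊢
        rw [h2]
        ring
      rw [h4, hc, h3]
      ring
    · intro _
      simp [mul_assoc, coeff_zero_eq_eval_zero]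

theorem Dp_coeff (m : ℕ) : (Dp (m + 1)).coeff 0 = 1 := by
  simp [Dp, coeff_zero_eq_eval_zero]

section gen2

variable {W : Type*} [NormedField W] [IsUltrametricDist W]

theorem le_one (x : W) (r : ℕ) (h : aeval x (Dp (r + 1) + Dp (r + 2)) = 0) : ‖x‖ ≤ 1 := by
  by_contra hx
  rw [not_le] at hx
  have step : ∀ d : W, 1 ≤ ‖d‖ → ‖x * d ^ 2 + 1‖ = ‖x‖ * ‖d‖ ^ 2 ∧ ‖d‖ < ‖x‖ * ‖d‖ ^ 2 := by
    intro d hd
    have h1 : ‖d‖ < ‖x‖ * ‖d‖ ^ 2 := by
      calc ‖d‖ ≤ ‖d‖ ^ 2 := by nlinarith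
        _ = 1 * ‖d‖ ^ 2 := (one_mul _).symm
        _ < ‖x‖ * ‖d‖ ^ 2 := mul_lt_mul_of_pos_right hx (by positivity)
    have h2 : ‖(1 : W)‖ < ‖x * d ^ 2‖ := by
      rw [norm_one, norm_mul, norm_pow]
      exact lt_of_le_of_lt hd h1
    exact ⟨by rw [add_eq h2, norm_mul, norm_pow], h1⟩
  have hs : ∀ m : ℕ, aeval x (Dp (m + 1)) = x * (aeval x (Dp m)) ^ 2 + 1 := by
    intro m
    simp [Dp]
  have h1 : ∀ m : ℕ, 1 ≤ ‖aeval x (Dp (m + 1))‖ := by
    intro m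
    induction m with
    | zero => simp [Dp]
    | succ m ih =>
      rw [hs (m + 1), (step _ ih).1]
      exact ih.trans (step _ ih).2.le
  have h3 := step _ (h1 r)
  rw [map_add, hs (r + 1), add_comm] at h
  have h4 : x * (aeval x (Dp (r + 1))) ^ 2 + 1 = - aeval x (Dp (r + 1)) := by
    linear_combination h
  have h5 := h3.1
  rw [h4, norm_neg] at h5
  exact absurd h3.2 (by rw [← h5]; exact lt_irrefl _)

theorem valQ [CharZero W] (h20 : ‖(2 : W)‖ < 1) (x : W) (hx : ‖x‖ < 1) (hx0 : 0 < ‖x‖) (m : ℕ)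
    (c : ℤ[X]) (hc : Odd (c.coeff 0)) (h : x ^ (m + 1) + 2 * aeval x c = 0) (f : ℚ[X])
    (hf : aeval x f ≠ 0) : ∃ i : ℤ, ‖aeval x f‖ = ‖x‖ ^ i := by
  have key : ∀ a : ℤ[X], aeval x a ≠ 0 → ∃ j : ℕ, ‖aeval x a‖ = ‖x‖ ^ j := by
    intro a ha
    obtain ⟨N, hN⟩ := exists_pow_lt_of_lt_one (norm_pos_iff.2 ha) hx
    exact vals h20 x hx m c hc h N a hN
  obtain ⟨b, hbm, hb⟩ := IsLocalization.integerNormalization_spec (nonZeroDivisors ℤ) f
  have hb0 : (b : ℤ) ≠ 0 := nonZeroDivisors.ne_zero hbm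
  set a := IsLocalization.integerNormalization (nonZeroDivisors ℤ) f with hadef
  have h1 : aeval x a = ((b : ℤ) : W) * aeval x f := by
    have h2 : aeval x (a.map (algebraMap ℤ ℚ)) = aeval x a := aeval_map_algebraMap ℚ x a
    rw [← h2, hb, map_zsmul, zsmul_eq_mul]
  have hbW : ((b : ℤ) : W) ≠ 0 := by exact_mod_cast hb0
  have h3 : aeval x a ≠ 0 := by rw [h1]; exact mul_ne_zero hbW hf
  obtain ⟨j, hj⟩ := key a h3
  obtain ⟨k, hk⟩ := key (C (b : ℤ)) (by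
    rw [aeval_C]
    simpa using hbW)
  have hk' : ‖((b : ℤ) : W)‖ = ‖x‖ ^ k := by
    rw [← hk, aeval_C]
    simp
  refine ⟨(j : ℤ) - k, ?_⟩
  have h4 : ‖x‖ ^ j = ‖x‖ ^ k * ‖aeval x f‖ := by
    rw [← hj, h1, norm_mul, hk']
  rw [zpow_sub₀ hx0.ne', zpow_natCast, zpow_natCast, h4]
  field_simp

theorem zlt {ρ : ℝ} (h0 : 0 < ρ) (h1 : ρ < 1) {i j : ℤ} : ρ ^ i < ρ ^ j ↔ j < i :=
  zpow_lt_zpow_iff_right_of_lt_one₀ h0 h1

theorem zinj {ρ : ℝ} (h0 : 0 < ρ) (h1 : ρ < 1) {i j : ℤ} (h : ρ ^ i = ρ ^ j) : i = j := by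
  rcases lt_trichotomy i j with h2 | h2 | h2
  · exact absurd h ((zlt h0 h1).2 h2).ne'
  · exact h2
  · exact absurd h ((zlt h0 h1).2 h2).ne

theorem core [CharZero W] (h2 : ‖(2 : W)‖ < 1) (x : W) (r : ℕ) (hr : 1 ≤ r)
    (h : aeval x (Np r) = 0) (s : ℤ) (hs : Sg s) (g : ℚ[X])
    (hg : aeval x (C s * Dp r * Dp (r + 1)) = (aeval x g) ^ 2) : False := by
  have hle : ‖x‖ ≤ 1 := le_one x r h
  obtain ⟨c, hc, hodd⟩ := Ep (r + 1)
  have hodd := hodd (by omega)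
  have hD1 : (2 : ℕ) ^ (r + 1) - 1 = (2 ^ (r + 1) - 2) + 1 := by
    have : 2 ≤ 2 ^ (r + 1) := by
      rw [pow_succ]
      have : 1 ≤ 2 ^ r := Nat.one_le_two_pow
      omega
    omega
  have hrel : x ^ (2 ^ (r + 1) - 1) + 2 * aeval x c = 0 := by
    have h3 : aeval x (Dp (r + 1 + 1) + Dp (r + 1)) = 0 := by
      rw [← h, Np, add_comm]
    rw [hc] at h3
    have h4 : aeval x (2 : ℤ[X]) = 2 := map_ofNat _ 2
    rw [map_add, map_mul, map_pow, aeval_X, h4] at h3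
    exact h3
  have h2pos : 0 < ‖(2 : W)‖ := norm_pos_iff.2 two_ne_zero
  have hlt : ‖x‖ < 1 := by
    rcases hle.lt_or_eq with h3 | h3
    · exact h3
    · exfalso
      have h4 : x ^ (2 ^ (r + 1) - 1) = - (2 * aeval x c) := by linear_combination hrel
      have h5 : ‖x ^ (2 ^ (r + 1) - 1)‖ = ‖(2 : W)‖ * ‖aeval x c‖ := by
        rw [h4, norm_neg, norm_mul]
      rw [norm_pow, h3, one_pow] at h5
      have h6 := aeval_le c x hle
      nlinarith
  have hc1 : ‖aeval x c‖ = 1 := aeval_odd h2 c x hlt hodd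
  have hD : ‖x‖ ^ (2 ^ (r + 1) - 1) = ‖(2 : W)‖ := by
    have h4 : x ^ (2 ^ (r + 1) - 1) = - (2 * aeval x c) := by linear_combination hrel
    rw [← norm_pow, h4, norm_neg, norm_mul, hc1, mul_one]
  have hx0 : 0 < ‖x‖ := by
    rcases (norm_nonneg x).lt_or_eq with h3 | h3
    · exact h3
    · exfalso
      rw [← h3, hD1, zero_pow (by omega)] at hD
      exact h2pos.ne hD
  have hval : ∀ f : ℚ[X], aeval x f ≠ 0 → ∃ i : ℤ, ‖aeval x f‖ = ‖x‖ ^ i :=
    fun f hf => valQ h2 x hlt hx0 (2 ^ (r + 1) - 2) c hodd (by rw [← hD1]; exact hrel) f hf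
  obtain ⟨c', hc', -⟩ := Ep r
  -- the exponents
  obtain ⟨k, hk, hk1⟩ : ∃ k : ℕ, 2 ^ r - 1 = 2 * k + 1 ∧ 2 ^ (r + 1) - 1 = 4 * k + 3 := by
    obtain ⟨q, rfl⟩ : ∃ q, r = q + 1 := ⟨r - 1, by omega⟩
    have h3 : 1 ≤ 2 ^ q := Nat.one_le_two_pow
    refine ⟨2 ^ q - 1, ?_, ?_⟩
    · rw [pow_succ]; omega
    · rw [pow_succ, pow_succ]; omega
  rw [hk1] at hD
  rw [hk] at hc'
  set A := aeval x (Dp r) with hA
  set A' := aeval x (Dp (r + 1)) with hA'
  set G := aeval x g with hG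
  have nA : ‖A‖ = 1 := by
    obtain ⟨q, rfl⟩ : ∃ q, r = q + 1 := ⟨r - 1, by omega⟩
    exact aeval_odd h2 _ x hlt (by rw [Dp_coeff]; exact odd_one)
  have nA' : ‖A'‖ = 1 := aeval_odd h2 _ x hlt (by rw [Dp_coeff]; exact odd_one)
  have hE : A' + A = x ^ (2 * k + 1) + 2 * aeval x c' := by
    have h3 := congrArg (aeval x) hc'
    have h4 : aeval x (2 : ℤ[X]) = 2 := map_ofNat _ 2
    rw [map_add, map_add, map_mul, map_pow, aeval_X, h4] at h3
    exact h3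
  have nE : ‖A' + A‖ = ‖x‖ ^ (2 * k + 1) := by
    have h3 : ‖2 * aeval x c'‖ < ‖x ^ (2 * k + 1)‖ := by
      rw [norm_mul, norm_pow, ← hD]
      calc ‖x‖ ^ (4 * k + 3) * ‖aeval x c'‖ ≤ ‖x‖ ^ (4 * k + 3) * 1 :=
            mul_le_mul_of_nonneg_left (aeval_le _ _ hle) (by positivity)
        _ < ‖x‖ ^ (2 * k + 1) := by
            rw [mul_one]
            exact pow_lt_pow_right_of_lt_one₀ hx0 hlt (by omega)
    rw [hE, add_eq h3, norm_pow]
  have hg' : (s : W) * A * A' = G ^ 2 := by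
    rw [← hg]
    simp [hA, hA']
  -- the case of `± 2`
  have case2 : ‖(s : W)‖ = ‖(2 : W)‖ → False := by
    intro hs2
    have h3 : ‖G‖ ^ 2 = ‖x‖ ^ (4 * k + 3) := by
      rw [← norm_pow, ← hg', norm_mul, norm_mul, nA, nA', hs2, hD]
      ring
    have hG0 : G ≠ 0 := by
      intro h4
      rw [h4, norm_zero] at h3
      have : 0 < ‖x‖ ^ (4 * k + 3) := by positivity
      rw [← h3] at this
      norm_num at this
    obtain ⟨i, hi⟩ := hval g hG0
    rw [← hG] at hi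
    rw [hi, ← zpow_natCast, ← zpow_mul, ← zpow_natCast] at h3
    have h5 := zinj hx0 hlt h3
    push_cast at h5
    omega
  -- the case of `± 1`
  have case1 : ‖(G - A) * (G + A)‖ = ‖x‖ ^ (2 * k + 1) → False := by
    intro h3
    have h4 : G - A ≠ 0 := by
      intro h5
      rw [h5, zero_mul, norm_zero] at h3
      have : 0 < ‖x‖ ^ (2 * k + 1) := by positivity
      exact this.ne h3
    have h5 : G - A = aeval x (g - (Dp r).map (algebraMap ℤ ℚ)) := by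
      rw [map_sub, aeval_map_algebraMap, hG, hA]
    obtain ⟨i, hi⟩ := hval (g - (Dp r).map (algebraMap ℤ ℚ)) (by rw [← h5]; exact h4)
    rw [← h5] at hi
    have h6 : G + A = (G - A) + 2 * A := by ring
    have h7 : ‖2 * A‖ = ‖x‖ ^ ((4 * k + 3 : ℕ) : ℤ) := by
      rw [norm_mul, nA, mul_one, ← hD, zpow_natCast]
    rcases lt_or_ge i ((4 * k + 3 : ℕ) : ℤ) with h8 | h8
    · have h9 : ‖2 * A‖ < ‖G - A‖ := by
        rw [h7, hi]
        exact (zlt hx0 hlt).2 h8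
      have h10 : ‖G + A‖ = ‖x‖ ^ i := by
        rw [h6, add_eq h9, hi]
      rw [norm_mul, hi, h10, ← zpow_add₀ hx0.ne', ← zpow_natCast] at h3
      have := zinj hx0 hlt h3
      push_cast at this
      omega
    · have h9 : ‖G - A‖ ≤ ‖x‖ ^ (4 * k + 3) := by
        rw [hi, ← zpow_natCast]
        exact zpow_le_zpow_right_of_le_one₀ hx0 hle h8
      have h10 : ‖G + A‖ ≤ ‖x‖ ^ (4 * k + 3) := by
        rw [h6]
        refine (add_le _ _).trans (max_le h9 ?_)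
        rw [h7, zpow_natCast]
      have h11 : ‖(G - A) * (G + A)‖ ≤ ‖x‖ ^ (4 * k + 3) * ‖x‖ ^ (4 * k + 3) := by
        rw [norm_mul]
        exact mul_le_mul h9 h10 (norm_nonneg _) (by positivity)
      rw [h3, ← pow_add] at h11
      have h12 : ‖x‖ ^ (4 * k + 3 + (4 * k + 3)) < ‖x‖ ^ (2 * k + 1) :=
        pow_lt_pow_right_of_lt_one₀ hx0 hlt (by omega)
      exact absurd h11 (not_le.2 h12)
  rcases hs with rfl | rfl | rfl | rfl
  · -- `s = 1`
    apply case1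
    have h3 : (G - A) * (G + A) = (A' + A) * A + (-2 * A ^ 2) := by
      linear_combination -hg'
    have h4 : ‖-2 * A ^ 2‖ < ‖(A' + A) * A‖ := by
      rw [norm_mul, norm_neg, norm_pow, nA, norm_mul, nE, nA, one_pow, mul_one, mul_one, ← hD]
      exact pow_lt_pow_right_of_lt_one₀ hx0 hlt (by omega)
    rw [h3, add_eq h4, norm_mul, nE, nA, mul_one]
  · -- `s = -1`
    apply case1
    have h3 : (G - A) * (G + A) = -((A' + A) * A) := by
      linear_combination -hg'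
    rw [h3, norm_neg, norm_mul, nE, nA, mul_one]
  · exact case2 (by simp)
  · exact case2 (by simp)

end gen2

theorem deg_ne (W : Type*) [Field W] [CharZero W] (r : ℕ) :
    ((Np r).map (algebraMap ℤ W)).degree ≠ 0 := by
  obtain ⟨c, hc, -⟩ := Ep (r + 1)
  have h1 : (Np r).coeff (2 ^ (r + 1) - 1) = 1 + 2 * c.coeff (2 ^ (r + 1) - 1) := by
    have h2 : Np r = X ^ (2 ^ (r + 1) - 1) + C 2 * c := by
      rw [Np, add_comm, hc]
      rfl
    rw [h2, coeff_add, coeff_X_pow_self, coeff_C_mul]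
  have h2 : ((Np r).map (algebraMap ℤ W)).coeff (2 ^ (r + 1) - 1) ≠ 0 := by
    rw [coeff_map, h1]
    intro h3
    have h4 : (1 + 2 * c.coeff (2 ^ (r + 1) - 1) : ℤ) = 0 := by
      have h5 : (((1 + 2 * c.coeff (2 ^ (r + 1) - 1) : ℤ)) : W) = 0 := by
        simpa using h3
      exact_mod_cast h5
    omega
  have h3 := le_degree_of_ne_zero h2
  intro h4
  rw [h4] at h3
  have h5 : 2 ^ (r + 1) - 1 ≤ 0 := by exact_mod_cast h3
  have h6 : 1 ≤ 2 ^ r := Nat.one_le_two_pow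
  rw [pow_succ] at h5
  omega

theorem two_lt : ‖(2 : PadicAlgCl 2)‖ < 1 := by
  have h1 : ‖((2 : ℚ_[2]) : PadicAlgCl 2)‖ = ‖(2 : ℚ_[2])‖ := PadicAlgCl.norm_extends 2 2
  have h2 : ‖(2 : ℚ_[2])‖ < 1 := by
    have := Padic.norm_p (p := 2)
    norm_num at this
    rw [this]
    norm_num
  have h3 : ((2 : ℚ_[2]) : PadicAlgCl 2) = 2 := map_ofNat _ 2
  rw [h3] at h1
  rw [h1]
  exact h2

end NSQ_

open NSQ_ in
theorem nsq_proof : Stmt_NSQ := by
  intro r s hr hs g hdvd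
  obtain ⟨x, hx⟩ : ∃ x : PadicAlgCl 2, aeval x (Np r) = 0 := by
    have hdeg : ((Np r).map (algebraMap ℤ (PadicAlgCl 2))).degree ≠ 0 := deg_ne _ r
    obtain ⟨x, hx⟩ := IsAlgClosed.exists_root _ hdeg
    refine ⟨x, ?_⟩
    rw [IsRoot.def, eval_map_algebraMap] at hx
    exact hx
  obtain ⟨q, hq⟩ := hdvd
  refine core two_lt x r hr hx s hs g ?_
  have h1 := congrArg (aeval x) hq
  rw [map_sub, map_mul, map_pow] at h1
  have h2 : ∀ a : ℤ[X], aeval x (a.map (Int.castRingHom ℚ)) = aeval x a := by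
    intro a
    exact aeval_map_algebraMap ℚ x a
  rw [h2, h2, hx, zero_mul] at h1
  exact sub_eq_zero.1 h1

end Pool.Agent.ARL
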