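import Pool.Agent.ARL.Stmts

set_option autoImplicit false

namespace Pool.Agent.ARL

open Polynomial Filter Topology NumberField IsDedekindDomain
open Pool.Agent.Arb (iter level ht cnt crit D)

namespace RAD_

theorem rad_pos (n : ℕ) : 0 < rad n :=
  Finset.prod_pos fun _ hp => (Nat.prime_of_mem_primeFactors hp).pos

theorem rad_dvd_rad {a b : ℕ} (h : a ∣ b) (hb : b ≠ 0) : rad a ∣ rad b :=
  Finset.prod_dvd_prod_of_subset _ _ _ (Nat.primeFactors_mono h hb)

theorem rad_sqf {y : ℕ} (h : Squarefree y) : rad y = y := Nat.prod_primeFactors_of_squarefree h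

/-- the function to be summed -/
noncomputable def f (s : ℕ) : ℝ := 1 / ((s : ℝ) * rad s)

theorem f_nonneg (s : ℕ) : 0 ≤ f s := by unfold f; positivity

theorem f_summable : Summable f := by
  have hex : ∀ s : ℕ, ∃ q : ℕ × ℕ, q.1 ^ 2 * q.2 = s ∧ Squarefree q.2 := by
    intro s
    obtain ⟨a, b, h1, h2⟩ := Nat.sq_mul_squarefree s
    exact ⟨(b, a), h1, h2⟩
  choose φ hφ1 hφ2 using hex
  have hinj : Function.Injective φ := by
    intro s t h
    rw [← hφ1 s, ← hφ1 t, h]
  have hg : Summable fun q : ℕ × ℕ => (1 / (q.1 : ℝ) ^ 2) * (1 / (q.2 : ℝ) ^ 2) := by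
    have h1 : Summable fun n : ℕ => 1 / (n : ℝ) ^ 2 := Real.summable_one_div_nat_pow.2 one_lt_two
    exact h1.mul_of_nonneg h1 (fun n => by positivity) (fun n => by positivity)
  refine Summable.of_nonneg_of_le f_nonneg ?_ (hg.comp_injective hinj)
  intro s
  show f s ≤ (1 / ((φ s).1 : ℝ) ^ 2) * (1 / ((φ s).2 : ℝ) ^ 2)
  rcases Nat.eq_zero_or_pos s with h0 | h0
  · rw [h0]
    unfold f
    simp only [Nat.cast_zero, zero_mul, div_zero]
    positivity
  · obtain ⟨x, hx⟩ : ∃ x, x = (φ s).1 := ⟨_, rfl⟩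
    obtain ⟨y, hy⟩ : ∃ y, y = (φ s).2 := ⟨_, rfl⟩
    have h1 := hφ1 s
    have h2 := hφ2 s
    rw [← hx, ← hy] at *
    have hx0 : 0 < x := by
      rcases Nat.eq_zero_or_pos x with h | h
      · rw [h] at h1; simp at h1; omega
      · exact h
    have hy0 : 0 < y := by
      rcases Nat.eq_zero_or_pos y with h | h
      · rw [h] at h1; simp at h1; omega
      · exact h
    have hyr : y ≤ rad s := by
      have h3 : rad y ∣ rad s := rad_dvd_rad ⟨x ^ 2, by rw [← h1]; ring⟩ h0.ne'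
      rw [rad_sqf h2] at h3
      exact Nat.le_of_dvd (rad_pos s) h3
    have hxr : (0 : ℝ) < x := by exact_mod_cast hx0
    have hyr0 : (0 : ℝ) < y := by exact_mod_cast hy0
    have h4 : (1 / (x : ℝ) ^ 2) * (1 / (y : ℝ) ^ 2) = 1 / ((x : ℝ) ^ 2 * y * y) := by
      field_simp
    rw [h4]
    unfold f
    refine one_div_le_one_div_of_le (by positivity) ?_
    have h5 : (s : ℝ) = (x : ℝ) ^ 2 * y := by
      rw [← h1]; push_cast; ring
    rw [h5]
    refine mul_le_mul_of_nonneg_left ?_ (by positivity)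
    exact_mod_cast hyr

theorem key {n : ℕ} (hn : 1 ≤ n) : ∃ s, s * rad n = n ∧ s * rad s ∣ n ∧ s ≤ n := by
  have h1 : rad n ∣ n := Nat.prod_primeFactors_dvd n
  obtain ⟨s, hs⟩ := h1
  refine ⟨s, by rw [mul_comm]; exact hs.symm, ?_, ?_⟩
  · have h2 : s ∣ n := ⟨rad n, by rw [mul_comm]; exact hs⟩
    have h3 := mul_dvd_mul_left s (rad_dvd_rad h2 (by omega))
    have h4 : s * rad n = n := by rw [mul_comm]; exact hs.symm
    rwa [h4] at h3
  · exact Nat.le_of_dvd (by omega) ⟨rad n, by rw [mul_comm]; exact hs⟩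

end RAD_

open RAD_ in
theorem rad_proof : Stmt_RAD := by
  intro ε hε
  have htail := tendsto_sum_nat_add f
  have h1 : ∀ᶠ i in atTop, ∑' k, f (k + i) < ε := htail.eventually (gt_mem_nhds hε)
  obtain ⟨R0, hR0⟩ := eventually_atTop.1 h1
  refine ⟨R0, fun X => ?_⟩
  have h2 := hR0 (R0 + 1) (by omega)
  have hsub : (Finset.Icc 1 X).filter (fun n => R0 * rad n < n) ⊆
      (Finset.range X).biUnion fun k => (Finset.Ioc 0 X).filter fun n =>
        (k + (R0 + 1)) * rad (k + (R0 + 1)) ∣ n := by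
    intro n hn
    rw [Finset.mem_filter, Finset.mem_Icc] at hn
    obtain ⟨⟨hn1, hnX⟩, hlt⟩ := hn
    obtain ⟨s, hs1, hs2, hs3⟩ := key hn1
    have hRs : R0 < s := by
      have h3 : R0 * rad n < s * rad n := by rw [hs1]; exact hlt
      exact lt_of_mul_lt_mul_right h3 (Nat.zero_le _)
    rw [Finset.mem_biUnion]
    refine ⟨s - (R0 + 1), Finset.mem_range.2 (by omega), ?_⟩
    rw [Nat.sub_add_cancel hRs, Finset.mem_filter, Finset.mem_Ioc]
    exact ⟨⟨by omega, hnX⟩, hs2⟩
  have hcard : (((Finset.Icc 1 X).filter (fun n => R0 * rad n < n)).card : ℝ) ≤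
      ∑ k ∈ Finset.range X, (X : ℝ) * f (k + (R0 + 1)) := by
    have h3 := (Finset.card_le_card hsub).trans Finset.card_biUnion_le
    have h4 : ((∑ k ∈ Finset.range X, ((Finset.Ioc 0 X).filter fun n =>
        (k + (R0 + 1)) * rad (k + (R0 + 1)) ∣ n).card : ℕ) : ℝ) ≤
        ∑ k ∈ Finset.range X, (X : ℝ) * f (k + (R0 + 1)) := by
      push_cast
      refine Finset.sum_le_sum fun k _ => ?_
      rw [Nat.Ioc_filter_dvd_card_eq_div]
      refine (Nat.cast_div_le).trans ?_
      unfold f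
      push_cast
      rw [mul_one_div]
    refine le_trans ?_ h4
    exact_mod_cast h3
  refine hcard.trans ?_
  rw [← Finset.mul_sum, mul_comm]
  refine mul_le_mul_of_nonneg_right ?_ (Nat.cast_nonneg X)
  have h5 : Summable fun k => f (k + (R0 + 1)) := (summable_nat_add_iff (R0 + 1)).2 f_summable
  exact (h5.sum_le_tsum _ fun k _ => f_nonneg _).trans h2.le

end Pool.Agent.ARL
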