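import Pool.Agent.ARL.Stmts
import Pool.Agent.Arb.GalBase

/-!
# MP_5c2e18_nt, second theorem: module RAM
-/

set_option autoImplicit false

namespace Pool.Agent.ARL

open Polynomial Filter Topology NumberField IsDedekindDomain
open Pool.Agent.Arb (iter level ht cnt crit D phi)

namespace RAM_

/-- an absolute value on the algebraic closure of `ℚ` extending the `q`-adic one -/
structure AV (q : ℕ) (N : AlgebraicClosure ℚ → ℝ) : Prop where
  nonneg : ∀ x, 0 ≤ N x
  zero : ∀ x, N x = 0 ↔ x = 0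
  mul : ∀ x y, N (x * y) = N x * N y
  add : ∀ x y, N (x + y) ≤ max (N x) (N y)
  rat : ∀ r : ℚ, r ≠ 0 → N (algebraMap ℚ (AlgebraicClosure ℚ) r) = (q : ℝ) ^ (-padicValRat q r)

theorem exists_av (q : ℕ) [hq : Fact q.Prime] : ∃ N, AV q N := by
  have h1 : Algebra.IsAlgebraic ℚ (AlgebraicClosure ℚ) := AlgebraicClosure.isAlgebraic ℚ
  let ι : AlgebraicClosure ℚ →ₐ[ℚ] PadicAlgCl q := IsAlgClosed.lift
  refine ⟨fun x => ‖ι x‖, ?_, ?_, ?_, ?_, ?_⟩
  · intro x
    exact norm_nonneg _
  · intro x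
    show ‖ι x‖ = 0 ↔ x = 0
    rw [norm_eq_zero]
    exact map_eq_zero ι
  · intro x y
    show ‖ι (x * y)‖ = ‖ι x‖ * ‖ι y‖
    rw [map_mul, norm_mul]
  · intro x y
    show ‖ι (x + y)‖ ≤ max ‖ι x‖ ‖ι y‖
    rw [map_add]
    exact PadicAlgCl.isNonarchimedean q _ _
  · intro r hr
    show ‖ι (algebraMap ℚ (AlgebraicClosure ℚ) r)‖ = (q : ℝ) ^ (-padicValRat q r)
    have h2 : ι (algebraMap ℚ (AlgebraicClosure ℚ) r) =
        algebraMap ℚ_[q] (PadicAlgCl q) (r : ℚ_[q]) := by
      have h3 : (ι : AlgebraicClosure ℚ →+* PadicAlgCl q).comp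
          (algebraMap ℚ (AlgebraicClosure ℚ)) =
          (algebraMap ℚ_[q] (PadicAlgCl q)).comp (Rat.castHom ℚ_[q]) := Subsingleton.elim _ _
      exact congrArg (fun f => f r) h3
    rw [h2, PadicAlgCl.norm_extends, Padic.eq_padicNorm,
      padicNorm.eq_zpow_of_nonzero hr]
    push_cast
    rfl

variable {q : ℕ} {N : AlgebraicClosure ℚ → ℝ}

theorem AV.one (h : AV q N) : N 1 = 1 := by
  have h1 := h.mul 1 1
  rw [mul_one] at h1
  have h2 : N 1 ≠ 0 := by
    rw [Ne, h.zero]
    exact one_ne_zero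
  have h3 : N 1 * 1 = N 1 * N 1 := by rw [mul_one]; exact h1
  exact (mul_left_cancel₀ h2 h3).symm

theorem AV.neg (h : AV q N) (x : AlgebraicClosure ℚ) : N (-x) = N x := by
  have h1 : N (-x) * N (-x) = N x * N x := by
    rw [← h.mul, ← h.mul]
    congr 1
    ring
  nlinarith [h.nonneg x, h.nonneg (-x), mul_self_eq_mul_self_iff.1 h1]

theorem AV.sq (h : AV q N) (x : AlgebraicClosure ℚ) : N (x ^ 2) = N x ^ 2 := by
  rw [pow_two, h.mul, pow_two]

theorem AV.sub (h : AV q N) (x y : AlgebraicClosure ℚ) : N (x - y) ≤ max (N x) (N y) := by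
  have h1 := h.add x (-y)
  rw [h.neg, ← sub_eq_add_neg] at h1
  exact h1

/-- all nonzero values are integral powers of `q` -/
def Gd (q : ℕ) (N : AlgebraicClosure ℚ → ℝ) (F : IntermediateField ℚ (AlgebraicClosure ℚ)) :
    Prop := ∀ x ∈ F, x ≠ 0 → ∃ k : ℤ, N x = (q : ℝ) ^ k

/-- the elements `x + y t` -/
def ext (F : IntermediateField ℚ (AlgebraicClosure ℚ)) (t : AlgebraicClosure ℚ) (ht : t ∉ F)
    (ht2 : t ^ 2 ∈ F) : IntermediateField ℚ (AlgebraicClosure ℚ) where
  carrier := {z | ∃ x ∈ F, ∃ y ∈ F, z = x + y * t}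
  mul_mem' := by
    rintro _ _ ⟨x, hx, y, hy, rfl⟩ ⟨x', hx', y', hy', rfl⟩
    refine ⟨x * x' + y * y' * t ^ 2, F.add_mem (F.mul_mem hx hx')
      (F.mul_mem (F.mul_mem hy hy') ht2), x * y' + y * x',
      F.add_mem (F.mul_mem hx hy') (F.mul_mem hy hx'), by ring⟩
  add_mem' := by
    rintro _ _ ⟨x, hx, y, hy, rfl⟩ ⟨x', hx', y', hy', rfl⟩
    exact ⟨x + x', F.add_mem hx hx', y + y', F.add_mem hy hy', by ring⟩
  algebraMap_mem' := by
    intro r
    exact ⟨_, F.algebraMap_mem r, 0, F.zero_mem, by ring⟩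
  inv_mem' := by
    rintro _ ⟨x, hx, y, hy, rfl⟩
    by_cases hz : x + y * t = 0
    · rw [hz, inv_zero]
      exact ⟨0, F.zero_mem, 0, F.zero_mem, by ring⟩
    · have hz' : x - y * t ≠ 0 := by
        intro h0
        by_cases hy0 : y = 0
        · apply hz
          rw [hy0] at h0 ⊢
          linear_combination h0
        · apply ht
          have : t = x / y := by
            field_simp
            linear_combination -h0
          rw [this]
          exact F.div_mem hx hy
      have hm : x ^ 2 - y ^ 2 * t ^ 2 ∈ F := F.sub_mem (pow_mem hx 2) (F.mul_mem (pow_mem hy 2) ht2)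
      have hm0 : x ^ 2 - y ^ 2 * t ^ 2 ≠ 0 := by
        have : x ^ 2 - y ^ 2 * t ^ 2 = (x + y * t) * (x - y * t) := by ring
        rw [this]
        exact mul_ne_zero hz hz'
      refine ⟨x / (x ^ 2 - y ^ 2 * t ^ 2), F.div_mem hx hm, -y / (x ^ 2 - y ^ 2 * t ^ 2),
        F.div_mem (F.neg_mem hy) hm, ?_⟩
      rw [inv_eq_one_div, div_eq_iff hz]
      field_simp
      ring

theorem step (hN : AV q N) (hq : 0 < q) (h2 : N 2 = 1)
    {F : IntermediateField ℚ (AlgebraicClosure ℚ)}
    (hF : Gd q N F) {t : AlgebraicClosure ℚ} (ht2 : t ^ 2 ∈ F) (ht : N t = 1) :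
    ∃ F', Gd q N F' ∧ F ≤ F' ∧ t ∈ F' := by
  by_cases htF : t ∈ F
  · exact ⟨F, hF, le_refl F, htF⟩
  · refine ⟨ext F t htF ht2, ?_, ?_, ?_⟩
    · rintro z ⟨x, hx, y, hy, rfl⟩ hz
      have hq0 : (0 : ℝ) < q := by exact_mod_cast hq
      -- the conjugate
      have hz1 : N (x + y * t) ≤ max (N x) (N y) := by
        have h := hN.add x (y * t)
        rw [hN.mul, ht, mul_one] at h
        exact h
      have hz2 : N (x - y * t) ≤ max (N x) (N y) := by
        have h := hN.sub x (y * t)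
        rw [hN.mul, ht, mul_one] at h
        exact h
      have hx1 : N x ≤ max (N (x + y * t)) (N (x - y * t)) := by
        have h := hN.add (x + y * t) (x - y * t)
        have h3 : x + y * t + (x - y * t) = 2 * x := by ring
        rw [h3, hN.mul, h2, one_mul] at h
        exact h
      have hy1 : N y ≤ max (N (x + y * t)) (N (x - y * t)) := by
        have h := hN.sub (x + y * t) (x - y * t)
        have h3 : x + y * t - (x - y * t) = 2 * (y * t) := by ring
        rw [h3, hN.mul, h2, one_mul, hN.mul, ht, mul_one] at h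
        exact h
      -- the maximum is a power
      have hmax : ∃ k : ℤ, max (N x) (N y) = (q : ℝ) ^ k := by
        rcases le_total (N x) (N y) with h | h
        · rw [max_eq_right h]
          apply hF y hy
          rintro rfl
          apply hz
          rw [(hN.zero 0).2 rfl] at h
          have : x = 0 := (hN.zero x).1 (le_antisymm h (hN.nonneg x))
          rw [this]
          ring
        · rw [max_eq_left h]
          apply hF x hx
          rintro rfl
          apply hz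
          rw [(hN.zero 0).2 rfl] at h
          have : y = 0 := (hN.zero y).1 (le_antisymm h (hN.nonneg y))
          rw [this]
          ring
      obtain ⟨k, hk⟩ := hmax
      have hle : max (N x) (N y) ≤ max (N (x + y * t)) (N (x - y * t)) := max_le hx1 hy1
      rcases le_total (N (x - y * t)) (N (x + y * t)) with h | h
      · rw [max_eq_left h] at hle
        exact ⟨k, by rw [← hk]; exact le_antisymm hz1 hle⟩
      · rw [max_eq_right h] at hle
        have hk' : N (x - y * t) = (q : ℝ) ^ k := by rw [← hk]; exact le_antisymm hz2 hle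
        have hkpos : (0 : ℝ) < (q : ℝ) ^ k := zpow_pos hq0 k
        have hz' : x - y * t ≠ 0 := by
          intro h0
          rw [h0, (hN.zero 0).2 rfl] at hk'
          linarith
        have hm : (x + y * t) * (x - y * t) ∈ F := by
          have : (x + y * t) * (x - y * t) = x ^ 2 - y ^ 2 * t ^ 2 := by ring
          rw [this]
          exact F.sub_mem (pow_mem hx 2) (F.mul_mem (pow_mem hy 2) ht2)
        obtain ⟨l, hl⟩ := hF _ hm (mul_ne_zero hz hz')
        rw [hN.mul, hk'] at hl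
        refine ⟨l - k, ?_⟩
        rw [zpow_sub₀ hq0.ne', ← hl]
        field_simp
    · intro x hx
      exact ⟨x, hx, 0, F.zero_mem, by ring⟩
    · exact ⟨0, F.zero_mem, 1, F.one_mem, by ring⟩

theorem steps (hN : AV q N) (hq : 0 < q) (h2 : N 2 = 1)
    {F : IntermediateField ℚ (AlgebraicClosure ℚ)} (hF : Gd q N F)
    (T : Finset (AlgebraicClosure ℚ)) (hT : ∀ t ∈ T, t ^ 2 ∈ F ∧ N t = 1) :
    ∃ F', Gd q N F' ∧ F ≤ F' ∧ ∀ t ∈ T, t ∈ F' := by
  classical
  induction T using Finset.induction_on with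
  | empty => exact ⟨F, hF, le_refl F, by simp⟩
  | insert t T _ ih =>
    obtain ⟨F1, h1, h3, h4⟩ := ih (fun s hs => hT s (Finset.mem_insert_of_mem hs))
    have h5 := hT t (Finset.mem_insert_self t T)
    obtain ⟨F2, h6, h7, h8⟩ := step hN hq h2 h1 (h3 h5.1) h5.2
    refine ⟨F2, h6, h3.trans h7, fun s hs => ?_⟩
    rcases Finset.mem_insert.1 hs with rfl | hs
    · exact h8
    · exact h7 (h4 s hs)

theorem orb_one (c : ℚ) : orb c 1 = c := by
  simp [orb]

theorem phi_iter_orb (c : ℚ) (j : ℕ) : (phi c)^[j] (algebraMap ℚ (AlgebraicClosure ℚ) c) =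
    algebraMap ℚ (AlgebraicClosure ℚ) (orb c (j + 1)) := by
  have h := Pool.Agent.Arb.phi_orb c (j + 1)
  rw [Function.iterate_succ_apply] at h
  have h1 : phi c 0 = algebraMap ℚ (AlgebraicClosure ℚ) c := by simp [phi]
  rw [h1] at h
  exact h

/-- elements of the levels are integral -/
theorem level_le_one (hN : AV q N) {c : ℚ} (hc : N (algebraMap ℚ (AlgebraicClosure ℚ) c) = 1)
    (j : ℕ) : ∀ x ∈ level c j, N x ≤ 1 := by
  induction j with
  | zero =>
    intro x hx
    rw [Pool.Agent.Arb.mem_level_zero.1 hx, (hN.zero 0).2 rfl]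
    exact zero_le_one
  | succ j ih =>
    intro x hx
    have h1 := ih _ (Pool.Agent.Arb.mem_level_succ.1 hx)
    have h2 : x ^ 2 = phi c x - algebraMap ℚ (AlgebraicClosure ℚ) c := by
      rw [phi]
      ring
    have h3 := hN.sub (phi c x) (algebraMap ℚ (AlgebraicClosure ℚ) c)
    rw [← h2, hN.sq, hc] at h3
    have h4 : N x ^ 2 ≤ 1 := h3.trans (max_le h1 le_rfl)
    nlinarith [hN.nonneg x]

/-- contraction -/
theorem phi_contr (hN : AV q N) {c : ℚ} (hc : N (algebraMap ℚ (AlgebraicClosure ℚ) c) = 1)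
    (j : ℕ) : ∀ u v : AlgebraicClosure ℚ, N u ≤ 1 → N v ≤ 1 →
      N ((phi c)^[j] u - (phi c)^[j] v) ≤ N (u - v) := by
  induction j with
  | zero =>
    intro u v _ _
    exact le_refl _
  | succ j ih =>
    intro u v hu hv
    rw [Function.iterate_succ_apply, Function.iterate_succ_apply]
    have hph : ∀ w : AlgebraicClosure ℚ, N w ≤ 1 → N (phi c w) ≤ 1 := by
      intro w hw
      rw [phi]
      refine (hN.add _ _).trans (max_le ?_ hc.le)
      rw [hN.sq]
      exact pow_le_one₀ (hN.nonneg w) hw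
    refine (ih _ _ (hph u hu) (hph v hv)).trans ?_
    have h1 : phi c u - phi c v = (u - v) * (u + v) := by
      rw [phi, phi]
      ring
    rw [h1, hN.mul]
    have h2 : N (u + v) ≤ 1 := (hN.add _ _).trans (max_le hu hv)
    exact mul_le_of_le_one_right (hN.nonneg _) h2

theorem norm_level (hN : AV q N) {c : ℚ} (hc : N (algebraMap ℚ (AlgebraicClosure ℚ) c) = 1)
    {j : ℕ} (hj : N (algebraMap ℚ (AlgebraicClosure ℚ) (orb c (j + 1))) = 1) :
    ∀ y ∈ level c (j + 1), N y = 1 := by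
  intro y hy
  have hx := Pool.Agent.Arb.mem_level_succ.1 hy
  have hx1 := level_le_one hN hc j _ hx
  have h1 := phi_contr hN hc j (algebraMap ℚ (AlgebraicClosure ℚ) c) (phi c y) hc.le hx1
  rw [Pool.Agent.Arb.mem_level.1 hx, sub_zero, phi_iter_orb, hj] at h1
  have h2 : algebraMap ℚ (AlgebraicClosure ℚ) c - phi c y = -(y ^ 2) := by
    rw [phi]
    ring
  rw [h2, hN.neg, hN.sq] at h1
  have h3 := level_le_one hN hc (j + 1) y hy
  nlinarith [hN.nonneg y]

theorem tower (hN : AV q N) (hq : 0 < q) (h2 : N 2 = 1) {c : ℚ} (n : ℕ)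
    (hc : N (algebraMap ℚ (AlgebraicClosure ℚ) c) = 1)
    (h : ∀ m, 1 ≤ m → m ≤ n → N (algebraMap ℚ (AlgebraicClosure ℚ) (orb c m)) = 1) :
    ∃ F, Gd q N F ∧ level c n ⊆ (F : Set (AlgebraicClosure ℚ)) := by
  induction n with
  | zero =>
    refine ⟨⊥, ?_, ?_⟩
    · intro x hx hx0
      obtain ⟨r, rfl⟩ := IntermediateField.mem_bot.1 hx
      refine ⟨_, hN.rat r ?_⟩
      rintro rfl
      exact hx0 (map_zero _)
    · intro x hx
      rw [Pool.Agent.Arb.mem_level_zero.1 hx]
      exact zero_mem _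
  | succ n ih =>
    obtain ⟨F, hF, hl⟩ := ih (fun m h1 h3 => h m h1 (by omega))
    obtain ⟨F', hF', -, h4⟩ := steps hN hq h2 hF (Pool.Agent.Arb.lev c (n + 1)) (by
      intro t ht
      rw [Pool.Agent.Arb.mem_lev] at ht
      refine ⟨?_, norm_level hN hc (h (n + 1) (by omega) le_rfl) t ht⟩
      have h5 : t ^ 2 = phi c t - algebraMap ℚ (AlgebraicClosure ℚ) c := by
        rw [phi]
        ring
      rw [h5]
      exact F.sub_mem (hl (Pool.Agent.Arb.mem_level_succ.1 ht)) (F.algebraMap_mem c))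
    exact ⟨F', hF', fun x hx => h4 x (Pool.Agent.Arb.mem_lev.2 hx)⟩

end RAM_

theorem ram_proof : Stmt_RAM := by
  intro c n q hn hq hq2 hc horb hodd w hw hw2
  have : Fact q.Prime := ⟨hq⟩
  obtain ⟨N, hN⟩ := RAM_.exists_av q
  have hN2 : N 2 = 1 := by
    have h1 := hN.rat 2 two_ne_zero
    have h2 : padicValRat q 2 = 0 := by
      have h3 : padicValRat q (2 : ℕ) = padicValNat q 2 := padicValRat.of_nat
      have h4 : padicValNat q 2 = 0 := by
        apply padicValNat.eq_zero_of_not_dvd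
        intro hd
        exact hq2 ((Nat.prime_dvd_prime_iff_eq hq Nat.prime_two).1 hd)
      rw [h4] at h3
      exact_mod_cast h3
    rw [h2, neg_zero, zpow_zero] at h1
    rw [map_ofNat] at h1
    exact h1
  have hval : ∀ r : ℚ, r ≠ 0 → padicValRat q r = 0 →
      N (algebraMap ℚ (AlgebraicClosure ℚ) r) = 1 := by
    intro r hr h
    rw [hN.rat r hr, h, neg_zero, zpow_zero]
  have hc0 : c ≠ 0 := by
    have := (horb 1 le_rfl hn).1
    rwa [RAM_.orb_one] at this
  obtain ⟨F, hF, hl⟩ := RAM_.tower hN hq.pos hN2 n (hval c hc0 hc)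
    (fun m h1 h2 => hval _ (horb m h1 h2).1 (horb m h1 h2).2)
  have hwF : w ∈ F := by
    have h1 : KK c n ≤ F := IntermediateField.adjoin_le_iff.2 hl
    exact h1 hw
  have hr0 : orb c (n + 1) ≠ 0 := by
    intro h0
    rw [h0] at hodd
    simp at hodd
  have hw0 : w ≠ 0 := by
    rintro rfl
    rw [zero_pow two_ne_zero] at hw2
    exact hr0 ((map_eq_zero (algebraMap ℚ (AlgebraicClosure ℚ))).1 hw2.symm)
  obtain ⟨k, hk⟩ := hF w hwF hw0
  have h1 := hN.rat _ hr0
  rw [← hw2, hN.sq, hk, ← zpow_natCast, ← zpow_mul] at h1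
  have h2 : k * ((2 : ℕ) : ℤ) = -padicValRat q (orb c (n + 1)) := by
    apply zpow_right_injective₀ (a := (q : ℝ)) _ _ h1
    · exact_mod_cast hq.pos
    · exact_mod_cast hq.one_lt.ne'
  obtain ⟨l, hl'⟩ := hodd
  push_cast at h2
  omega

end Pool.Agent.ARL
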