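import Pool.Agent.ARL.Stmts

/-!
# MP_5c2e18_nt, second theorem: module SIE
-/

set_option autoImplicit false

namespace Pool.Agent.ARL

open Polynomial Filter Topology NumberField IsDedekindDomain
open Pool.Agent.Arb (iter level ht cnt crit D)

namespace SIE_

lemma finite_ht (B : ℕ) : {c : ℚ | ht c ≤ B}.Finite := by
  have hinj : Function.Injective (fun c : ℚ => (c.num, (c.den : ℤ))) := by
    intro c d h
    simp only [Prod.mk.injEq, Nat.cast_inj] at h
    exact Rat.ext h.1 h.2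
  have hfin : ((Finset.Icc (-(B : ℤ)) B ×ˢ Finset.Icc (0 : ℤ) B : Finset (ℤ × ℤ)) :
      Set (ℤ × ℤ)).Finite := Finset.finite_toSet _
  refine (hfin.preimage (f := fun c : ℚ => (c.num, (c.den : ℤ))) hinj.injOn).subset ?_
  intro c hc
  have hc' : max c.num.natAbs c.den ≤ B := hc
  have h1 : c.num.natAbs ≤ B := (le_max_left _ _).trans hc'
  have h2 : c.den ≤ B := (le_max_right _ _).trans hc'
  simp only [Set.mem_preimage, Finset.coe_product, Finset.coe_Icc, Set.mem_prod, Set.mem_Icc]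
  refine ⟨⟨by omega, by omega⟩, by omega, by exact_mod_cast h2⟩

lemma cnt_add (P : ℚ → Prop) (B : ℕ) :
    cnt P B + cnt (fun c => ¬ P c) B = cnt (fun _ => True) B := by
  unfold cnt
  have hf := finite_ht B
  have hd : Disjoint {c : ℚ | ht c ≤ B ∧ P c} {c : ℚ | ht c ≤ B ∧ ¬ P c} := by
    rw [Set.disjoint_left]
    rintro c ⟨_, h1⟩ ⟨_, h2⟩
    exact h2 h1
  rw [← Set.ncard_union_eq hd (hf.subset fun c hc => hc.1) (hf.subset fun c hc => hc.1)]
  congr 1
  ext c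
  simp only [Set.mem_union, Set.mem_ofPred_eq]
  tauto

/-- the counting bound -/
lemma count_le (Ω : ∀ p : ℕ, Set (ZMod p × ZMod p)) (S : Finset ℕ) (hS : ∀ p ∈ S, p.Prime)
    (B : ℕ) (P : ℚ → Prop)
    (hP : ∀ c, P c → ∀ p ∈ S, ((c.num : ZMod p), ((c.den : ℤ) : ZMod p)) ∉ Ω p) :
    cnt P B ≤ (2 * B / (∏ p ∈ S, p) + 1) * ((B / (∏ p ∈ S, p) + 1) *
      ∏ p ∈ S, (p ^ 2 - (Ω p).ncard)) := by
  classical
  set m : ℕ := ∏ p ∈ S, p with hm
  have hmpos : 0 < m := Finset.prod_pos fun p hp => (hS p hp).pos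
  have hne : ∀ p : S, NeZero (p : ℕ) := fun p => ⟨(hS p p.2).ne_zero⟩
  have hcard : ∀ p : S, Nat.card {x : ZMod (p : ℕ) × ZMod (p : ℕ) // x ∉ Ω (p : ℕ)}
      = (p : ℕ) ^ 2 - (Ω (p : ℕ)).ncard := by
    intro p
    have h1 : Nat.card {x : ZMod (p : ℕ) × ZMod (p : ℕ) // x ∉ Ω (p : ℕ)}
        = ((Ω (p : ℕ))ᶜ).ncard := by
      rw [← Nat.card_coe_set_eq]
      rfl
    rw [h1]
    have h2 := Set.ncard_add_ncard_compl (Ω (p : ℕ))
    rw [Nat.card_prod, Nat.card_zmod] at h2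
    rw [pow_two]
    omega
  have hT : Nat.card (Fin (2 * B / m + 1) × Fin (B / m + 1) ×
      ((p : S) → {x : ZMod (p : ℕ) × ZMod (p : ℕ) // x ∉ Ω (p : ℕ)}))
      = (2 * B / m + 1) * ((B / m + 1) * ∏ p ∈ S, (p ^ 2 - (Ω p).ncard)) := by
    rw [Nat.card_prod, Nat.card_prod, Nat.card_pi, Nat.card_eq_fintype_card,
      Nat.card_eq_fintype_card, Fintype.card_fin, Fintype.card_fin]
    congr 2
    exact (Finset.prod_congr rfl fun p _ => hcard p).trans
      (Finset.prod_coe_sort S (fun p => p ^ 2 - (Ω p).ncard))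
  rw [← hT]
  unfold cnt
  rw [← Nat.card_coe_set_eq]
  have hht : ∀ c : ℚ, ht c ≤ B → c.num.natAbs ≤ B ∧ c.den ≤ B := by
    intro c hc
    have hc' : max c.num.natAbs c.den ≤ B := hc
    exact ⟨(le_max_left _ _).trans hc', (le_max_right _ _).trans hc'⟩
  let f : {c : ℚ | ht c ≤ B ∧ P c} → Fin (2 * B / m + 1) × Fin (B / m + 1) ×
      ((p : S) → {x : ZMod (p : ℕ) × ZMod (p : ℕ) // x ∉ Ω (p : ℕ)}) := fun c =>
    (⟨(c.1.num + B).toNat / m, by
        have h := hht c.1 c.2.1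
        apply Nat.lt_succ_of_le
        apply Nat.div_le_div_right
        omega⟩,
      ⟨c.1.den / m, by
        have h := hht c.1 c.2.1
        apply Nat.lt_succ_of_le
        apply Nat.div_le_div_right
        exact h.2⟩,
      fun p => ⟨((c.1.num : ZMod (p : ℕ)), ((c.1.den : ℤ) : ZMod (p : ℕ))),
        hP c.1 c.2.2 p p.2⟩)
  have hpair : (S : Set ℕ).Pairwise (Function.onFun IsCoprime (fun p : ℕ => (p : ℤ))) := by
    intro p hp q hq hpq
    exact Nat.isCoprime_iff_coprime.2 ((Nat.coprime_primes (hS p hp) (hS q hq)).2 hpq)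
  have key : ∀ x y : ℤ, (∀ p ∈ S, (x : ZMod p) = (y : ZMod p)) → (m : ℤ) ∣ y - x := by
    intro x y h
    rw [hm]
    push_cast
    apply Finset.prod_dvd_of_coprime hpair
    intro p hp
    have := (ZMod.intCast_eq_intCast_iff_dvd_sub x y p).1 (h p hp)
    exact this
  have hf : Function.Injective f := by
    intro c d hcd
    simp only [f, Prod.mk.injEq, Fin.mk.injEq] at hcd
    obtain ⟨h1, h2, h3⟩ := hcd
    have h4 : ∀ p ∈ S, (c.1.num : ZMod p) = (d.1.num : ZMod p) ∧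
        ((c.1.den : ℤ) : ZMod p) = ((d.1.den : ℤ) : ZMod p) := by
      intro p hp
      have := congrFun h3 ⟨p, hp⟩
      have h5 := congrArg Subtype.val this
      simp only [Prod.mk.injEq] at h5
      exact h5
    have h5 := key _ _ fun p hp => (h4 p hp).1
    have h6 := key _ _ fun p hp => (h4 p hp).2
    have hc := hht c.1 c.2.1
    have hd := hht d.1 d.2.1
    have e1 : (c.1.num + B).toNat % m = (d.1.num + B).toNat % m := by
      have : ((c.1.num + B).toNat : ℤ) % m = ((d.1.num + B).toNat : ℤ) % m := by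
        rw [Int.toNat_of_nonneg (by omega), Int.toNat_of_nonneg (by omega)]
        exact ((Int.modEq_iff_dvd).2 h5).add_right (B : ℤ)
      exact_mod_cast this
    have e2 : c.1.den % m = d.1.den % m := by
      have : (c.1.den : ℤ) % m = (d.1.den : ℤ) % m := (Int.modEq_iff_dvd).2 h6
      exact_mod_cast this
    have e3 : (c.1.num + B).toNat = (d.1.num + B).toNat := by
      rw [← Nat.div_add_mod (c.1.num + B).toNat m, ← Nat.div_add_mod (d.1.num + B).toNat m, h1, e1]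
    have e4 : c.1.den = d.1.den := by
      rw [← Nat.div_add_mod c.1.den m, ← Nat.div_add_mod d.1.den m, h2, e2]
    apply Subtype.ext
    exact Rat.ext (by omega) e4
  exact Nat.card_le_card_of_injective f hf

/-- real form of the counting bound -/
lemma count_le_real (Ω : ∀ p : ℕ, Set (ZMod p × ZMod p)) (S : Finset ℕ)
    (hS : ∀ p ∈ S, p.Prime) (hΩ : ∀ p ∈ S, p ≤ 4 * (Ω p).ncard)
    (B : ℕ) (hB : ∏ p ∈ S, p ≤ B) (P : ℚ → Prop)
    (hP : ∀ c, P c → ∀ p ∈ S, ((c.num : ZMod p), ((c.den : ℤ) : ZMod p)) ∉ Ω p) :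
    (cnt P B : ℝ) ≤ 6 * Real.exp (-(1 / 4) * ∑ p ∈ S, (1 : ℝ) / p) * (B : ℝ) ^ 2 := by
  have h0 := count_le Ω S hS B P hP
  set m : ℕ := ∏ p ∈ S, p with hm
  have hmpos : 0 < m := Finset.prod_pos fun p hp => (hS p hp).pos
  have hm0 : (0 : ℝ) < m := by exact_mod_cast hmpos
  have hmB : (m : ℝ) ≤ B := by exact_mod_cast hB
  have h1 : ((2 * B / m + 1 : ℕ) : ℝ) ≤ 3 * B / m := by
    have : ((2 * B / m : ℕ) : ℝ) ≤ ((2 * B : ℕ) : ℝ) / m := Nat.cast_div_le
    push_cast at this ⊢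
    have h2 : (1 : ℝ) ≤ B / m := by rwa [le_div_iff₀ hm0, one_mul]
    calc ((2 * B / m : ℕ) : ℝ) + 1 ≤ 2 * B / m + B / m := by linarith
      _ = 3 * B / m := by ring
  have h2 : ((B / m + 1 : ℕ) : ℝ) ≤ 2 * B / m := by
    have : ((B / m : ℕ) : ℝ) ≤ ((B : ℕ) : ℝ) / m := Nat.cast_div_le
    push_cast at this ⊢
    have h2 : (1 : ℝ) ≤ B / m := by rwa [le_div_iff₀ hm0, one_mul]
    calc ((B / m : ℕ) : ℝ) + 1 ≤ B / m + B / m := by linarith
      _ = 2 * B / m := by ring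
  have h3 : ((∏ p ∈ S, (p ^ 2 - (Ω p).ncard) : ℕ) : ℝ) ≤
      (m : ℝ) ^ 2 * Real.exp (-(1 / 4) * ∑ p ∈ S, (1 : ℝ) / p) := by
    have h4 : (m : ℝ) ^ 2 * Real.exp (-(1 / 4) * ∑ p ∈ S, (1 : ℝ) / p) =
        ∏ p ∈ S, ((p : ℝ) ^ 2 * Real.exp (-(1 / 4) * (1 / p))) := by
      rw [Finset.prod_mul_distrib, Finset.prod_pow, ← Real.exp_sum, ← Finset.mul_sum, hm]
      push_cast
      rfl
    rw [h4]
    push_cast
    apply Finset.prod_le_prod
    · intro p _
      positivity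
    · intro p hp
      have hp0 : (0 : ℝ) < p := by exact_mod_cast (hS p hp).pos
      have h5 : (p : ℝ) ≤ 4 * ((Ω p).ncard : ℝ) := by exact_mod_cast hΩ p hp
      have h6 : 1 - 1 / (4 * (p : ℝ)) ≤ Real.exp (-(1 / 4) * (1 / p)) := by
        have := Real.add_one_le_exp (-(1 / 4) * (1 / (p : ℝ)))
        have h7 : -(1 / 4) * (1 / (p : ℝ)) + 1 = 1 - 1 / (4 * (p : ℝ)) := by
          field_simp
          ring
        linarith
      rcases le_total (Ω p).ncard (p ^ 2) with h | h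
      · rw [Nat.cast_sub h]
        push_cast
        have h8 : (p : ℝ) ^ 2 * (1 - 1 / (4 * (p : ℝ))) = (p : ℝ) ^ 2 - p / 4 := by
          field_simp
        have h9 : (p : ℝ) ^ 2 * (1 - 1 / (4 * (p : ℝ))) ≤
            (p : ℝ) ^ 2 * Real.exp (-(1 / 4) * (1 / p)) :=
          mul_le_mul_of_nonneg_left h6 (by positivity)
        linarith
      · rw [Nat.sub_eq_zero_of_le h]
        push_cast
        positivity
  calc (cnt P B : ℝ) ≤ ((2 * B / m + 1 : ℕ) : ℝ) * (((B / m + 1 : ℕ) : ℝ) *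
        ((∏ p ∈ S, (p ^ 2 - (Ω p).ncard) : ℕ) : ℝ)) := by exact_mod_cast h0
    _ ≤ (3 * B / m) * ((2 * B / m) *
        ((m : ℝ) ^ 2 * Real.exp (-(1 / 4) * ∑ p ∈ S, (1 : ℝ) / p))) := by
      gcongr
    _ = 6 * Real.exp (-(1 / 4) * ∑ p ∈ S, (1 : ℝ) / p) * (B : ℝ) ^ 2 := by
      field_simp
      ring

end SIE_

open scoped Classical in
theorem sie_proof (hTOT : Stmt_TOT) : Stmt_SIE := by
  intro Q Ω hQ hns
  obtain ⟨κ, hκ, hcnt⟩ := hTOT
  set P : ℚ → Prop := fun c => ∃ p, Q p ∧ ((c.num : ZMod p), ((c.den : ℤ) : ZMod p)) ∈ Ω p with hP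
  -- the sum over `Q` is unbounded
  have hbig : ∀ C : ℝ, ∃ S : Finset ℕ, (∀ p ∈ S, Q p) ∧ C < ∑ p ∈ S, (1 : ℝ) / p := by
    intro C
    by_contra hcon
    push Not at hcon
    apply hns
    apply summable_of_sum_le (c := C)
    · intro p
      dsimp only
      split_ifs
      · positivity
      · exact le_rfl
    · intro S
      rw [← Finset.sum_filter]
      exact hcon _ fun p hp => (Finset.mem_filter.1 hp).2
  unfold DensityOne
  rw [Metric.tendsto_nhds]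
  intro ε hε
  -- choose `S`
  obtain ⟨S, hSQ, hS⟩ := hbig (4 * Real.log (6 / (κ * ε)))
  have hexp : 6 * Real.exp (-(1 / 4) * ∑ p ∈ S, (1 : ℝ) / p) < κ * ε := by
    have h1 : -(1 / 4) * ∑ p ∈ S, (1 : ℝ) / p < -Real.log (6 / (κ * ε)) := by linarith
    have h2 := Real.exp_lt_exp.2 h1
    rw [Real.exp_neg, Real.exp_log (by positivity)] at h2
    calc 6 * Real.exp (-(1 / 4) * ∑ p ∈ S, (1 : ℝ) / p) < 6 * (6 / (κ * ε))⁻¹ := by linarith
      _ = κ * ε := by
        field_simp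
  filter_upwards [hcnt, eventually_ge_atTop (∏ p ∈ S, p), eventually_gt_atTop 0] with B h1 h2 h3
  have hB0 : (0 : ℝ) < (B : ℝ) ^ 2 := by positivity
  have hT : (0 : ℝ) < (cnt (fun _ => True) B : ℝ) := lt_of_lt_of_le (by positivity) h1
  have h4 : (cnt P B : ℝ) + (cnt (fun c => ¬ P c) B : ℝ) = (cnt (fun _ => True) B : ℝ) := by
    exact_mod_cast SIE_.cnt_add P B
  have h5 : (cnt (fun c => ¬ P c) B : ℝ) ≤
      6 * Real.exp (-(1 / 4) * ∑ p ∈ S, (1 : ℝ) / p) * (B : ℝ) ^ 2 := by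
    apply SIE_.count_le_real Ω S (fun p hp => (hQ p (hSQ p hp)).1)
      (fun p hp => (hQ p (hSQ p hp)).2) B h2
    intro c hc p hp hmem
    exact hc ⟨p, hSQ p hp, hmem⟩
  have h6 : (cnt P B : ℝ) / (cnt (fun _ => True) B : ℝ) - 1
      = -((cnt (fun c => ¬ P c) B : ℝ) / (cnt (fun _ => True) B : ℝ)) := by
    rw [← h4]
    have : (cnt P B : ℝ) + (cnt (fun c => ¬ P c) B : ℝ) ≠ 0 := by rw [h4]; exact hT.ne'
    field_simp
    ring
  rw [Real.dist_eq, h6, abs_neg, abs_of_nonneg (by positivity), div_lt_iff₀ hT]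
  calc (cnt (fun c => ¬ P c) B : ℝ) ≤
      6 * Real.exp (-(1 / 4) * ∑ p ∈ S, (1 : ℝ) / p) * (B : ℝ) ^ 2 := h5
    _ < κ * ε * (B : ℝ) ^ 2 := mul_lt_mul_of_pos_right hexp hB0
    _ = ε * (κ * (B : ℝ) ^ 2) := by ring
    _ ≤ ε * (cnt (fun _ => True) B : ℝ) := mul_le_mul_of_nonneg_left h1 hε.le

end Pool.Agent.ARL
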