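import Pool.Agent.ARL.Stmts

/-!
# Squad ARL (MP_5c2e18_nt): module SPL
-/

set_option autoImplicit false
set_option linter.deprecated false

namespace Pool.Agent.ARL

open Polynomial Filter Topology NumberField IsDedekindDomain

open Pool.Agent.Arb (iter level ht cnt crit D)

namespace SPL_

section

variable (K L : Type) [Field K] [NumberField K] [Field L] [NumberField L] [Algebra K L]

/-- two different primes over `P` have the same norm as `P`, when `[L : K] = 2` -/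
theorem norm_eq (hfin : Module.finrank K L = 2) (P : HeightOneSpectrum (𝓞 K))
    (Q Q' : Ideal (𝓞 L)) (hQp : Q.IsPrime) (hQ'p : Q'.IsPrime) (hQ : Q.LiesOver P.asIdeal)
    (hQ' : Q'.LiesOver P.asIdeal) (hne : Q ≠ Q') : Ideal.absNorm Q = Ideal.absNorm P.asIdeal := by
  classical
  have hPm : P.asIdeal.IsMaximal := P.isPrime.isMaximal P.ne_bot
  have hsum := Ideal.sum_ramification_inertia (R := 𝓞 K) (𝓞 L) K L (p := P.asIdeal) P.ne_bot
  have hm : ∀ I : Ideal (𝓞 L), I.IsPrime → I.LiesOver P.asIdeal →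
      I ∈ IsDedekindDomain.primesOverFinset P.asIdeal (𝓞 L) := by
    intro I h1 h2
    rw [IsDedekindDomain.mem_primesOverFinset_iff P.ne_bot]
    exact ⟨h1, h2⟩
  have hQm := hm Q hQp hQ
  have hQ'm := hm Q' hQ'p hQ'
  have hf : 1 ≤ Ideal.inertiaDeg' P.asIdeal Q :=
    Nat.one_le_iff_ne_zero.2 (Ideal.inertiaDeg'_ne_zero P.asIdeal Q)
  have hf' : 1 ≤ Ideal.inertiaDeg' P.asIdeal Q' :=
    Nat.one_le_iff_ne_zero.2 (Ideal.inertiaDeg'_ne_zero P.asIdeal Q')
  have he : 1 ≤ Ideal.ramificationIdx' P.asIdeal Q :=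
    Nat.one_le_iff_ne_zero.2
      (Ideal.IsDedekindDomain.ramificationIdx'_ne_zero_of_liesOver Q P.ne_bot)
  have he' : 1 ≤ Ideal.ramificationIdx' P.asIdeal Q' :=
    Nat.one_le_iff_ne_zero.2
      (Ideal.IsDedekindDomain.ramificationIdx'_ne_zero_of_liesOver Q' P.ne_bot)
  have h2 : ∑ I ∈ ({Q, Q'} : Finset (Ideal (𝓞 L))),
      Ideal.ramificationIdx' P.asIdeal I * Ideal.inertiaDeg' P.asIdeal I ≤ 2 := by
    rw [← hfin, ← hsum]
    refine Finset.sum_le_sum_of_subset ?_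
    intro I hI
    rw [Finset.mem_insert, Finset.mem_singleton] at hI
    rcases hI with rfl | rfl
    · exact hQm
    · exact hQ'm
  rw [Finset.sum_pair hne] at h2
  have h3 : 1 ≤ Ideal.ramificationIdx' P.asIdeal Q' * Ideal.inertiaDeg' P.asIdeal Q' :=
    Nat.mul_le_mul he' hf'
  have h4 : Ideal.inertiaDeg' P.asIdeal Q ≤
      Ideal.ramificationIdx' P.asIdeal Q * Ideal.inertiaDeg' P.asIdeal Q :=
    Nat.le_mul_of_pos_left _ he
  have h5 : Ideal.inertiaDeg' P.asIdeal Q = 1 := by omega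
  rw [Ideal.absNorm_eq_pow_inertiaDeg'_of_liesOver Q P.asIdeal P.isPrime P.ne_bot, h5, pow_one]

theorem exists_two (hfin : Module.finrank K L = 2) (β : 𝓞 K) (r : 𝓞 L)
    (hr : r ^ 2 = algebraMap (𝓞 K) (𝓞 L) β) (s : 𝓞 L →+* 𝓞 L)
    (hs : ∀ x : 𝓞 K, s (algebraMap (𝓞 K) (𝓞 L) x) = algebraMap (𝓞 K) (𝓞 L) x)
    (hsr : s r = -r) (P : HeightOneSpectrum (𝓞 K)) :
    ∃ q : Bool → HeightOneSpectrum (𝓞 L),
      (∀ i, (q i).asIdeal.LiesOver P.asIdeal) ∧
      (2 * β ∉ P.asIdeal → IsSquare (Ideal.Quotient.mk P.asIdeal β) →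
        q false ≠ q true ∧ ∀ i, Ideal.absNorm (q i).asIdeal = Ideal.absNorm P.asIdeal) := by
  obtain ⟨⟨Q, hQp, hQ⟩⟩ := Ideal.nonempty_primesOver (S := 𝓞 L) P.asIdeal
  have hne : ∀ I : Ideal (𝓞 L), I.LiesOver P.asIdeal → I ≠ ⊥ := by
    intro I hI h
    apply P.ne_bot
    rw [hI.over, h]
    exact Ideal.comap_bot_of_injective _ (FaithfulSMul.algebraMap_injective (𝓞 K) (𝓞 L))
  have hQ'p : (Q.comap s).IsPrime := Ideal.comap_isPrime s Q
  have hQ' : (Q.comap s).LiesOver P.asIdeal := by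
    refine ⟨?_⟩
    rw [hQ.over]
    ext x
    rw [Ideal.mem_comap, Ideal.mem_comap, Ideal.mem_comap, hs]
  refine ⟨fun i => if i then ⟨Q.comap s, hQ'p, hne _ hQ'⟩ else ⟨Q, hQp, hne _ hQ⟩, ?_, ?_⟩
  · intro i
    cases i
    · exact hQ
    · exact hQ'
  · intro h2 hsq
    have hQQ : Q ≠ Q.comap s := by
      intro heq
      obtain ⟨y, hy⟩ := hsq
      obtain ⟨x, rfl⟩ := Ideal.Quotient.mk_surjective y
      rw [← map_mul, Ideal.Quotient.eq] at hy
      have h3 : algebraMap (𝓞 K) (𝓞 L) (β - x * x) ∈ Q := by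
        have := hy
        rw [hQ.over] at this
        exact this
      have h4 : (r - algebraMap (𝓞 K) (𝓞 L) x) * (r + algebraMap (𝓞 K) (𝓞 L) x) ∈ Q := by
        have h5 : (r - algebraMap (𝓞 K) (𝓞 L) x) * (r + algebraMap (𝓞 K) (𝓞 L) x) =
            algebraMap (𝓞 K) (𝓞 L) (β - x * x) := by
          rw [map_sub, map_mul, ← hr]
          ring
        rw [h5]
        exact h3
      have h5 : ∀ z : 𝓞 L, z ∈ Q → s z ∈ Q := by
        intro z hz
        rw [heq] at hz
        exact hz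
      have h6 : r - algebraMap (𝓞 K) (𝓞 L) x ∈ Q ∧ r + algebraMap (𝓞 K) (𝓞 L) x ∈ Q := by
        rcases hQp.mem_or_mem h4 with h | h
        · refine ⟨h, ?_⟩
          have h7 := h5 _ h
          rw [map_sub, hs, hsr] at h7
          have h8 := Q.neg_mem h7
          have h9 : -(-r - algebraMap (𝓞 K) (𝓞 L) x) = r + algebraMap (𝓞 K) (𝓞 L) x := by ring
          rw [h9] at h8
          exact h8
        · refine ⟨?_, h⟩
          have h7 := h5 _ h
          rw [map_add, hs, hsr] at h7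
          have h8 := Q.neg_mem h7
          have h9 : -(-r + algebraMap (𝓞 K) (𝓞 L) x) = r - algebraMap (𝓞 K) (𝓞 L) x := by ring
          rw [h9] at h8
          exact h8
      have h7 : algebraMap (𝓞 K) (𝓞 L) (2 * β) ∈ Q := by
        have h8 := Q.add_mem h6.1 h6.2
        have h9 := Q.mul_mem_left r h8
        have h10 : r * (r - algebraMap (𝓞 K) (𝓞 L) x + (r + algebraMap (𝓞 K) (𝓞 L) x)) =
            algebraMap (𝓞 K) (𝓞 L) (2 * β) := by
          rw [map_mul, ← hr, map_ofNat]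
          ring
        rw [h10] at h9
        exact h9
      apply h2
      rw [hQ.over]
      exact h7
    refine ⟨?_, ?_⟩
    · intro h
      exact hQQ (congrArg HeightOneSpectrum.asIdeal h)
    · intro i
      cases i
      · exact norm_eq K L hfin P Q _ hQp hQ'p hQ hQ' hQQ
      · exact norm_eq K L hfin P _ Q hQ'p hQp hQ' hQ (Ne.symm hQQ)

end

theorem exists_L (K : Type) [Field K] (b : K) (hb : ¬ IsSquare b) :
    ∃ (L : Type) (_ : Field L) (_ : Algebra K L) (r : L) (σ : L →ₐ[K] L),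
      Module.finrank K L = 2 ∧ r ^ 2 = algebraMap K L b ∧ σ r = -r := by
  have hirr : Irreducible (X ^ 2 - C b : K[X]) := by
    refine X_pow_sub_C_irreducible_of_prime Nat.prime_two ?_
    intro c hc
    exact hb ⟨c, by rw [← hc, sq]⟩
  have hdeg : (X ^ 2 - C b : K[X]).natDegree = 2 := natDegree_X_pow_sub_C
  have : Fact (Irreducible (X ^ 2 - C b : K[X])) := ⟨hirr⟩
  have hroot : (AdjoinRoot.root (X ^ 2 - C b : K[X])) ^ 2 =
      algebraMap K (AdjoinRoot (X ^ 2 - C b : K[X])) b := by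
    have h1 := AdjoinRoot.eval₂_root (X ^ 2 - C b : K[X])
    rw [eval₂_sub, eval₂_pow, eval₂_X, eval₂_C, sub_eq_zero] at h1
    exact h1
  have hneg : (X ^ 2 - C b : K[X]).eval₂
      (Algebra.ofId K (AdjoinRoot (X ^ 2 - C b : K[X])) :
        K →+* AdjoinRoot (X ^ 2 - C b : K[X]))
      (-(AdjoinRoot.root (X ^ 2 - C b : K[X]))) = 0 := by
    rw [eval₂_sub, eval₂_pow, eval₂_X, eval₂_C, neg_sq, hroot, sub_eq_zero]
    rfl
  refine ⟨AdjoinRoot (X ^ 2 - C b : K[X]), inferInstance, inferInstance, AdjoinRoot.root _,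
    AdjoinRoot.liftAlgHom _ (Algebra.ofId K _) (-(AdjoinRoot.root (X ^ 2 - C b : K[X]))) hneg,
    ?_, hroot, AdjoinRoot.liftAlgHom_root _ _ _ _⟩
  have := (AdjoinRoot.powerBasis hirr.ne_zero).finrank
  rw [AdjoinRoot.powerBasis_dim, hdeg] at this
  exact this

end SPL_

open SPL_

theorem spl_proof : Stmt_SPL := by
  intro K _ _ β hβ
  obtain ⟨L, hL1, hL2, r0, σ, hfin, hroot, hσ⟩ := exists_L K (β : K) hβ
  have hf : Module.Finite K L := Module.finite_of_finrank_pos (by rw [hfin]; exact two_pos)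
  have hc : CharZero L := charZero_of_injective_algebraMap (algebraMap K L).injective
  have hN : NumberField L := NumberField.of_module_finite K L
  have hint : IsIntegral ℤ r0 := by
    refine IsIntegral.of_pow two_pos ?_
    rw [hroot]
    exact map_isIntegral_int (algebraMap K L) β.2
  have hr2 : (⟨r0, hint⟩ : 𝓞 L) ^ 2 = algebraMap (𝓞 K) (𝓞 L) β := by
    apply NumberField.RingOfIntegers.ext
    exact hroot
  let s : 𝓞 L →+* 𝓞 L := NumberField.RingOfIntegers.mapRingHom σ.toRingHom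
  have hs : ∀ x : 𝓞 K, s (algebraMap (𝓞 K) (𝓞 L) x) = algebraMap (𝓞 K) (𝓞 L) x := by
    intro x
    apply NumberField.RingOfIntegers.ext
    exact σ.commutes (x : K)
  have hsr : s (⟨r0, hint⟩ : 𝓞 L) = -(⟨r0, hint⟩ : 𝓞 L) := by
    apply NumberField.RingOfIntegers.ext
    exact hσ
  choose q hq1 hq2 using exists_two K L hfin β _ hr2 s hs hsr
  refine ⟨L, hL1, hN, q, fun P h1 h2 i => (hq2 P h1 h2).2 i, ?_⟩
  intro P P' i j h1 h2 h1' h2' heq
  have hP : P = P' := by
    apply HeightOneSpectrum.ext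
    rw [(hq1 P i).over, (hq1 P' j).over, heq]
  subst hP
  refine ⟨rfl, ?_⟩
  have h3 := (hq2 P h1 h2).1
  cases i <;> cases j
  · rfl
  · exact absurd heq h3
  · exact absurd heq.symm h3
  · rfl

end Pool.Agent.ARL
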