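import Pool.Agent.ARL.Defs

/-!
# MP_5c2e18_nt, second theorem: module statements (see `/team-store/MP_5c2e18_ARL.md`)
-/

namespace Pool.Agent.ARL

open Polynomial Filter Topology NumberField IsDedekindDomain
open Pool.Agent.Arb (iter level ht cnt crit D)

/-! ### analytic part -/

/-- `ζ_K(s)` as a sum over the nonzero ideals -/
noncomputable def zs (K : Type) [Field K] [NumberField K] (s : ℝ) : ℝ :=
  ∑' I : {I : Ideal (𝓞 K) // I ≠ ⊥}, (Ideal.absNorm I.1 : ℝ) ^ (-s)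

/-- ZSU -/
def Stmt_ZSU : Prop := ∀ (K : Type) [Field K] [NumberField K],
  (∀ s : ℝ, 1 < s →
    Summable (fun I : {I : Ideal (𝓞 K) // I ≠ ⊥} => (Ideal.absNorm I.1 : ℝ) ^ (-s))) ∧
  Tendsto (fun s : ℝ => (s - 1) * zs K s) (𝓝[>] 1) (𝓝 (dedekindZeta_residue K))

/-- EUP (uses ZSU) -/
def Stmt_EUP : Prop := ∀ (K : Type) [Field K] [NumberField K] (s : ℝ), 1 < s →
  ∀ S : Finset (HeightOneSpectrum (𝓞 K)),
    ∏ P ∈ S, (1 + (Ideal.absNorm P.asIdeal : ℝ) ^ (-s)) ≤ zs K s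

/-- EUL (uses ZSU) -/
def Stmt_EUL : Prop := ∀ (K : Type) [Field K] [NumberField K] (s C : ℝ), 1 < s →
  (∀ S : Finset (HeightOneSpectrum (𝓞 K)),
    ∏ P ∈ S, (1 - (Ideal.absNorm P.asIdeal : ℝ) ^ (-s))⁻¹ ≤ C) → zs K s ≤ C

/-- FIB: `minFac (absNorm P)` is the residue characteristic; finitely many primes above each `p`. -/
def Stmt_FIB : Prop := ∀ (K : Type) [Field K] [NumberField K],
  (∀ P : HeightOneSpectrum (𝓞 K), (Ideal.absNorm P.asIdeal).minFac.Prime ∧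
    (Ideal.absNorm P.asIdeal = (Ideal.absNorm P.asIdeal).minFac ∨
      (Ideal.absNorm P.asIdeal).minFac ^ 2 ≤ Ideal.absNorm P.asIdeal)) ∧
  ∀ g : ℕ → ℝ, (∀ n, 0 ≤ g n) → Summable g →
    Summable (fun P : HeightOneSpectrum (𝓞 K) => g (Ideal.absNorm P.asIdeal).minFac)

/-- SPL: splitting in `K(√β)` -/
def Stmt_SPL : Prop := ∀ (K : Type) [Field K] [NumberField K] (β : 𝓞 K), ¬ IsSquare (β : K) →
  ∃ (L : Type) (_ : Field L) (_ : NumberField L)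
    (q : HeightOneSpectrum (𝓞 K) → Bool → HeightOneSpectrum (𝓞 L)),
    (∀ P, 2 * β ∉ P.asIdeal → IsSquare (Ideal.Quotient.mk P.asIdeal β) →
      ∀ i, Ideal.absNorm (q P i).asIdeal = Ideal.absNorm P.asIdeal) ∧
    (∀ P P' i j, 2 * β ∉ P.asIdeal → IsSquare (Ideal.Quotient.mk P.asIdeal β) →
      2 * β ∉ P'.asIdeal → IsSquare (Ideal.Quotient.mk P'.asIdeal β) →
      q P i = q P' j → P = P' ∧ i = j)

open scoped Classical in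
/-- CMP (uses ZSU EUP EUL SPL) -/
def Stmt_CMP : Prop := ∀ (K : Type) [Field K] [NumberField K] (β : 𝓞 K), ¬ IsSquare (β : K) →
  ¬ Summable (fun P : HeightOneSpectrum (𝓞 K) =>
    if IsSquare (Ideal.Quotient.mk P.asIdeal β) then (0 : ℝ)
    else (Ideal.absNorm P.asIdeal : ℝ)⁻¹)

open scoped Classical in
/-- CHE (uses FIB CMP): the primes `p` modulo which `M` has a root at which `h` is a nonsquare -/
def Stmt_CHE : Prop := ∀ M h : ℤ[X], M.Monic → Irreducible (M.map (Int.castRingHom ℚ)) →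
  (∀ g : ℚ[X], ¬ (M.map (Int.castRingHom ℚ) ∣ h.map (Int.castRingHom ℚ) - g ^ 2)) →
  ¬ Summable (fun p : ℕ =>
    if p.Prime ∧ ∃ x : ZMod p, aeval x M = 0 ∧ ¬ IsSquare (aeval x h) then (1 : ℝ) / p else 0)

/-! ### densities -/

/-- TOT -/
def Stmt_TOT : Prop := ∃ κ : ℝ, 0 < κ ∧ ∀ᶠ B : ℕ in atTop,
  κ * (B : ℝ) ^ 2 ≤ (cnt (fun _ => True) B : ℝ)

open scoped Classical in
/-- SIE (uses TOT) -/
def Stmt_SIE : Prop := ∀ (Q : ℕ → Prop) (Ω : ∀ p : ℕ, Set (ZMod p × ZMod p)),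
  (∀ p, Q p → p.Prime ∧ p ≤ 4 * (Ω p).ncard) →
  ¬ Summable (fun p : ℕ => if Q p then (1 : ℝ) / p else 0) →
  DensityOne (fun c => ∃ p, Q p ∧ ((c.num : ZMod p), ((c.den : ℤ) : ZMod p)) ∈ Ω p)

/-- INT -/
def Stmt_INT : Prop :=
  (∀ P Q : ℚ → Prop, DensityOne P → (∀ c, P c → Q c) → DensityOne Q) ∧
  (∀ P Q : ℚ → Prop, DensityOne P → DensityOne Q → DensityOne (fun c => P c ∧ Q c))

/-- DIA -/
def Stmt_DIA : Prop := ∀ P : ℕ → ℚ → Prop, (∀ R, DensityOne (P R)) →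
  (∀ R c, P (R + 1) c → P R c) →
  ∃ g : ℕ → ℕ, Tendsto g atTop atTop ∧ DensityOne (fun c => P (g (ht c)) c)

/-! ### polynomials -/

/-- EIS -/
def Stmt_EIS : Prop := ∀ r : ℕ, (Np r).Monic ∧ Irreducible ((Np r).map (Int.castRingHom ℚ))

/-- NSQ -/
def Stmt_NSQ : Prop := ∀ (r : ℕ) (s : ℤ), 1 ≤ r → Sg s → ∀ g : ℚ[X],
  ¬ ((Np r).map (Int.castRingHom ℚ) ∣ (C s * Dp r * Dp (r + 1)).map (Int.castRingHom ℚ) - g ^ 2)

/-! ### symbols -/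

/-- CHR -/
def Stmt_CHR : Prop := ∀ (p : ℕ) [Fact p.Prime] (a b s : ℤ) (r : ℕ) (x : ZMod p), 2 ≤ r →
  (b : ZMod p) ≠ 0 → (a : ZMod p) = x * (b : ZMod p) → aeval x (Np r) = 0 →
  ¬ IsSquare (aeval x (C s * Dp r * Dp (r + 1))) →
  ∀ k : ℕ, Squarefree k → 1 < k → ¬ IsSquare (-s * ∏ u ∈ k.divisors, D a b (r * u))

/-- CH1 -/
def Stmt_CH1 : Prop := ∀ (p : ℕ) [Fact p.Prime] (a b s : ℤ),
  (b : ZMod p) ≠ 0 → (a : ZMod p) = -2 * (b : ZMod p) →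
  ¬ IsSquare (-(s : ZMod p) * (b : ZMod p)) →
  ∀ k : ℕ, Squarefree k → 1 < k → ¬ IsSquare (s * ∏ u ∈ k.divisors, D a b (1 * u))

/-- CHI -/
def Stmt_CHI : Prop := ∀ c : ℚ, CondI c → ∀ m, 1 ≤ m → ¬ IsSquare (crit c m)

/-- VAL -/
def Stmt_VAL : Prop := ∀ (c : ℚ) (n r k : ℕ), 2 ≤ n → Squarefree k →
  (∀ p, p.Prime → p ∣ n → p ∣ k) → r * k = n →
  (∀ s : ℤ, Sg s → ¬ IsSquare (s * ∏ u ∈ k.divisors, D c.num c.den (r * u))) →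
  ∃ q : ℕ, q.Prime ∧ q ≠ 2 ∧ padicValRat q c = 0 ∧
    (∀ m, 1 ≤ m → m < n → padicValRat q (orb c m) = 0) ∧ Odd (padicValRat q (orb c n))

/-! ### Galois theory -/

/-- RAM: if `φ^{n+1}(0)` has odd valuation at an odd prime at which the earlier ones are units,
it is not a square in `K_n`. -/
def Stmt_RAM : Prop := ∀ (c : ℚ) (n q : ℕ), 1 ≤ n → q.Prime → q ≠ 2 → padicValRat q c = 0 →
  (∀ m, 1 ≤ m → m ≤ n → orb c m ≠ 0 ∧ padicValRat q (orb c m) = 0) →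
  Odd (padicValRat q (orb c (n + 1))) →
  ∀ w ∈ KK c n, w ^ 2 ≠ algebraMap ℚ (AlgebraicClosure ℚ) (orb c (n + 1))

/-- TRA -/
def Stmt_TRA : Prop := ∀ c : ℚ, (∀ m, 1 ≤ m → ¬ IsSquare (crit c m)) →
  ∀ n, ∀ x ∈ level c n, ∀ y ∈ level c n,
    ∃ σ : AlgebraicClosure ℚ ≃ₐ[ℚ] AlgebraicClosure ℚ, σ x = y

/-- MAX -/
def Stmt_MAX : Prop := ∀ (c : ℚ) (n : ℕ), (∀ m, 1 ≤ m → ¬ IsSquare (crit c m)) →
  (∀ x ∈ level c n, ∀ y ∈ level c n,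
    ∃ σ : AlgebraicClosure ℚ ≃ₐ[ℚ] AlgebraicClosure ℚ, σ x = y) →
  (∀ w ∈ KK c n, w ^ 2 ≠ algebraMap ℚ (AlgebraicClosure ℚ) (crit c (n + 1))) →
  MaxLevel c (n + 1)

/-! ### assembly -/

/-- DET (uses CHR CH1 CHI VAL RAM TRA MAX) -/
def Stmt_DET : Prop := ∀ (R : ℕ) (c : ℚ), CondI c → (∀ s, Sg s → Cond1 s c) →
  (∀ r, 2 ≤ r → r ≤ R → ∀ s, Sg s → CondR r s c) →
  ∀ n, 1 ≤ n → n ≤ R * rad n → MaxLevel c n

/-- DEN (uses CHE SIE INT EIS NSQ) -/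
def Stmt_DEN : Prop := ∀ R : ℕ, DensityOne (fun c => CondI c ∧ (∀ s, Sg s → Cond1 s c) ∧
  (∀ r, 2 ≤ r → r ≤ R → ∀ s, Sg s → CondR r s c))

/-- RAD: the levels `n` with `n / rad n > R` are sparse -/
def Stmt_RAD : Prop := ∀ ε : ℝ, 0 < ε → ∃ R : ℕ, ∀ X : ℕ,
  (((Finset.Icc 1 X).filter (fun n => R * rad n < n)).card : ℝ) ≤ ε * X

open scoped Classical in
/-- COR (uses RAD) -/
def Stmt_COR : Prop := ∀ ε : ℝ, 0 < ε → ∃ R : ℕ, ∀ c : ℚ,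
  (∀ n, 1 ≤ n → n ≤ R * rad n → MaxLevel c n) → ∀ X : ℕ,
    (1 - ε) * X ≤ (((Finset.Icc 1 X).filter (fun N : ℕ =>
      (2 : ℝ) ^ ((1 - ε) * (2 ^ N - 1)) ≤ (Module.finrank ℚ (KK c N) : ℝ))).card : ℝ)

open scoped Classical in
/-- The final theorem. -/
def Stmt_Main : Prop :=
  (∀ R : ℕ, DensityOne (fun c => ∀ n, 1 ≤ n → n ≤ R * rad n → MaxLevel c n)) ∧
  (∃ g : ℕ → ℕ, Tendsto g atTop atTop ∧
    DensityOne (fun c => ∀ n, 1 ≤ n → n ≤ g (ht c) * rad n → MaxLevel c n)) ∧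
  (∀ ε : ℝ, 0 < ε → DensityOne (fun c => ∀ X : ℕ,
    (1 - ε) * X ≤ (((Finset.Icc 1 X).filter (fun N : ℕ =>
      (2 : ℝ) ^ ((1 - ε) * (2 ^ N - 1)) ≤ (Module.finrank ℚ (KK c N) : ℝ))).card : ℝ)))

end Pool.Agent.ARL
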