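import Pool.Agent.ARL.Stmts
import Pool.Agent.Arb.DensA
import Pool.Agent.Arb.DensB

set_option autoImplicit false

namespace Pool.Agent.ARL

open Polynomial Filter Topology NumberField IsDedekindDomain
open Pool.Agent.Arb (iter level ht cnt crit D)

theorem tot_proof : Stmt_TOT := by
  obtain ⟨κ, hκ, h⟩ := Pool.Agent.Arb.pairs_proof
  have h1 := Pool.Agent.Arb.DensAux.total h
  refine ⟨12 * κ, by positivity, ?_⟩
  have h2 : 12 * κ < 24 * κ := by linarith
  filter_upwards [h1.eventually (eventually_gt_nhds h2), eventually_gt_atTop 0] with B hB hB0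
  have hB' : (0 : ℝ) < (B : ℝ) ^ 2 := by positivity
  rw [lt_div_iff₀ hB'] at hB
  exact hB.le

end Pool.Agent.ARL

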