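import Pool.Agent.ARL.Stmts
import Pool.Agent.Arb.GalBase

set_option autoImplicit false

/-!
# MP_5c2e18_nt, second theorem, module TRA: transitivity on the levels
-/

namespace Pool.Agent.ARL

open Polynomial Filter Topology NumberField IsDedekindDomain
open Pool.Agent.Arb (iter level ht cnt crit D)

namespace TRA_

open Pool.Agent.Arb (Om GG cc phi mem_level mem_level_succ mem_level_zero phi_map level_map
  lev mem_lev rt rt_sq phi_rt eq_or_neg_of_phi phi_neg rt_mem phi_eq aeval_iter iter_add_eq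
  iter_derivative iter_monic_natDegree phi_orb orb_succ crit_one crit_of_ne)

/-- nonvanishing of the critical orbit -/
def NZ (c : ℚ) : Prop := ∀ m, 1 ≤ m → Pool.Agent.Arb.orb c m ≠ 0

lemma nz_of {c : ℚ} (h : ∀ m, 1 ≤ m → ¬ IsSquare (crit c m)) : NZ c := by
  intro m hm h0
  apply h m hm
  by_cases h1 : m = 1
  · subst h1
    rw [crit_one]
    have : Pool.Agent.Arb.orb c 1 = c := by rw [orb_succ]; simp [Pool.Agent.Arb.orb]
    rw [this] at h0
    rw [h0, neg_zero]
    exact ⟨0, by simp⟩
  · rw [crit_of_ne h1, h0]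
    exact ⟨0, by simp⟩

lemma coprime_iter {c : ℚ} (h : NZ c) {i n : ℕ} (hin : i < n) :
    IsCoprime (iter c n) (iter c i) := by
  obtain ⟨k, rfl⟩ := Nat.exists_eq_add_of_lt hin
  obtain ⟨q, hq⟩ := iter_add_eq c i (k + 1)
  have h0 : Pool.Agent.Arb.orb c (k + 1) ≠ 0 := h _ (by omega)
  refine ⟨C (Pool.Agent.Arb.orb c (k + 1))⁻¹, - (C (Pool.Agent.Arb.orb c (k + 1))⁻¹ * q), ?_⟩
  have h1 : i + k + 1 = i + (k + 1) := by ring
  rw [h1, hq]
  have h2 : (C (Pool.Agent.Arb.orb c (k + 1))⁻¹ : ℚ[X]) * C (Pool.Agent.Arb.orb c (k + 1)) = 1 := by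
    rw [← C_mul, inv_mul_cancel₀ h0, C_1]
  linear_combination h2

lemma iter_separable {c : ℚ} (h : NZ c) (n : ℕ) : (iter c n).Separable := by
  rw [separable_def, iter_derivative]
  apply IsCoprime.mul_right
  · refine ⟨0, C (2 ^ n)⁻¹, ?_⟩
    rw [← C_mul, inv_mul_cancel₀ (by positivity), C_1]
    simp
  · apply IsCoprime.prod_right
    intro i hi
    exact coprime_iter h (Finset.mem_range.mp hi)

open scoped Classical in
lemma prod_lev {c : ℚ} (h : NZ c) (n : ℕ) (t : AlgebraicClosure ℚ) :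
    ∏ x ∈ lev c n, (t - x) = (phi c)^[n] t := by
  have hs : (((iter c n).map (algebraMap ℚ (AlgebraicClosure ℚ))).roots).Nodup :=
    nodup_roots ((iter_separable h n).map)
  have h1 := (IsAlgClosed.splits
    ((iter c n).map (algebraMap ℚ (AlgebraicClosure ℚ)))).eval_eq_prod_roots_of_monic
    ((iter_monic_natDegree c n).1.map _) t
  rw [← aeval_iter, aeval_def, ← eval_map, h1]
  unfold lev aroots
  rw [Finset.prod, Multiset.toFinset_val, Multiset.dedup_eq_self.mpr hs]

open scoped Classical in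
lemma card_lev {c : ℚ} (h : NZ c) (n : ℕ) : (lev c n).card = 2 ^ n := by
  have hs : (((iter c n).map (algebraMap ℚ (AlgebraicClosure ℚ))).roots).Nodup :=
    nodup_roots ((iter_separable h n).map)
  have h1 := (IsAlgClosed.splits
    ((iter c n).map (algebraMap ℚ (AlgebraicClosure ℚ)))).natDegree_eq_card_roots
  rw [natDegree_map, (iter_monic_natDegree c n).2] at h1
  unfold lev aroots
  rw [Multiset.card_toFinset, Multiset.dedup_eq_self.mpr hs, h1]

lemma prod_lev_sub {c : ℚ} (h : NZ c) (n : ℕ) :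
    ∏ x ∈ lev c n, (x - cc c) = algebraMap ℚ (AlgebraicClosure ℚ) (crit c (n + 1)) := by
  have h2 : ∏ x ∈ lev c n, (x - cc c) = ∏ x ∈ lev c n, ((-1) * (cc c - x)) :=
    Finset.prod_congr rfl fun x _ => by ring
  rw [h2, Finset.prod_mul_distrib, Finset.prod_const, card_lev h, prod_lev h]
  have h3 : (phi c)^[n] (cc c) =
      algebraMap ℚ (AlgebraicClosure ℚ) (Pool.Agent.Arb.orb c (n + 1)) := by
    rw [← phi_orb, Function.iterate_succ_apply]
    congr 1
    simp [phi, cc]
  rw [h3]
  rcases Nat.eq_zero_or_pos n with hn | hn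
  · subst hn
    rw [crit_one, orb_succ]
    simp [Pool.Agent.Arb.orb]
  · rw [crit_of_ne (by omega)]
    have : Even (2 ^ n) := (Nat.even_pow.mpr ⟨even_two, by omega⟩)
    rw [this.neg_one_pow, one_mul]

lemma ne_zero_of_level {c : ℚ} (h : NZ c) {n : ℕ} {x : AlgebraicClosure ℚ}
    (hx : x ∈ level c (n + 1)) : x ≠ 0 := by
  rintro rfl
  rw [mem_level, phi_orb] at hx
  exact h _ (Nat.succ_le_succ (Nat.zero_le n))
    ((map_eq_zero (algebraMap ℚ (AlgebraicClosure ℚ))).mp hx)

end TRA_

open TRA_ in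
open Pool.Agent.Arb (Om GG cc phi mem_level mem_level_succ mem_level_zero phi_map level_map
  lev mem_lev rt rt_sq phi_rt eq_or_neg_of_phi phi_neg rt_mem phi_eq) in
theorem tra_proof : Stmt_TRA := by
  intro c hc n
  have hz : NZ c := nz_of hc
  induction n with
  | zero =>
    intro x hx y hy
    rw [mem_level_zero] at hx hy
    exact ⟨AlgEquiv.refl, by rw [hx, hy]; rfl⟩
  | succ n ih =>
    intro x hx y hy
    by_contra hno
    push Not at hno
    obtain ⟨g, hg⟩ := ih (phi c x) (mem_level_succ.1 hx) (phi c y) (mem_level_succ.1 hy)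
    have hgx : g x = -y := by
      rw [← phi_map] at hg
      rcases eq_or_neg_of_phi hg with h | h
      · exact absurd h (hno g)
      · exact h
    classical
    set O : Finset (AlgebraicClosure ℚ) :=
      (lev c (n + 1)).filter (fun z => ∃ σ : GG, σ x = z) with hO
    have memO : ∀ z, z ∈ O ↔ ∃ σ : GG, σ x = z := by
      intro z
      rw [hO, Finset.mem_filter]
      constructor
      · exact fun h => h.2
      · rintro ⟨σ, rfl⟩
        exact ⟨mem_lev.2 (level_map σ hx), σ, rfl⟩
    have hOlev : ∀ z ∈ O, z ∈ level c (n + 1) := fun z hz => mem_lev.1 (Finset.mem_filter.1 hz).1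
    -- at least one of `z`, `-z`
    have hone : ∀ z ∈ level c (n + 1), z ∈ O ∨ -z ∈ O := by
      intro z hz
      obtain ⟨h, hh⟩ := ih (phi c x) (mem_level_succ.1 hx) (phi c z) (mem_level_succ.1 hz)
      rw [← phi_map] at hh
      rcases eq_or_neg_of_phi hh with h1 | h1
      · exact Or.inl ((memO z).2 ⟨h, h1⟩)
      · exact Or.inr ((memO (-z)).2 ⟨h, h1⟩)
    -- not both
    have hnot : ∀ z ∈ O, -z ∉ O := by
      intro z hz hz'
      obtain ⟨σ, hσ⟩ := (memO z).1 hz
      obtain ⟨τ, hτ⟩ := (memO (-z)).1 hz'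
      have h1 : σ (-x) = τ x := by rw [map_neg, hσ, hτ]
      have h2 : σ.symm (τ x) = -x := by rw [← h1, AlgEquiv.symm_apply_apply]
      have h3 : g (σ.symm (τ x)) = y := by rw [h2, map_neg, hgx, neg_neg]
      exact hno ((τ.trans σ.symm).trans g) h3
    -- the product is rational
    set P : AlgebraicClosure ℚ := ∏ z ∈ O, z with hP
    have hfix : ∀ σ : GG, σ P = P := by
      intro σ
      rw [hP, map_prod]
      refine Finset.prod_bij (fun z _ => σ z) ?_ ?_ ?_ ?_
      · intro z hz
        obtain ⟨τ, hτ⟩ := (memO z).1 hz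
        exact (memO _).2 ⟨τ.trans σ, by rw [AlgEquiv.trans_apply, hτ]⟩
      · intro a _ b _ hab
        exact σ.injective hab
      · intro z hz
        obtain ⟨τ, hτ⟩ := (memO z).1 hz
        refine ⟨σ.symm z, (memO _).2 ⟨τ.trans σ.symm, by rw [AlgEquiv.trans_apply, hτ]⟩, ?_⟩
        exact AlgEquiv.apply_symm_apply σ z
      · intro z _
        rfl
    obtain ⟨p, hp⟩ := (InfiniteGalois.mem_range_algebraMap_iff_fixed P).mpr hfix
    -- its square
    have hsq : P ^ 2 = algebraMap ℚ (AlgebraicClosure ℚ) (crit c (n + 1)) := by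
      rw [← prod_lev_sub hz n, hP, ← Finset.prod_pow]
      refine Finset.prod_bij (fun z _ => phi c z) ?_ ?_ ?_ ?_
      · intro z hz
        exact mem_lev.2 (mem_level_succ.1 (hOlev z hz))
      · intro a ha b hb hab
        rcases eq_or_neg_of_phi hab with h | h
        · exact h
        · exact absurd (by rwa [h] at ha : -b ∈ O) (hnot b hb)
      · intro w hw
        have h1 := rt_mem (mem_lev.1 hw)
        rcases hone _ h1 with h | h
        · exact ⟨_, h, phi_rt c w⟩
        · exact ⟨_, h, by rw [phi_neg, phi_rt]⟩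
      · intro z _
        rw [phi_eq]
        ring
    apply hc (n + 1) (by omega)
    refine ⟨p, ?_⟩
    apply (algebraMap ℚ (AlgebraicClosure ℚ)).injective
    rw [map_mul, hp, ← sq, hsq]

end Pool.Agent.ARL
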