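import Pool.Agent.ARL.Stmts
import Pool.Agent.Arb.Val

/-!
# Squad ARL, module VAL: a primitive odd prime with odd valuation
-/

set_option autoImplicit false

namespace Pool.Agent.ARL

open Polynomial Filter Topology NumberField IsDedekindDomain
open Pool.Agent.Arb (iter level ht cnt crit D)

namespace VAL_

open Pool.Agent.Arb.ValAux

lemma sq_or_two_sq {n : ℕ} (hn : n ≠ 0) (h : ∀ p, p.Prime → p ≠ 2 → Even (n.factorization p)) :
    IsSquare n ∨ IsSquare (2 * n) := by
  by_cases h2 : Even (n.factorization 2)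
  · left
    apply isSquare_of_even hn
    intro p hp
    by_cases hp2 : p = 2
    · rw [hp2]; exact h2
    · exact h p hp hp2
  · right
    apply isSquare_of_even (mul_ne_zero two_ne_zero hn)
    intro p hp
    rw [Nat.factorization_mul two_ne_zero hn, Finsupp.add_apply, Nat.Prime.factorization Nat.prime_two]
    by_cases hp2 : p = 2
    · rw [hp2, Finsupp.single_eq_same]
      rw [Nat.not_even_iff_odd] at h2
      exact h2.one_add
    · rw [Finsupp.single_eq_of_ne hp2, zero_add]
      exact h p hp hp2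

lemma exists_sign {P : ℤ} (h : IsSquare P.natAbs ∨ IsSquare (2 * P.natAbs)) :
    ∃ s : ℤ, Sg s ∧ IsSquare (s * P) := by
  rcases h with ⟨t, ht⟩ | ⟨t, ht⟩
  · rcases Int.natAbs_eq P with h | h
    · exact ⟨1, Or.inl rfl, (t : ℤ), by rw [one_mul, h, ht]; push_cast; ring⟩
    · refine ⟨-1, Or.inr (Or.inl rfl), (t : ℤ), ?_⟩
      rw [h, ht]; push_cast; ring
  · have ht' : (2 : ℤ) * (P.natAbs : ℤ) = t * t := by exact_mod_cast ht
    rcases Int.natAbs_eq P with h | h
    · refine ⟨2, Or.inr (Or.inr (Or.inl rfl)), (t : ℤ), ?_⟩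
      rw [← ht', ← h]
    · refine ⟨-2, Or.inr (Or.inr (Or.inr rfl)), (t : ℤ), ?_⟩
      rw [← ht']
      have h' : (P.natAbs : ℤ) = -P := by omega
      rw [h']
      ring

lemma D_zero_num (m : ℕ) : D 0 1 (m + 1) = 1 := by
  cases m with
  | zero => exact D_one 0 1
  | succ m => rw [D_succ]; simp

end VAL_

open VAL_ Pool.Agent.Arb.ValAux

theorem val_proof : Stmt_VAL := by
  intro c n s R hn2 hR hrad hsR hnsq
  classical
  set a : ℤ := c.num with ha
  set b : ℤ := (c.den : ℤ) with hb
  have hab : IsCoprime a b := by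
    have := c.reduced
    rw [Int.isCoprime_iff_gcd_eq_one]
    simpa [Int.gcd, ha, hb] using this
  have hb0 : b ≠ 0 := by simp [hb]
  have hn0 : s * R ≠ 0 := by omega
  have hs0 : s ≠ 0 := left_ne_zero_of_mul hn0
  have hR0 : R ≠ 0 := right_ne_zero_of_mul hn0
  set P : ℤ := ∏ u ∈ R.divisors, D a b (s * u) with hP
  have hc : c ≠ 0 := by
    intro hc0
    have ha1 : a = 0 := by rw [ha, hc0]; rfl
    have hb1 : b = 1 := by rw [hb, hc0]; rfl
    apply hnsq 1 (Or.inl rfl)
    have : P = 1 := by
      rw [hP]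
      apply Finset.prod_eq_one
      intro u hu
      have hu0 : u ≠ 0 := by
        rintro rfl
        simp at hu
      obtain ⟨j, hj⟩ : ∃ j, s * u = j + 1 :=
        ⟨s * u - 1, by have := Nat.pos_of_ne_zero (mul_ne_zero hs0 hu0); omega⟩
      rw [hj, ha1, hb1]
      exact D_zero_num j
    rw [this]
    exact ⟨1, by norm_num⟩
  have ha0 : a ≠ 0 := by simpa [ha] using (Rat.num_ne_zero.2 hc)
  have hP0 : P ≠ 0 := by
    intro h0
    apply hnsq 1 (Or.inl rfl)
    rw [h0]
    exact ⟨0, by norm_num⟩
  have hDP : ∀ u ∈ R.divisors, D a b (s * u) ≠ 0 := by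
    intro u hu h
    exact hP0 (Finset.prod_eq_zero hu h)
  have hD0 : ∀ u ∈ R.divisors, (D a b (s * u)).natAbs ≠ 0 := by
    intro u hu h
    exact hDP u hu (Int.natAbs_eq_zero.1 h)
  have hPabs : P.natAbs = ∏ u ∈ R.divisors, (D a b (s * u)).natAbs := by
    rw [hP]
    exact map_prod Int.natAbsHom _ _
  -- an odd prime with odd valuation
  obtain ⟨p, hp, hp2, hodd⟩ : ∃ p, p.Prime ∧ p ≠ 2 ∧ ¬ Even (P.natAbs.factorization p) := by
    by_contra hcon
    push Not at hcon
    obtain ⟨t, ht, hts⟩ := exists_sign (sq_or_two_sq (Int.natAbs_ne_zero.2 hP0)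
      (fun p hp hp2 => hcon p hp hp2))
    exact hnsq t ht hts
  have : Fact p.Prime := ⟨hp⟩
  have hpz : Prime (p : ℤ) := Nat.prime_iff_prime_int.mp hp
  have hfac : P.natAbs.factorization p =
      ∑ u ∈ R.divisors, (D a b (s * u)).natAbs.factorization p := by
    rw [hPabs, Nat.factorization_prod hD0, Finsupp.finsetSum_apply]
  have hex : ∃ u ∈ R.divisors, (p : ℤ) ∣ D a b (s * u) := by
    by_contra hcon
    push Not at hcon
    apply hodd
    rw [hfac, Finset.sum_eq_zero]
    · exact ⟨0, rfl⟩
    · intro u hu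
      apply Nat.factorization_eq_zero_of_not_dvd
      intro h
      exact hcon u hu (Int.natCast_dvd.2 h)
  obtain ⟨u0, hu0, hpu0⟩ := hex
  have hu0pos : 1 ≤ s * u0 := by
    have : u0 ≠ 0 := by
      rintro rfl
      simp at hu0
    exact Nat.one_le_iff_ne_zero.2 (mul_ne_zero hs0 this)
  have hexk : ∃ m, 1 ≤ m ∧ (p : ℤ) ∣ D a b m := ⟨s * u0, hu0pos, hpu0⟩
  have hpab : ¬ (p : ℤ) ∣ a ∧ ¬ (p : ℤ) ∣ b := by
    obtain ⟨m, hm⟩ : ∃ m, s * u0 = m + 1 := ⟨s * u0 - 1, by omega⟩
    have hcop := coprime_D hab m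
    rw [← hm] at hcop
    constructor
    · intro h
      exact hpz.not_isUnit (hcop.1.isUnit_of_dvd' hpu0 h)
    · intro h
      exact hpz.not_isUnit (hcop.2.isUnit_of_dvd' hpu0 h)
  -- the rank
  set k := Nat.find hexk with hkdef
  have hk := Nat.find_spec hexk
  rw [← hkdef] at hk
  have hmin : ∀ m, 1 ≤ m → m < k → ¬ (p : ℤ) ∣ D a b m := by
    intro m hm1 hmk h
    exact Nat.find_min hexk hmk ⟨hm1, h⟩
  have hDk0 : D a b k ≠ 0 := by
    intro h0
    have hzero : ∀ t, 1 ≤ t → D a b (k * t) = 0 := by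
      intro t ht
      induction t, ht using Nat.le_induction with
      | base => simpa using h0
      | succ t ht ih =>
        obtain ⟨j, hj⟩ : ∃ j, k * t = j + 1 := ⟨k * t - 1, by
          have : 1 ≤ k * t := Nat.one_le_iff_ne_zero.2 (mul_ne_zero (by omega) (by omega))
          omega⟩
        have hr := rigid a b k j
        rw [h0] at hr
        have hr' : b ^ 2 ^ j * D a b (k + j + 1) - b ^ 2 ^ (k + j) * D a b (j + 1) = 0 := by
          apply zero_dvd_iff.1
          simpa using hr
        rw [← hj, ih, mul_zero, sub_zero] at hr'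
        have hkt : k * (t + 1) = k + j + 1 := by
          rw [mul_add, hj]; ring
        rw [hkt]
        rcases mul_eq_zero.1 hr' with h | h
        · exact absurd h (pow_ne_zero _ hb0)
        · exact h
    have hnz : ∀ m, 1 ≤ m → (p : ℤ) ∣ D a b m → k ∣ m := by
      intro m
      induction m using Nat.strong_induction_on with
      | _ m ih =>
        intro hm hpm
        rcases lt_trichotomy m k with hlt | heq | hgt
        · exact absurd hpm (hmin m hm hlt)
        · rw [heq]
        · obtain ⟨j, hj⟩ : ∃ j, m = k + j + 1 := ⟨m - k - 1, by omega⟩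
          have hr := rigid a b k j
          rw [h0] at hr
          have hr' : b ^ 2 ^ j * D a b (k + j + 1) - b ^ 2 ^ (k + j) * D a b (j + 1) = 0 := by
            apply zero_dvd_iff.1
            simpa using hr
          rw [← hj] at hr'
          have h1 : (p : ℤ) ∣ b ^ 2 ^ (k + j) * D a b (j + 1) := by
            have : b ^ 2 ^ (k + j) * D a b (j + 1) = b ^ 2 ^ j * D a b m := by linarith
            rw [this]
            exact hpm.mul_left _
          have h2 : (p : ℤ) ∣ D a b (j + 1) := by
            rcases hpz.dvd_or_dvd h1 with h | h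
            · exact absurd (hpz.dvd_of_dvd_pow h) hpab.2
            · exact h
          have h3 := ih (j + 1) (by omega) (by omega) h2
          rw [hj, add_assoc]
          exact (Nat.dvd_add_right (dvd_refl k)).2 h3
    obtain ⟨t, ht⟩ := hnz (s * u0) hu0pos hpu0
    have ht1 : 1 ≤ t := by
      rcases Nat.eq_zero_or_pos t with h | h
      · rw [h] at ht; omega
      · exact h
    apply hDP u0 hu0
    rw [ht, hzero t ht1]
  obtain ⟨e, he1, he2⟩ : ∃ e, (p : ℤ) ^ e ∣ D a b k ∧ ¬ (p : ℤ) ^ (e + 1) ∣ D a b k := by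
    have hfin : FiniteMultiplicity (p : ℤ) (D a b k) :=
      FiniteMultiplicity.of_prime_left hpz hDk0
    refine ⟨multiplicity (p : ℤ) (D a b k), pow_multiplicity_dvd _ _, ?_⟩
    exact hfin.not_pow_dvd_of_multiplicity_lt (Nat.lt_succ_self _)
  have he : 1 ≤ e := by
    rcases Nat.eq_zero_or_pos e with h | h
    · subst h
      exact absurd (by simpa using hk.2) he2
    · exact h
  have hrk := ranks p hp hpab.2 k e hk.1 he he1 he2 hmin
  have hfacD : ∀ m, 1 ≤ m → (D a b m).natAbs.factorization p = if k ∣ m then e else 0 := by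
    intro m hm
    split_ifs with hkm
    · obtain ⟨g1, g2⟩ := (hrk m hm).1 hkm
      have hm0 : (D a b m).natAbs ≠ 0 := by
        intro h
        rw [Int.natAbs_eq_zero] at h
        exact g2 (h ▸ dvd_zero _)
      have g1' : p ^ e ∣ (D a b m).natAbs := by
        apply Int.natCast_dvd.1
        simpa using g1
      have g2' : ¬ p ^ (e + 1) ∣ (D a b m).natAbs := by
        intro h
        apply g2
        have := Int.natCast_dvd.2 h
        simpa using this
      have l1 := (hp.pow_dvd_iff_le_factorization hm0).1 g1'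
      have l2 : ¬ e + 1 ≤ (D a b m).natAbs.factorization p :=
        fun h => g2' ((hp.pow_dvd_iff_le_factorization hm0).2 h)
      omega
    · have g := (hrk m hm).2 hkm
      apply Nat.factorization_eq_zero_of_not_dvd
      intro h
      exact g (Int.natCast_dvd.2 h)
  have hsum : P.natAbs.factorization p =
      e * ((R.divisors.filter (fun u => k ∣ s * u)).card) := by
    rw [hfac, Finset.sum_congr rfl (fun u hu => hfacD (s * u) (by
      have : u ≠ 0 := by
        rintro rfl
        simp at hu
      exact Nat.one_le_iff_ne_zero.2 (mul_ne_zero hs0 this)))]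
    rw [← Finset.sum_filter, Finset.sum_const, smul_eq_mul, mul_comm]
  have hkn : k ∣ s * R := by
    by_contra hcon
    apply hodd
    rw [hsum]
    have : R.divisors.filter (fun u => k ∣ s * u) = ∅ := by
      rw [Finset.filter_eq_empty_iff]
      intro u hu h
      exact hcon (h.trans (mul_dvd_mul_left s (Nat.dvd_of_mem_divisors hu)))
    rw [this]
    simp
  have hkeq : k = s * R := by
    by_contra hne
    apply hodd
    rw [hsum]
    exact (count_even hR hn0 (fun q hq h => hrad q hq (hsR ▸ h)) hkn hne).mul_left e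
  have heodd : ¬ Even e := by
    intro hee
    apply hodd
    rw [hsum]
    exact hee.mul_right _
  have hpa' : padicValRat p (a : ℚ) = 0 := by
    rw [padicValRat.of_int, padicValInt.eq_zero_of_not_dvd hpab.1]
    rfl
  have hpb' : padicValRat p (b : ℚ) = 0 := by
    rw [padicValRat.of_int, padicValInt.eq_zero_of_not_dvd hpab.2]
    rfl
  have haQ : (a : ℚ) ≠ 0 := by exact_mod_cast ha0
  have hbQ : (b : ℚ) ≠ 0 := by exact_mod_cast hb0
  have hval : ∀ m, 1 ≤ m → D a b m ≠ 0 →
      padicValRat p (orb c m) = ((D a b m).natAbs.factorization p : ℤ) := by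
    intro m hm hDm
    have hDQ : (D a b m : ℚ) ≠ 0 := by exact_mod_cast hDm
    have hval : padicValRat p ((a : ℚ) * (D a b m : ℚ) / (b : ℚ) ^ (2 ^ (m - 1))) =
        ((D a b m).natAbs.factorization p : ℤ) := by
      rw [padicValRat.div (mul_ne_zero haQ hDQ) (pow_ne_zero _ hbQ), padicValRat.mul haQ hDQ,
        padicValRat.pow, hpa', hpb', padicValRat.of_int]
      simp only [mul_zero, sub_zero, zero_add]
      rw [padicValInt, Nat.factorization_def _ hp]
    have horb : orb c m = (a : ℚ) * (D a b m : ℚ) / (b : ℚ) ^ (2 ^ (m - 1)) := by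
      obtain ⟨j, rfl⟩ : ∃ j, m = j + 1 := ⟨m - 1, by omega⟩
      unfold orb
      rw [orbit_eq c j]
      simp [ha, hb]
    rw [horb, hval]
  refine ⟨p, hp, hp2, ?_, ?_, ?_⟩
  · have hcab : c = (a : ℚ) / (b : ℚ) := by
      have := (Rat.num_div_den c).symm
      simpa [ha, hb] using this
    rw [hcab, padicValRat.div haQ hbQ, hpa', hpb', sub_zero]
  · intro m hm hmn
    have hmk : m < k := by rw [hkeq, hsR]; exact hmn
    have hnd := hmin m hm hmk
    have hDm : D a b m ≠ 0 := fun h0 => hnd (h0 ▸ dvd_zero _)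
    rw [hval m hm hDm, Nat.factorization_eq_zero_of_not_dvd]
    · rfl
    · intro h
      exact hnd (Int.natCast_dvd.2 h)
  · have hkn' : k = n := by rw [hkeq, hsR]
    have hDn : D a b n ≠ 0 := hkn' ▸ hDk0
    rw [hval n (by omega) hDn, hfacD n (by omega), if_pos (by rw [hkn'])]
    rw [Nat.not_even_iff_odd] at heodd
    exact_mod_cast heodd

end Pool.Agent.ARL
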