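import Pool.Agent.ARL.Stmts

/-!
Squad ARL, module ZSU: the Dedekind zeta function as a sum over ideals.
-/

set_option autoImplicit false

namespace Pool.Agent.ARL

open Polynomial Filter Topology NumberField IsDedekindDomain
open Pool.Agent.Arb (iter level ht cnt crit D)

namespace ZSU_

variable (K : Type) [Field K] [NumberField K]

/-- the number of ideals of norm `n` -/
noncomputable def an (n : ℕ) : ℕ := Nat.card {I : Ideal (𝓞 K) // Ideal.absNorm I = n}

/-- the coefficients of the Dedekind zeta function -/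
noncomputable def co (n : ℕ) : ℂ := (Nat.card {I : Ideal (𝓞 K) // Ideal.absNorm I = n} : ℂ)

theorem zeta_eq (s : ℂ) : dedekindZeta K s = LSeries (co K) s := rfl

theorem lsum (s : ℝ) (hs : 1 < s) : LSeriesSummable (co K) (s : ℂ) := by
  by_contra hns
  have h1 : ∀ t : ℝ, 1 < t → t ≤ s → dedekindZeta K t = 0 := by
    intro t _ hts
    rw [zeta_eq]
    have h2 : ¬ LSeriesSummable (co K) (t : ℂ) := by
      intro h
      exact hns (h.of_re_le_re (by simpa using hts))
    exact tsum_eq_zero_of_not_summable h2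
  have h2 := tendsto_sub_one_mul_dedekindZeta_nhdsGT K
  have h3 : Tendsto (fun s : ℝ => (s - 1) * dedekindZeta K s) (𝓝[>] 1) (𝓝 0) := by
    refine Tendsto.congr' ?_ tendsto_const_nhds
    filter_upwards [Ioc_mem_nhdsGT hs] with t ht
    rw [h1 t ht.1 ht.2, mul_zero]
  have h4 := tendsto_nhds_unique h2 h3
  exact dedekindZeta_residue_ne_zero K (by exact_mod_cast h4)

/-- the real terms of the Dirichlet series -/
noncomputable def tm (s : ℝ) (n : ℕ) : ℝ := if n = 0 then 0 else (an K n : ℝ) * (n : ℝ) ^ (-s)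

theorem term_eq (s : ℝ) (n : ℕ) : LSeries.term (co K) (s : ℂ) n = ((tm K s n : ℝ) : ℂ) := by
  unfold tm
  by_cases hn : n = 0
  · subst hn
    simp
  · rw [LSeries.term_of_ne_zero hn, if_neg hn, Complex.ofReal_mul, Complex.ofReal_natCast,
      Complex.ofReal_cpow (Nat.cast_nonneg n), Complex.ofReal_neg, Complex.cpow_neg,
      Complex.ofReal_natCast, div_eq_mul_inv]
    rfl

theorem tm_summable (s : ℝ) (hs : 1 < s) : Summable (tm K s) := by
  have h := lsum K s hs
  unfold LSeriesSummable at h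
  have e : LSeries.term (co K) (s : ℂ) = fun n => ((tm K s n : ℝ) : ℂ) := by
    funext n
    exact term_eq K s n
  rw [e, Complex.summable_ofReal] at h
  exact h

theorem zeta_real (s : ℝ) : dedekindZeta K s = ((∑' n, tm K s n : ℝ) : ℂ) := by
  rw [zeta_eq, LSeries, Complex.ofReal_tsum]
  exact tsum_congr fun n => term_eq K s n

/-- the norm of a nonzero ideal -/
noncomputable def nm (I : {I : Ideal (𝓞 K) // I ≠ ⊥}) : ℕ := Ideal.absNorm I.1

theorem fib (s : ℝ) (n : ℕ) : Finite {I : {I : Ideal (𝓞 K) // I ≠ ⊥} // nm K I = n} ∧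
    ∑' I : {I : {I : Ideal (𝓞 K) // I ≠ ⊥} // nm K I = n}, (nm K I.1 : ℝ) ^ (-s) = tm K s n := by
  have hfin : Finite {I : {I : Ideal (𝓞 K) // I ≠ ⊥} // nm K I = n} := by
    have h1 : Finite {I : Ideal (𝓞 K) // Ideal.absNorm I = n} :=
      (Ideal.finite_setOfPred_absNorm_eq (S := 𝓞 K) n).to_subtype
    refine Finite.of_injective (fun I : {I : {I : Ideal (𝓞 K) // I ≠ ⊥} // nm K I = n} =>
      (⟨I.1.1, I.2⟩ : {I : Ideal (𝓞 K) // Ideal.absNorm I = n})) ?_
    intro I J h
    have h' := congrArg (fun I : {I : Ideal (𝓞 K) // Ideal.absNorm I = n} => I.1) h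
    exact Subtype.ext (Subtype.ext h')
  refine ⟨hfin, ?_⟩
  have h1 : ∑' I : {I : {I : Ideal (𝓞 K) // I ≠ ⊥} // nm K I = n}, (nm K I.1 : ℝ) ^ (-s) =
      ∑' _ : {I : {I : Ideal (𝓞 K) // I ≠ ⊥} // nm K I = n}, (n : ℝ) ^ (-s) :=
    tsum_congr fun I => by rw [I.2]
  rw [h1, tsum_const, tm, nsmul_eq_mul]
  by_cases hn : n = 0
  · rw [if_pos hn]
    have : IsEmpty {I : {I : Ideal (𝓞 K) // I ≠ ⊥} // nm K I = n} := by
      constructor
      rintro ⟨⟨I, hI⟩, h⟩
      rw [hn] at h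
      exact hI (Ideal.absNorm_eq_zero_iff.1 h)
    rw [Nat.card_of_isEmpty]
    simp
  · rw [if_neg hn]
    congr 2
    unfold an
    refine Nat.card_congr ⟨fun I => ⟨I.1.1, I.2⟩, fun I => ⟨⟨I.1, ?_⟩, I.2⟩, fun I => rfl,
      fun I => rfl⟩
    rintro h
    apply hn
    rw [← I.2, h]
    exact Ideal.absNorm_bot

theorem sums (s : ℝ) (hs : 1 < s) :
    Summable (fun I : {I : Ideal (𝓞 K) // I ≠ ⊥} => (Ideal.absNorm I.1 : ℝ) ^ (-s)) ∧
      zs K s = ∑' n, tm K s n := by
  have h0 : Summable (fun x : Σ n : ℕ, {I : {I : Ideal (𝓞 K) // I ≠ ⊥} // nm K I = n} =>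
      (nm K x.2.1 : ℝ) ^ (-s)) := by
    rw [summable_sigma_of_nonneg (fun _ => by positivity)]
    refine ⟨fun n => ?_, ?_⟩
    · have := (fib K s n).1
      exact Summable.of_finite
    · refine (tm_summable K s hs).congr fun n => ?_
      exact ((fib K s n).2).symm
  have h1 : Summable (fun I : {I : Ideal (𝓞 K) // I ≠ ⊥} => (nm K I : ℝ) ^ (-s)) := by
    rw [← (Equiv.sigmaFiberEquiv (nm K)).summable_iff]
    exact h0
  refine ⟨h1, ?_⟩
  have h2 : zs K s = ∑' x : Σ n : ℕ, {I : {I : Ideal (𝓞 K) // I ≠ ⊥} // nm K I = n},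
      (nm K x.2.1 : ℝ) ^ (-s) := by
    unfold zs
    rw [← (Equiv.sigmaFiberEquiv (nm K)).tsum_eq]
    rfl
  rw [h2, h0.tsum_sigma]
  exact tsum_congr fun n => (fib K s n).2

end ZSU_

open ZSU_ in
theorem zsu_proof : Stmt_ZSU := by
  intro K _ _
  refine ⟨fun s hs => (sums K s hs).1, ?_⟩
  have h := tendsto_sub_one_mul_dedekindZeta_nhdsGT K
  have h1 := (Complex.continuous_re.tendsto _).comp h
  rw [Complex.ofReal_re] at h1
  refine h1.congr' ?_
  filter_upwards [self_mem_nhdsWithin] with s hs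
  rw [Function.comp_apply, zeta_real, (sums K s hs).2]
  rw [← Complex.ofReal_one, ← Complex.ofReal_sub, ← Complex.ofReal_mul, Complex.ofReal_re]

end Pool.Agent.ARL
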